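import Mathlib

/-! Pointwise inequalities for the sixth power. -/

set_option autoImplicit false
namespace Pool.Agent.Helper318SP3

theorem real_ineq {A B c : ℝ} (hA : 0 ≤ A) (hB : 0 ≤ B) (h1 : c ≤ A * B) (h2 : c ^ 2 ≤ (A * B) ^ 2) :
    (A ^ 2 + B ^ 2 + 2 * c) ^ 3 ≤ A ^ 6 + 6 * (A ^ 4 * c) + 9 * (A ^ 4 * B ^ 2) +
      6 * (A ^ 2 * (2 * c ^ 2 - A ^ 2 * B ^ 2)) + 20 * (A ^ 3 * B ^ 3) + 15 * (A ^ 2 * B ^ 4) +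
      6 * (A * B ^ 5) + B ^ 6 := by
  have d1 : 0 ≤ A * B - c := by linarith
  have d2 : 0 ≤ (A * B) ^ 2 - c ^ 2 := by linarith
  have hAB : 0 ≤ A * B := mul_nonneg hA hB
  have d3 : 0 ≤ (A * B) ^ 3 - c ^ 3 := by
    have e : (A * B) ^ 3 - c ^ 3 = (A * B - c) * ((A * B) ^ 2 + (A * B) * c + c ^ 2) := by ring
    rw [e]
    refine mul_nonneg d1 ?_
    nlinarith [sq_nonneg (A * B + c), sq_nonneg (A * B), sq_nonneg c]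
  have e : A ^ 6 + 6 * (A ^ 4 * c) + 9 * (A ^ 4 * B ^ 2) +
      6 * (A ^ 2 * (2 * c ^ 2 - A ^ 2 * B ^ 2)) + 20 * (A ^ 3 * B ^ 3) + 15 * (A ^ 2 * B ^ 4) +
      6 * (A * B ^ 5) + B ^ 6 - (A ^ 2 + B ^ 2 + 2 * c) ^ 3 =
      12 * (A * B) ^ 2 * (A * B - c) + 8 * ((A * B) ^ 3 - c ^ 3) +
      12 * B ^ 2 * ((A * B) ^ 2 - c ^ 2) + 6 * B ^ 4 * (A * B - c) := by ring
  have : 0 ≤ 12 * (A * B) ^ 2 * (A * B - c) + 8 * ((A * B) ^ 3 - c ^ 3) +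
      12 * B ^ 2 * ((A * B) ^ 2 - c ^ 2) + 6 * B ^ 4 * (A * B - c) := by positivity
  linarith

/-- the pointwise inequality -/
theorem point (a b : ℂ) :
    ‖a + b‖ ^ 6 ≤ ‖a‖ ^ 6 + 6 * (‖a‖ ^ 4 * ((starRingEnd ℂ) a * b).re) +
      9 * (‖a‖ ^ 4 * ‖b‖ ^ 2) + 6 * (‖a‖ ^ 2 * ((starRingEnd ℂ) a * b * ((starRingEnd ℂ) a * b)).re) +
      20 * (‖a‖ ^ 3 * ‖b‖ ^ 3) + 15 * (‖a‖ ^ 2 * ‖b‖ ^ 4) + 6 * (‖a‖ * ‖b‖ ^ 5) + ‖b‖ ^ 6 := by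
  set z : ℂ := (starRingEnd ℂ) a * b with hz
  have hn : ‖z‖ = ‖a‖ * ‖b‖ := by rw [hz, norm_mul, Complex.norm_conj]
  have h1 : z.re ≤ ‖a‖ * ‖b‖ := by rw [← hn]; exact Complex.re_le_norm z
  have h2 : z.re ^ 2 ≤ (‖a‖ * ‖b‖) ^ 2 := by
    rw [← hn]
    have := Complex.abs_re_le_norm z
    rw [← sq_abs]
    exact pow_le_pow_left₀ (abs_nonneg _) this 2
  have h3 : (z * z).re = 2 * z.re ^ 2 - ‖a‖ ^ 2 * ‖b‖ ^ 2 := by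
    have h4 : z.re ^ 2 + z.im ^ 2 = (‖a‖ * ‖b‖) ^ 2 := by
      rw [← hn, ← Complex.normSq_eq_norm_sq, Complex.normSq_apply]; ring
    rw [Complex.mul_re]
    nlinarith
  have h5 : ‖a + b‖ ^ 2 = ‖a‖ ^ 2 + ‖b‖ ^ 2 + 2 * z.re := by
    rw [← Complex.normSq_eq_norm_sq, ← Complex.normSq_eq_norm_sq, ← Complex.normSq_eq_norm_sq,
      Complex.normSq_add, hz]
    have : (a * (starRingEnd ℂ) b).re = ((starRingEnd ℂ) a * b).re := by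
      simp only [Complex.mul_re, Complex.conj_re, Complex.conj_im]
      ring
    rw [this]
  have h6 : ‖a + b‖ ^ 6 = (‖a‖ ^ 2 + ‖b‖ ^ 2 + 2 * z.re) ^ 3 := by
    rw [← h5]; ring
  rw [h6, h3]
  exact real_ineq (norm_nonneg a) (norm_nonneg b) h1 h2

theorem am2 {P Q : ℝ} (hP : 0 ≤ P) (hQ : 0 ≤ Q) : P * Q ^ 2 ≤ (P ^ 3 + 2 * Q ^ 3) / 3 := by
  have e : (P ^ 3 + 2 * Q ^ 3) / 3 - P * Q ^ 2 = (P - Q) ^ 2 * (P + 2 * Q) / 3 := by ring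
  have : 0 ≤ (P - Q) ^ 2 * (P + 2 * Q) / 3 := by positivity
  linarith

theorem am3 {p q : ℝ} : p ^ 3 * q ^ 3 ≤ (p ^ 6 + q ^ 6) / 2 := by
  nlinarith [sq_nonneg (p ^ 3 - q ^ 3)]

theorem am5 {p q : ℝ} (hp : 0 ≤ p) (hq : 0 ≤ q) : p * q ^ 5 ≤ (p ^ 6 + 5 * q ^ 6) / 6 := by
  have e : (p ^ 6 + 5 * q ^ 6) / 6 - p * q ^ 5 = (p - q) ^ 2 * (p ^ 4 + 2 * p ^ 3 * q +
      3 * p ^ 2 * q ^ 2 + 4 * p * q ^ 3 + 5 * q ^ 4) / 6 := by ring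
  have : 0 ≤ (p - q) ^ 2 * (p ^ 4 + 2 * p ^ 3 * q +
      3 * p ^ 2 * q ^ 2 + 4 * p * q ^ 3 + 5 * q ^ 4) / 6 := by positivity
  linarith

/-- the second order term -/
theorem second {s T D : ℝ} (hs : 0 ≤ s) (_hT : 0 ≤ T) (hTs : T ≤ s) (hD : T ^ 2 ≤ 2 * D) :
    (9 * s + 6 * T) ^ 3 ≤ 1350 * (s ^ 3 + 3 * (s * D)) := by
  have h1 : s * T ^ 2 ≤ s * (2 * D) := mul_le_mul_of_nonneg_left hD hs
  have h2 : 0 ≤ (s - T) ^ 2 * (23 * s - 8 * T) := by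
    refine mul_nonneg (sq_nonneg _) ?_
    linarith
  nlinarith

end Pool.Agent.Helper318SP3
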