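import Pool.Agent.Helper318SP3.Cone
import Pool.Agent.Helper318SP3.Point

/-!
The residue classes of a trigonometric polynomial modulo `m`.
-/

set_option autoImplicit false

namespace Pool.Agent.Helper318SP3

open Finset Pool.Agent.H384R3.SPk Pool.Agent.H384R3.SPk.C

/-- the part of `F f` with frequencies congruent to `r` -/
noncomputable def bb (f : ℤ →₀ ℝ) (m : ℕ) (r : ZMod m) (x : ℝ) : ℂ :=
  ∑ n ∈ f.support.filter (fun n => ((n : ℤ) : ZMod m) = r), (f n : ℂ) * e n x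

theorem bb_sum (f : ℤ →₀ ℝ) (m : ℕ) [NeZero m] (x : ℝ) : ∑ r, bb f m r x = F f x := by
  unfold bb
  rw [F_eq, Finset.sum_fiberwise]

theorem bb_pos {f : ℤ →₀ ℝ} (hf : ∀ n, 0 ≤ f n) (m : ℕ) (r : ZMod m) : Pos (bb f m r) := by
  refine ⟨{n // n ∈ f.support.filter (fun n => ((n : ℤ) : ZMod m) = r)}, inferInstance,
    fun i => i.1, fun i => f i.1, fun i => hf _, fun x => ?_⟩
  unfold bb
  rw [← Finset.sum_coe_sort]

theorem bb_tr (f : ℤ →₀ ℝ) (m : ℕ) (r : ZMod m) : Tr (bb f m r) := by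
  refine ⟨?_, fun x => ?_⟩
  · unfold bb
    exact continuous_finsetSum _ fun i _ => (e_cont _).const_mul _
  · unfold bb
    refine Finset.sum_congr rfl fun n _ => ?_
    rw [(e_tr n).2 x]

theorem e_shift (m : ℕ) [NeZero m] (n : ℤ) (x : ℝ) :
    e n (x + 1 / m) = ZMod.stdAddChar ((n : ℤ) : ZMod m) * e n x := by
  have hm : (m : ℂ) ≠ 0 := by exact_mod_cast NeZero.ne m
  rw [ZMod.stdAddChar_coe]
  unfold e
  rw [← Complex.exp_add]
  congr 1
  push_cast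
  field_simp
  ring

theorem bb_cl (f : ℤ →₀ ℝ) (m : ℕ) [NeZero m] (r : ZMod m) : Cl m r (bb f m r) := by
  intro x
  unfold bb
  rw [Finset.mul_sum]
  refine Finset.sum_congr rfl fun n hn => ?_
  rw [e_shift, (Finset.mem_filter.1 hn).2]
  ring

theorem bb_zero {f : ℤ →₀ ℝ} {m : ℕ} {r : ZMod m}
    (h : ∀ n ∈ f.support, ((n : ℤ) : ZMod m) ≠ r) (x : ℝ) : bb f m r x = 0 := by
  unfold bb
  rw [Finset.filter_false_of_mem h, Finset.sum_empty]

/-- only the classes `0` contribute to an integral -/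
theorem keep {m : ℕ} [NeZero m] {J : Type} [Fintype J] (Φ : J → ℝ → ℂ) (c : J → ZMod m)
    (hc : ∀ j, Cl m (c j) (Φ j)) (ht : ∀ j, Tr (Φ j)) {A0 : ℝ → ℂ} (h0 : Cl m 0 A0)
    (hT : Tr A0) :
    ∫ x in (0:ℝ)..1, A0 x * ∑ j, Φ j x =
      ∫ x in (0:ℝ)..1, A0 x * ∑ j, if c j = 0 then Φ j x else 0 := by
  have e1 : ∀ x, A0 x * ∑ j, Φ j x = ∑ j, A0 x * Φ j x := fun x => Finset.mul_sum _ _ _
  have e2 : ∀ x, (A0 x * ∑ j, if c j = 0 then Φ j x else 0) =
      ∑ j, A0 x * (if c j = 0 then Φ j x else 0) := fun x => Finset.mul_sum _ _ _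
  simp_rw [e1, e2]
  rw [intervalIntegral.integral_finsetSum, intervalIntegral.integral_finsetSum]
  · refine Finset.sum_congr rfl fun j _ => ?_
    by_cases h : c j = 0
    · simp [h]
    · simp only [h, if_false, mul_zero, intervalIntegral.integral_zero]
      have := (h0.mul (hc j)).integral (hT.mul (ht j)) (by rwa [zero_add])
      exact this
  · intro j _
    by_cases h : c j = 0
    · simp only [h, if_true]
      exact ((hT.mul (ht j)).1).intervalIntegrable _ _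
    · simp only [h, if_false, mul_zero]
      exact intervalIntegrable_const
  · intro j _
    exact ((hT.mul (ht j)).1).intervalIntegrable _ _

/-- the square function -/
noncomputable def sS (f : ℤ →₀ ℝ) (m : ℕ) [NeZero m] (x : ℝ) : ℝ := ∑ r : ZMod m, ‖bb f m r x‖ ^ 2

/-- the off-diagonal part -/
noncomputable def sD (f : ℤ →₀ ℝ) (m : ℕ) [NeZero m] (x : ℝ) : ℝ :=
  ∑ p : ZMod m × ZMod m, if p.1 ≠ p.2 then ‖bb f m p.1 x‖ ^ 2 * ‖bb f m p.2 x‖ ^ 2 else 0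

/-- the sum over opposite classes -/
noncomputable def sT (f : ℤ →₀ ℝ) (m : ℕ) [NeZero m] (x : ℝ) : ℝ :=
  ∑ r : ZMod m, ‖bb f m r x‖ * ‖bb f m (-r) x‖

theorem sS_nonneg (f : ℤ →₀ ℝ) (m : ℕ) [NeZero m] (x : ℝ) : 0 ≤ sS f m x :=
  Finset.sum_nonneg fun _ _ => sq_nonneg _

theorem sT_nonneg (f : ℤ →₀ ℝ) (m : ℕ) [NeZero m] (x : ℝ) : 0 ≤ sT f m x :=
  Finset.sum_nonneg fun _ _ => mul_nonneg (norm_nonneg _) (norm_nonneg _)

theorem sT_le (f : ℤ →₀ ℝ) (m : ℕ) [NeZero m] (x : ℝ) : sT f m x ≤ sS f m x := by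
  have h1 : ∑ r : ZMod m, ‖bb f m (-r) x‖ ^ 2 = sS f m x :=
    Equiv.sum_comp (Equiv.neg (ZMod m)) (fun r => ‖bb f m r x‖ ^ 2)
  have h2 : sT f m x ≤ ∑ r : ZMod m, (‖bb f m r x‖ ^ 2 / 2 + ‖bb f m (-r) x‖ ^ 2 / 2) := by
    refine Finset.sum_le_sum fun r _ => ?_
    nlinarith [sq_nonneg (‖bb f m r x‖ - ‖bb f m (-r) x‖)]
  rw [Finset.sum_add_distrib, ← Finset.sum_div, ← Finset.sum_div, h1] at h2
  have h3 : ∑ r : ZMod m, ‖bb f m r x‖ ^ 2 = sS f m x := rfl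
  rw [h3] at h2
  linarith

theorem sT_sq (f : ℤ →₀ ℝ) (m : ℕ) [NeZero m]
    (hf : ∀ n ∈ f.support, ((n : ℤ) : ZMod m) ≠ - ((n : ℤ) : ZMod m)) (x : ℝ) :
    sT f m x ^ 2 ≤ 2 * sD f m x := by
  obtain ⟨y, hy⟩ : ∃ y : ZMod m → ℝ, y = fun r => ‖bb f m r x‖ := ⟨_, rfl⟩
  have y0 : ∀ r, 0 ≤ y r := fun r => by rw [hy]; exact norm_nonneg _
  have yz : ∀ r : ZMod m, r = -r → y r = 0 := by
    intro r hr
    rw [hy]
    show ‖bb f m r x‖ = 0
    rw [bb_zero (fun n hn h => hf n hn (by rw [h]; exact hr)) x, norm_zero]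
  have eT : sT f m x = ∑ r : ZMod m, y r * y (-r) := by rw [hy]; rfl
  have eD : sD f m x = ∑ p : ZMod m × ZMod m, if p.1 ≠ p.2 then y p.1 ^ 2 * y p.2 ^ 2 else 0 := by
    rw [hy]; rfl
  have e1 : sT f m x ^ 2 = ∑ p : ZMod m × ZMod m, (y p.1 * y (-p.1)) * (y p.2 * y (-p.2)) := by
    rw [eT, sq, Finset.sum_mul_sum, Fintype.sum_prod_type]
  -- the negated sum
  have eDn : ∑ p : ZMod m × ZMod m, (if p.1 ≠ p.2 then y (-p.1) ^ 2 * y (-p.2) ^ 2 else 0) =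
      sD f m x := by
    rw [eD]
    refine Fintype.sum_equiv ((Equiv.neg (ZMod m)).prodCongr (Equiv.neg (ZMod m))) _ _ ?_
    intro p
    simp
  -- the diagonal
  have eG : ∑ r : ZMod m, y r ^ 2 * y (-r) ^ 2 ≤ sD f m x := by
    rw [eD]
    have : ∑ r : ZMod m, y r ^ 2 * y (-r) ^ 2 =
        ∑ p ∈ (Finset.univ : Finset (ZMod m)).image (fun r => (r, -r)),
          (if p.1 ≠ p.2 then y p.1 ^ 2 * y p.2 ^ 2 else 0) := by
      rw [Finset.sum_image (fun a _ b _ h => congrArg Prod.fst h)]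
      refine Finset.sum_congr rfl fun r _ => ?_
      by_cases h : r = -r
      · rw [yz r h]
        simp
      · rw [if_pos h]
    rw [this]
    refine Finset.sum_le_sum_of_subset_of_nonneg (Finset.subset_univ _) fun p _ _ => ?_
    split_ifs
    · positivity
    · exact le_rfl
  have key : sT f m x ^ 2 ≤ ∑ p : ZMod m × ZMod m,
      ((if p.1 ≠ p.2 then y p.1 ^ 2 * y p.2 ^ 2 else 0) / 2 +
      (if p.1 ≠ p.2 then y (-p.1) ^ 2 * y (-p.2) ^ 2 else 0) / 2 +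
      (if p.1 = p.2 then y p.1 ^ 2 * y (-p.1) ^ 2 else 0)) := by
    rw [e1]
    refine Finset.sum_le_sum fun p _ => ?_
    by_cases h : p.1 = p.2
    · rw [if_neg (not_not.2 h), if_neg (not_not.2 h), if_pos h, ← h]
      nlinarith
    · rw [if_pos h, if_pos h, if_neg h]
      nlinarith [sq_nonneg (y p.1 * y p.2 - y (-p.1) * y (-p.2))]
  have eDiag : ∑ p : ZMod m × ZMod m, (if p.1 = p.2 then y p.1 ^ 2 * y (-p.1) ^ 2 else 0) =
      ∑ r : ZMod m, y r ^ 2 * y (-r) ^ 2 := by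
    rw [Fintype.sum_prod_type]
    refine Finset.sum_congr rfl fun r _ => ?_
    simp
  rw [Finset.sum_add_distrib, Finset.sum_add_distrib, ← Finset.sum_div, ← Finset.sum_div, eDn,
    ← eD, eDiag] at key
  linarith

end Pool.Agent.Helper318SP3
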