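import Pool.Agent.Helper318SP3.Sixth

/-!
The sixth moment inequality for `g + f`.
-/

set_option autoImplicit false

namespace Pool.Agent.Helper318SP3

open Finset Pool.Agent.H384R3.SPk Pool.Agent.H384R3.SPk.C

theorem F_add' (g f : ℤ →₀ ℝ) (x : ℝ) : F (g + f) x = F g x + F f x := by
  unfold F
  rw [Finsupp.sum_add_index']
  · intro n; simp
  · intro n a b; push_cast; ring

theorem Tr.const (c : ℂ) : Tr (fun _ => c) := ⟨continuous_const, fun _ => rfl⟩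

theorem re_int {Φ : ℝ → ℂ} (h : Continuous Φ) :
    (∫ x in (0:ℝ)..1, Φ x).re = ∫ x in (0:ℝ)..1, (Φ x).re :=
  (Complex.reCLM.intervalIntegral_comp_comm (h.intervalIntegrable 0 1)).symm

theorem iadd {h1 h2 : ℝ → ℝ} (c1 : Continuous h1) (c2 : Continuous h2) :
    ∫ x in (0:ℝ)..1, (h1 x + h2 x) = (∫ x in (0:ℝ)..1, h1 x) + ∫ x in (0:ℝ)..1, h2 x :=
  intervalIntegral.integral_add (c1.intervalIntegrable _ _) (c2.intervalIntegrable _ _)

theorem imul (a : ℝ) (h : ℝ → ℝ) :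
    ∫ x in (0:ℝ)..1, a * h x = a * ∫ x in (0:ℝ)..1, h x :=
  intervalIntegral.integral_const_mul _ _

theorem lin2 {h1 h2 : ℝ → ℝ} (c1 : Continuous h1) (c2 : Continuous h2) (a b : ℝ) :
    ∫ x in (0:ℝ)..1, (a * h1 x + b * h2 x) =
      a * (∫ x in (0:ℝ)..1, h1 x) + b * ∫ x in (0:ℝ)..1, h2 x := by
  rw [← imul, ← imul]
  exact iadd (h1 := fun x => a * h1 x) (h2 := fun x => b * h2 x) (continuous_const.mul c1)
    (continuous_const.mul c2)

theorem lin3 {h1 h2 h3 : ℝ → ℝ} (c1 : Continuous h1) (c2 : Continuous h2) (c3 : Continuous h3)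
    (a b c : ℝ) :
    ∫ x in (0:ℝ)..1, (a * h1 x + (b * h2 x + c * h3 x)) =
      a * (∫ x in (0:ℝ)..1, h1 x) + (b * (∫ x in (0:ℝ)..1, h2 x) +
        c * ∫ x in (0:ℝ)..1, h3 x) := by
  rw [← lin2 c2 c3, ← imul]
  exact iadd (h1 := fun x => a * h1 x) (h2 := fun x => b * h2 x + c * h3 x)
    (continuous_const.mul c1) ((continuous_const.mul c2).add (continuous_const.mul c3))

theorem lin12 {h1 h2 h3 : ℝ → ℝ} (c1 : Continuous h1) (c2 : Continuous h2) (c3 : Continuous h3)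
    (b c : ℝ) :
    ∫ x in (0:ℝ)..1, (h1 x + (b * h2 x + c * h3 x)) =
      (∫ x in (0:ℝ)..1, h1 x) + (b * (∫ x in (0:ℝ)..1, h2 x) +
        c * ∫ x in (0:ℝ)..1, h3 x) := by
  rw [← lin2 c2 c3]
  exact iadd (h1 := h1) (h2 := fun x => b * h2 x + c * h3 x)
    c1 ((continuous_const.mul c2).add (continuous_const.mul c3))

theorem lin13 {h1 h2 h3 h4 : ℝ → ℝ} (c1 : Continuous h1) (c2 : Continuous h2) (c3 : Continuous h3)
    (c4 : Continuous h4) (b c d : ℝ) :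
    ∫ x in (0:ℝ)..1, (h1 x + (b * h2 x + (c * h3 x + d * h4 x))) =
      (∫ x in (0:ℝ)..1, h1 x) + (b * (∫ x in (0:ℝ)..1, h2 x) +
        (c * (∫ x in (0:ℝ)..1, h3 x) + d * ∫ x in (0:ℝ)..1, h4 x)) := by
  rw [← lin3 c2 c3 c4]
  exact iadd (h1 := h1) (h2 := fun x => b * h2 x + (c * h3 x + d * h4 x))
    c1 ((continuous_const.mul c2).add ((continuous_const.mul c3).add (continuous_const.mul c4)))

section

variable {m : ℕ} [NeZero m] {g f : ℤ →₀ ℝ}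

theorem int1 (hg : ∀ n ∈ g.support, ((n : ℤ) : ZMod m) = 0)
    (hf : ∀ n ∈ f.support, ((n : ℤ) : ZMod m) ≠ 0) :
    ∫ x in (0:ℝ)..1, ‖F g x‖ ^ 4 * ((starRingEnd ℂ) (F g x) * F f x).re = 0 := by
  set a : ℝ → ℂ := F g with ha
  have ca : Cl m 0 a := F_cl hg
  have ta : Tr a := F_tr g
  set A0 : ℝ → ℂ := fun x => (a x * (starRingEnd ℂ) (a x)) * (a x * (starRingEnd ℂ) (a x)) *
    (starRingEnd ℂ) (a x) with hA0
  have c0 : Cl m 0 A0 := by
    have := ((ca.mul ca.conj).mul (ca.mul ca.conj)).mul ca.conj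
    simpa using this
  have t0 : Tr A0 := ((ta.mul ta.conj).mul (ta.mul ta.conj)).mul ta.conj
  have k := keep (fun r => bb f m r) (fun r => r) (fun r => bb_cl f m r) (fun r => bb_tr f m r) c0 t0
  have z : ∀ x, (∑ j : ZMod m, if j = 0 then bb f m j x else 0) = 0 := by
    intro x
    refine Finset.sum_eq_zero fun j _ => ?_
    split_ifs with h
    · subst h
      exact bb_zero hf x
    · rfl
  simp_rw [z] at k
  simp only [mul_zero, intervalIntegral.integral_zero] at k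
  have e : ∀ x, A0 x * ∑ j, bb f m j x =
      ((‖a x‖ ^ 4 : ℝ) : ℂ) * ((starRingEnd ℂ) (a x) * F f x) := by
    intro x
    rw [bb_sum]
    simp only [hA0]
    rw [cj]
    push_cast
    ring
  simp_rw [e] at k
  have h := congrArg Complex.re k
  rw [Complex.zero_re] at h
  have h2 : (∫ x in (0:ℝ)..1, ((‖a x‖ ^ 4 : ℝ) : ℂ) * ((starRingEnd ℂ) (a x) * F f x)).re =
      ∫ x in (0:ℝ)..1, (((‖a x‖ ^ 4 : ℝ) : ℂ) * ((starRingEnd ℂ) (a x) * F f x)).re :=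
    re_int ((Complex.continuous_ofReal.comp (ta.1.norm.pow 4)).mul (ta.conj.1.mul (F_tr f).1))
  rw [h2] at h
  refine Eq.trans ?_ h
  refine intervalIntegral.integral_congr fun x _ => ?_
  show _ = (((‖a x‖ ^ 4 : ℝ) : ℂ) * ((starRingEnd ℂ) (a x) * F f x)).re
  rw [Complex.re_ofReal_mul]

theorem int2 (hg : ∀ n ∈ g.support, ((n : ℤ) : ZMod m) = 0) :
    ∫ x in (0:ℝ)..1, ‖F g x‖ ^ 4 * ‖F f x‖ ^ 2 = ∫ x in (0:ℝ)..1, ‖F g x‖ ^ 4 * sS f m x := by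
  classical
  set a : ℝ → ℂ := F g with ha
  have ca : Cl m 0 a := F_cl hg
  have ta : Tr a := F_tr g
  set A0 : ℝ → ℂ := fun x => (a x * (starRingEnd ℂ) (a x)) * (a x * (starRingEnd ℂ) (a x)) with hA0
  have c0 : Cl m 0 A0 := by
    have := ((ca.mul ca.conj).mul (ca.mul ca.conj))
    simpa using this
  have t0 : Tr A0 := ((ta.mul ta.conj).mul (ta.mul ta.conj))
  have k := keep (J := ZMod m × ZMod m) (fun p x => bb f m p.1 x * (starRingEnd ℂ) (bb f m p.2 x))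
    (fun p => p.1 + -p.2) (fun p => (bb_cl f m p.1).mul (bb_cl f m p.2).conj)
    (fun p => (bb_tr f m p.1).mul (bb_tr f m p.2).conj) c0 t0
  have z : ∀ x, (∑ p : ZMod m × ZMod m, if p.1 + -p.2 = 0 then
      bb f m p.1 x * (starRingEnd ℂ) (bb f m p.2 x) else 0) = ((sS f m x : ℝ) : ℂ) := by
    intro x
    rw [Fintype.sum_prod_type]
    unfold sS
    push_cast
    refine Finset.sum_congr rfl fun r _ => ?_
    have : ∀ t : ZMod m, (if r + -t = 0 then bb f m r x * (starRingEnd ℂ) (bb f m t x) else 0) =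
        if t = r then bb f m r x * (starRingEnd ℂ) (bb f m t x) else 0 := by
      intro t
      refine if_congr ?_ rfl rfl
      rw [← sub_eq_add_neg, sub_eq_zero]
      exact eq_comm
    simp only [this]
    rw [Finset.sum_ite_eq' Finset.univ r]
    rw [if_pos (Finset.mem_univ _), cj]
    push_cast
    rfl
  have e1 : ∀ x, A0 x = ((‖a x‖ ^ 4 : ℝ) : ℂ) := by
    intro x
    simp only [hA0]
    rw [cj]
    push_cast
    ring
  have e2 : ∀ x, (∑ p : ZMod m × ZMod m, bb f m p.1 x * (starRingEnd ℂ) (bb f m p.2 x)) =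
      ((‖F f x‖ ^ 2 : ℝ) : ℂ) := by
    intro x
    rw [← cj, ← bb_sum f m x, map_sum, Finset.sum_mul_sum, ← Fintype.sum_prod_type']
  have h := congrArg Complex.re k
  have l1 : ∀ x, A0 x * ∑ p : ZMod m × ZMod m, bb f m p.1 x * (starRingEnd ℂ) (bb f m p.2 x) =
      ((‖a x‖ ^ 4 * ‖F f x‖ ^ 2 : ℝ) : ℂ) := by
    intro x
    rw [e1, e2]
    push_cast
    rfl
  have l2 : ∀ x, (A0 x * ∑ p : ZMod m × ZMod m, if p.1 + -p.2 = 0 then
      bb f m p.1 x * (starRingEnd ℂ) (bb f m p.2 x) else 0) = ((‖a x‖ ^ 4 * sS f m x : ℝ) : ℂ) := by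
    intro x
    rw [e1, z]
    push_cast
    rfl
  rw [intervalIntegral.integral_congr (g := fun x => ((‖a x‖ ^ 4 * ‖F f x‖ ^ 2 : ℝ) : ℂ))
    (fun x _ => l1 x), intervalIntegral.integral_congr
    (g := fun x => ((‖a x‖ ^ 4 * sS f m x : ℝ) : ℂ)) (fun x _ => l2 x),
    intervalIntegral.integral_ofReal, intervalIntegral.integral_ofReal, Complex.ofReal_re,
    Complex.ofReal_re] at h
  exact h

theorem sS_cont (f : ℤ →₀ ℝ) (m : ℕ) [NeZero m] : Continuous (sS f m) := by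
  unfold sS
  exact continuous_finsetSum _ fun r _ => ((bb_tr f m r).1.norm.pow 2)

theorem sT_cont (f : ℤ →₀ ℝ) (m : ℕ) [NeZero m] : Continuous (sT f m) := by
  unfold sT
  exact continuous_finsetSum _ fun r _ => ((bb_tr f m r).1.norm.mul (bb_tr f m _).1.norm)

theorem sD_cont (f : ℤ →₀ ℝ) (m : ℕ) [NeZero m] : Continuous (sD f m) := by
  unfold sD
  refine continuous_finsetSum _ fun p _ => ?_
  by_cases h : p.1 ≠ p.2
  · simp only [if_pos h]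
    exact ((bb_tr f m _).1.norm.pow 2).mul ((bb_tr f m _).1.norm.pow 2)
  · simp only [if_neg h]
    exact continuous_const

theorem int3 (hg : ∀ n ∈ g.support, ((n : ℤ) : ZMod m) = 0) :
    ∫ x in (0:ℝ)..1, ‖F g x‖ ^ 2 * ((starRingEnd ℂ) (F g x) * F f x *
      ((starRingEnd ℂ) (F g x) * F f x)).re ≤ ∫ x in (0:ℝ)..1, ‖F g x‖ ^ 4 * sT f m x := by
  classical
  set a : ℝ → ℂ := F g with ha
  have ca : Cl m 0 a := F_cl hg
  have ta : Tr a := F_tr g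
  set A0 : ℝ → ℂ := fun x => (a x * (starRingEnd ℂ) (a x)) *
    ((starRingEnd ℂ) (a x) * (starRingEnd ℂ) (a x)) with hA0
  have c0 : Cl m 0 A0 := by
    have := ((ca.mul ca.conj).mul (ca.conj.mul ca.conj))
    simpa using this
  have t0 : Tr A0 := ((ta.mul ta.conj).mul (ta.conj.mul ta.conj))
  have k := keep (J := ZMod m × ZMod m) (fun p x => bb f m p.1 x * bb f m p.2 x)
    (fun p => p.1 + p.2) (fun p => (bb_cl f m p.1).mul (bb_cl f m p.2))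
    (fun p => (bb_tr f m p.1).mul (bb_tr f m p.2)) c0 t0
  have z : ∀ x, (∑ p : ZMod m × ZMod m, if p.1 + p.2 = 0 then
      bb f m p.1 x * bb f m p.2 x else 0) = ∑ r : ZMod m, bb f m r x * bb f m (-r) x := by
    intro x
    rw [Fintype.sum_prod_type]
    refine Finset.sum_congr rfl fun r _ => ?_
    have : ∀ t : ZMod m, (if r + t = 0 then bb f m r x * bb f m t x else 0) =
        if t = -r then bb f m r x * bb f m t x else 0 := by
      intro t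
      refine if_congr ?_ rfl rfl
      constructor
      · intro h
        exact (neg_eq_of_add_eq_zero_right h).symm
      · intro h
        rw [h, add_neg_cancel]
    simp only [this]
    rw [Finset.sum_ite_eq' Finset.univ (-r)]
    rw [if_pos (Finset.mem_univ _)]
  have e2 : ∀ x, (∑ p : ZMod m × ZMod m, bb f m p.1 x * bb f m p.2 x) = F f x * F f x := by
    intro x
    rw [← bb_sum f m x, Finset.sum_mul_sum, ← Fintype.sum_prod_type']
  have l1 : ∀ x, A0 x * ∑ p : ZMod m × ZMod m, bb f m p.1 x * bb f m p.2 x =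
      ((‖a x‖ ^ 2 : ℝ) : ℂ) * ((starRingEnd ℂ) (a x) * F f x * ((starRingEnd ℂ) (a x) * F f x)) := by
    intro x
    rw [e2]
    simp only [hA0]
    rw [cj]
    ring
  have l2 : ∀ x, (A0 x * ∑ p : ZMod m × ZMod m, if p.1 + p.2 = 0 then
      bb f m p.1 x * bb f m p.2 x else 0) = A0 x * ∑ r : ZMod m, bb f m r x * bb f m (-r) x := by
    intro x
    rw [z]
  rw [intervalIntegral.integral_congr (g := fun x => ((‖a x‖ ^ 2 : ℝ) : ℂ) *
      ((starRingEnd ℂ) (a x) * F f x * ((starRingEnd ℂ) (a x) * F f x)))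
    (fun x _ => l1 x), intervalIntegral.integral_congr
    (g := fun x => A0 x * ∑ r : ZMod m, bb f m r x * bb f m (-r) x) (fun x _ => l2 x)] at k
  have h := congrArg Complex.re k
  have cL : Continuous (fun x => ((‖a x‖ ^ 2 : ℝ) : ℂ) *
      ((starRingEnd ℂ) (a x) * F f x * ((starRingEnd ℂ) (a x) * F f x))) :=
    (Complex.continuous_ofReal.comp (ta.1.norm.pow 2)).mul
      ((ta.conj.1.mul (F_tr f).1).mul (ta.conj.1.mul (F_tr f).1))
  have cS : Continuous (fun x => ∑ r : ZMod m, bb f m r x * bb f m (-r) x) :=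
    continuous_finsetSum _ fun r _ => (bb_tr f m r).1.mul (bb_tr f m (-r)).1
  have cR : Continuous (fun x => A0 x * ∑ r : ZMod m, bb f m r x * bb f m (-r) x) :=
    t0.1.mul cS
  rw [re_int cL, re_int cR] at h
  have l3 : ∫ x in (0:ℝ)..1, ‖a x‖ ^ 2 * ((starRingEnd ℂ) (a x) * F f x *
      ((starRingEnd ℂ) (a x) * F f x)).re = ∫ x in (0:ℝ)..1, (((‖a x‖ ^ 2 : ℝ) : ℂ) *
      ((starRingEnd ℂ) (a x) * F f x * ((starRingEnd ℂ) (a x) * F f x))).re := by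
    refine intervalIntegral.integral_congr fun x _ => ?_
    show _ = (((‖a x‖ ^ 2 : ℝ) : ℂ) *
      ((starRingEnd ℂ) (a x) * F f x * ((starRingEnd ℂ) (a x) * F f x))).re
    rw [Complex.re_ofReal_mul]
  rw [l3, h]
  refine intervalIntegral.integral_mono_on zero_le_one
    ((Complex.continuous_re.comp cR).intervalIntegrable _ _)
    (((ta.1.norm.pow 4).mul (sT_cont f m)).intervalIntegrable _ _) fun x _ => ?_
  have h1 := Complex.re_le_norm (A0 x * ∑ r : ZMod m, bb f m r x * bb f m (-r) x)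
  have h2 : ‖A0 x‖ = ‖a x‖ ^ 4 := by
    simp only [hA0]
    rw [norm_mul, norm_mul, norm_mul, Complex.norm_conj]
    ring
  have h3 : ‖∑ r : ZMod m, bb f m r x * bb f m (-r) x‖ ≤ sT f m x := by
    refine (norm_sum_le _ _).trans (le_of_eq ?_)
    unfold sT
    refine Finset.sum_congr rfl fun r _ => norm_mul _ _
  calc _ ≤ ‖A0 x * ∑ r : ZMod m, bb f m r x * bb f m (-r) x‖ := h1
    _ = ‖a x‖ ^ 4 * ‖∑ r : ZMod m, bb f m r x * bb f m (-r) x‖ := by rw [norm_mul, h2]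
    _ ≤ _ := mul_le_mul_of_nonneg_left h3 (by positivity)

end

/-- pointwise bound for all the higher terms -/
theorem pt {A B s T D u v : ℝ} (hA : 0 ≤ A) (hB : 0 ≤ B) (hs : 0 ≤ s) (hT : 0 ≤ T) (hTs : T ≤ s)
    (hD : T ^ 2 ≤ 2 * D) (hu : 0 < u) (hv : 0 < v) :
    A ^ 4 * (9 * s + 6 * T) + 20 * (A ^ 3 * B ^ 3) + 15 * (A ^ 2 * B ^ 4) + 6 * (A * B ^ 5) ≤
      (1106 / 100 * (u ^ 4 * v ^ 2) * (2 / 3) + 20 * (u ^ 3 * v ^ 3) / 2 + 15 * (u ^ 2 * v ^ 4) / 3 +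
        (u * v ^ 5)) * (A ^ 6 / u ^ 6) +
      (20 * (u ^ 3 * v ^ 3) / 2 + 15 * (u ^ 2 * v ^ 4) * (2 / 3) + 5 * (u * v ^ 5)) *
        (B ^ 6 / v ^ 6) +
      (1106 / 100 * (u ^ 4 * v ^ 2) / 3) * ((s ^ 3 + 3 * (s * D)) / v ^ 6) := by
  obtain ⟨p, hp⟩ : ∃ p : ℝ, p = A / u := ⟨_, rfl⟩
  obtain ⟨q, hq⟩ : ∃ q : ℝ, q = B / v := ⟨_, rfl⟩
  obtain ⟨w, hw⟩ : ∃ w : ℝ, w = (9 * s + 6 * T) / (1106 / 100 * v ^ 2) := ⟨_, rfl⟩
  have p0 : 0 ≤ p := by rw [hp]; positivity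
  have q0 : 0 ≤ q := by rw [hq]; positivity
  have w0 : 0 ≤ w := by rw [hw]; positivity
  have eA : A = p * u := by rw [hp]; field_simp
  have eB : B = q * v := by rw [hq]; field_simp
  have eW : 9 * s + 6 * T = 1106 / 100 * v ^ 2 * w := by rw [hw]; field_simp
  have e6A : A ^ 6 / u ^ 6 = p ^ 6 := by rw [hp, div_pow]
  have e6B : B ^ 6 / v ^ 6 = q ^ 6 := by rw [hq, div_pow]
  have hL0 : 0 ≤ (s ^ 3 + 3 * (s * D)) := by
    have : 0 ≤ D := by nlinarith [sq_nonneg T]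
    positivity
  have hw3 : w ^ 3 ≤ (s ^ 3 + 3 * (s * D)) / v ^ 6 := by
    have h := second hs hT hTs hD
    rw [eW] at h
    have h2 : (1106 / 100 * v ^ 2 * w) ^ 3 = (1106 / 100) ^ 3 * (v ^ 6 * w ^ 3) := by ring
    rw [h2] at h
    rw [le_div_iff₀ (by positivity)]
    have h3 : 0 ≤ w ^ 3 * v ^ 6 := by positivity
    norm_num at h ⊢
    nlinarith
  have h1 : A ^ 4 * (9 * s + 6 * T) ≤ 1106 / 100 * (u ^ 4 * v ^ 2) *
      (((s ^ 3 + 3 * (s * D)) / v ^ 6 + 2 * p ^ 6) / 3) := by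
    have a2 := am2 w0 (sq_nonneg p)
    have : A ^ 4 * (9 * s + 6 * T) = 1106 / 100 * (u ^ 4 * v ^ 2) * (w * (p ^ 2) ^ 2) := by
      rw [eW, eA]; ring
    rw [this]
    refine mul_le_mul_of_nonneg_left ?_ (by positivity)
    have : (p ^ 2) ^ 3 = p ^ 6 := by ring
    rw [this] at a2
    linarith
  have h2 : A ^ 3 * B ^ 3 ≤ u ^ 3 * v ^ 3 * ((p ^ 6 + q ^ 6) / 2) := by
    have : A ^ 3 * B ^ 3 = u ^ 3 * v ^ 3 * (p ^ 3 * q ^ 3) := by rw [eA, eB]; ring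
    rw [this]
    exact mul_le_mul_of_nonneg_left am3 (by positivity)
  have h3 : A ^ 2 * B ^ 4 ≤ u ^ 2 * v ^ 4 * ((p ^ 6 + 2 * q ^ 6) / 3) := by
    have : A ^ 2 * B ^ 4 = u ^ 2 * v ^ 4 * (p ^ 2 * (q ^ 2) ^ 2) := by rw [eA, eB]; ring
    rw [this]
    refine mul_le_mul_of_nonneg_left ?_ (by positivity)
    have a2 := am2 (sq_nonneg p) (sq_nonneg q)
    have e1 : (p ^ 2) ^ 3 = p ^ 6 := by ring
    have e2 : (q ^ 2) ^ 3 = q ^ 6 := by ring
    rw [e1, e2] at a2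
    exact a2
  have h4 : A * B ^ 5 ≤ u * v ^ 5 * ((p ^ 6 + 5 * q ^ 6) / 6) := by
    have : A * B ^ 5 = u * v ^ 5 * (p * q ^ 5) := by rw [eA, eB]; ring
    rw [this]
    exact mul_le_mul_of_nonneg_left (am5 p0 q0) (by positivity)
  rw [e6A, e6B]
  generalize (s ^ 3 + 3 * (s * D)) / v ^ 6 = L at h1 ⊢
  generalize A ^ 4 * (9 * s + 6 * T) = x1 at h1 ⊢
  generalize A ^ 3 * B ^ 3 = x2 at h2 ⊢
  generalize A ^ 2 * B ^ 4 = x3 at h3 ⊢
  generalize A * B ^ 5 = x4 at h4 ⊢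
  generalize p ^ 6 = y1 at *
  generalize q ^ 6 = y2 at *
  linarith

/-- the sixth moment inequality -/
theorem comb {m : ℕ} [NeZero m] {g f : ℤ →₀ ℝ} (hg : ∀ n ∈ g.support, ((n : ℤ) : ZMod m) = 0)
    (hf0 : ∀ n, 0 ≤ f n) (hf : ∀ n ∈ f.support, ((n : ℤ) : ZMod m) ≠ 0)
    (hf2 : ∀ n ∈ f.support, ((n : ℤ) : ZMod m) ≠ - ((n : ℤ) : ZMod m))
    {u v : ℝ} (hu : 0 < u) (hv : 0 < v) (hug : M 3 g ≤ u ^ 6) (hvf : M 3 f ≤ v ^ 6) :
    M 3 (g + f) ≤ u ^ 6 + 1106 / 100 * (u ^ 4 * v ^ 2) + 20 * (u ^ 3 * v ^ 3) +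
      15 * (u ^ 2 * v ^ 4) + 6 * (u * v ^ 5) + v ^ 6 := by
  have ta : Tr (F g) := F_tr g
  have tb : Tr (F f) := F_tr f
  have na := ta.1.norm
  have nb := tb.1.norm
  have cS := sS_cont f m
  have cT := sT_cont f m
  have cD := sD_cont f m
  set X1 : ℝ → ℝ := fun x => ‖F g x‖ ^ 4 * ((starRingEnd ℂ) (F g x) * F f x).re with hX1
  set X2 : ℝ → ℝ := fun x => ‖F g x‖ ^ 4 * ‖F f x‖ ^ 2 with hX2
  set X3 : ℝ → ℝ := fun x => ‖F g x‖ ^ 2 * ((starRingEnd ℂ) (F g x) * F f x *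
      ((starRingEnd ℂ) (F g x) * F f x)).re with hX3
  set Y2 : ℝ → ℝ := fun x => ‖F g x‖ ^ 4 * sS f m x with hY2
  set Y3 : ℝ → ℝ := fun x => ‖F g x‖ ^ 4 * sT f m x with hY3
  set Z : ℝ → ℝ := fun x => ‖F g x‖ ^ 6 + 20 * (‖F g x‖ ^ 3 * ‖F f x‖ ^ 3) +
    15 * (‖F g x‖ ^ 2 * ‖F f x‖ ^ 4) + 6 * (‖F g x‖ * ‖F f x‖ ^ 5) + ‖F f x‖ ^ 6 with hZ
  set L : ℝ → ℝ := fun x => sS f m x ^ 3 + 3 * (sS f m x * sD f m x) with hL
  have cX1 : Continuous X1 := (na.pow 4).mul (Complex.continuous_re.comp (ta.conj.1.mul tb.1))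
  have cX2 : Continuous X2 := (na.pow 4).mul (nb.pow 2)
  have cX3 : Continuous X3 := (na.pow 2).mul (Complex.continuous_re.comp
    ((ta.conj.1.mul tb.1).mul (ta.conj.1.mul tb.1)))
  have cY2 : Continuous Y2 := (na.pow 4).mul cS
  have cY3 : Continuous Y3 := (na.pow 4).mul cT
  have cZ : Continuous Z := by
    refine ((((na.pow 6).add (continuous_const.mul ((na.pow 3).mul (nb.pow 3)))).add
      (continuous_const.mul ((na.pow 2).mul (nb.pow 4)))).add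
      (continuous_const.mul (na.mul (nb.pow 5)))).add (nb.pow 6)
  have cL : Continuous L := (cS.pow 3).add (continuous_const.mul (cS.mul cD))
  have i1 : ∫ x in (0:ℝ)..1, X1 x = 0 := int1 hg hf
  have i2 : ∫ x in (0:ℝ)..1, X2 x = ∫ x in (0:ℝ)..1, Y2 x := int2 hg
  have i3 : ∫ x in (0:ℝ)..1, X3 x ≤ ∫ x in (0:ℝ)..1, Y3 x := int3 hg
  have iL : ∫ x in (0:ℝ)..1, L x ≤ M 3 f := low hf0 m
  have I : ∀ {h : ℝ → ℝ}, Continuous h → IntervalIntegrable h MeasureTheory.volume 0 1 :=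
    fun h => h.intervalIntegrable _ _
  -- first step
  have s1 : M 3 (g + f) ≤ ∫ x in (0:ℝ)..1, (Z x + (6 * X1 x + (9 * X2 x + 6 * X3 x))) := by
    unfold M
    refine intervalIntegral.integral_mono_on zero_le_one ?_ ?_ fun x _ => ?_
    · exact I ((F_tr (g + f)).1.norm.pow _)
    · exact I (cZ.add ((continuous_const.mul cX1).add ((continuous_const.mul cX2).add
        (continuous_const.mul cX3))))
    · rw [F_add']
      have := point (F g x) (F f x)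
      simp only [hZ, hX1, hX2, hX3]
      norm_num at this ⊢
      linarith
  have s2 : ∫ x in (0:ℝ)..1, (Z x + (6 * X1 x + (9 * X2 x + 6 * X3 x))) =
      (∫ x in (0:ℝ)..1, Z x) + (6 * (∫ x in (0:ℝ)..1, X1 x) + (9 * (∫ x in (0:ℝ)..1, X2 x) +
        6 * ∫ x in (0:ℝ)..1, X3 x)) := by
    exact lin13 cZ cX1 cX2 cX3 6 9 6
  have s3 : (∫ x in (0:ℝ)..1, Z x) + (9 * (∫ x in (0:ℝ)..1, Y2 x) +
        6 * ∫ x in (0:ℝ)..1, Y3 x) = ∫ x in (0:ℝ)..1, (Z x + (9 * Y2 x + 6 * Y3 x)) := by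
    exact (lin12 cZ cY2 cY3 9 6).symm
  obtain ⟨c1, hc1⟩ : ∃ c : ℝ, c = (1106 / 100 * (u ^ 4 * v ^ 2) * (2 / 3) +
    20 * (u ^ 3 * v ^ 3) / 2 + 15 * (u ^ 2 * v ^ 4) / 3 + (u * v ^ 5)) := ⟨_, rfl⟩
  obtain ⟨c2, hc2⟩ : ∃ c : ℝ, c = (20 * (u ^ 3 * v ^ 3) / 2 + 15 * (u ^ 2 * v ^ 4) * (2 / 3) +
    5 * (u * v ^ 5)) := ⟨_, rfl⟩
  obtain ⟨c3, hc3⟩ : ∃ c : ℝ, c = (1106 / 100 * (u ^ 4 * v ^ 2) / 3) := ⟨_, rfl⟩
  have c10 : 0 ≤ c1 := by rw [hc1]; positivity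
  have c20 : 0 ≤ c2 := by rw [hc2]; positivity
  have c30 : 0 ≤ c3 := by rw [hc3]; positivity
  have s4 : ∫ x in (0:ℝ)..1, (Z x + (9 * Y2 x + 6 * Y3 x)) ≤ ∫ x in (0:ℝ)..1,
      ((1 + c1 / u ^ 6) * ‖F g x‖ ^ 6 + ((1 + c2 / v ^ 6) * ‖F f x‖ ^ 6 + c3 / v ^ 6 * L x)) := by
    refine intervalIntegral.integral_mono_on zero_le_one ?_ ?_ fun x _ => ?_
    · exact I (cZ.add ((continuous_const.mul cY2).add (continuous_const.mul cY3)))
    · exact I ((continuous_const.mul (na.pow 6)).add ((continuous_const.mul (nb.pow 6)).add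
        (continuous_const.mul cL)))
    · have h := pt (norm_nonneg (F g x)) (norm_nonneg (F f x)) (sS_nonneg f m x)
        (sT_nonneg f m x) (sT_le f m x) (sT_sq f m hf2 x) hu hv
      rw [← hc1, ← hc2, ← hc3] at h
      simp only [hZ, hY2, hY3, hL]
      have e1 : (1 + c1 / u ^ 6) * ‖F g x‖ ^ 6 = ‖F g x‖ ^ 6 + c1 * (‖F g x‖ ^ 6 / u ^ 6) := by
        ring
      have e2 : (1 + c2 / v ^ 6) * ‖F f x‖ ^ 6 = ‖F f x‖ ^ 6 + c2 * (‖F f x‖ ^ 6 / v ^ 6) := by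
        ring
      have e3 : c3 / v ^ 6 * (sS f m x ^ 3 + 3 * (sS f m x * sD f m x)) =
        c3 * ((sS f m x ^ 3 + 3 * (sS f m x * sD f m x)) / v ^ 6) := by ring
      rw [e1, e2, e3]
      linarith
  have s5 : ∫ x in (0:ℝ)..1,
      ((1 + c1 / u ^ 6) * ‖F g x‖ ^ 6 + ((1 + c2 / v ^ 6) * ‖F f x‖ ^ 6 + c3 / v ^ 6 * L x)) =
      (1 + c1 / u ^ 6) * M 3 g + ((1 + c2 / v ^ 6) * M 3 f + c3 / v ^ 6 * ∫ x in (0:ℝ)..1, L x) := by
    exact lin3 (na.pow 6) (nb.pow 6) cL _ _ _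
  have b1 : (1 + c1 / u ^ 6) * M 3 g ≤ (1 + c1 / u ^ 6) * u ^ 6 :=
    mul_le_mul_of_nonneg_left hug (by positivity)
  have b2 : (1 + c2 / v ^ 6) * M 3 f ≤ (1 + c2 / v ^ 6) * v ^ 6 :=
    mul_le_mul_of_nonneg_left hvf (by positivity)
  have b3 : c3 / v ^ 6 * ∫ x in (0:ℝ)..1, L x ≤ c3 / v ^ 6 * v ^ 6 :=
    mul_le_mul_of_nonneg_left (iL.trans hvf) (by positivity)
  have d1 : (1 + c1 / u ^ 6) * u ^ 6 = u ^ 6 + c1 := by field_simp
  have d2 : (1 + c2 / v ^ 6) * v ^ 6 = v ^ 6 + c2 := by field_simp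
  have d3 : c3 / v ^ 6 * v ^ 6 = c3 := by field_simp
  have f1 : c1 + c2 + c3 = 1106 / 100 * (u ^ 4 * v ^ 2) + 20 * (u ^ 3 * v ^ 3) +
      15 * (u ^ 2 * v ^ 4) + 6 * (u * v ^ 5) := by rw [hc1, hc2, hc3]; ring
  linarith

end Pool.Agent.Helper318SP3
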