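import Pool.Agent.Helper318SP3.Low2

/-!
The improved sixth moment inequality for `g + f`.
-/

set_option autoImplicit false

namespace Pool.Agent.Helper318SP3

open Finset Pool.Agent.H384R3.SPk Pool.Agent.H384R3.SPk.C

theorem real_ineq2 {A B c : ℝ} (hA : 0 ≤ A) (hB : 0 ≤ B) (h1 : c ≤ A * B)
    (h2 : c ^ 2 ≤ (A * B) ^ 2) :
    (A ^ 2 + B ^ 2 + 2 * c) ^ 3 ≤ A ^ 6 + 6 * (A ^ 4 * c) + 9 * (A ^ 4 * B ^ 2) +
      6 * (A ^ 2 * (2 * c ^ 2 - A ^ 2 * B ^ 2)) +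
      (18 * (A ^ 2 * B ^ 2 * c) + 2 * (4 * c ^ 3 - 3 * (A ^ 2 * B ^ 2 * c))) +
      15 * (A ^ 2 * B ^ 4) + 6 * (A * B ^ 5) + B ^ 6 := by
  have d1 : 0 ≤ A * B - c := by linarith
  have d2 : 0 ≤ (A * B) ^ 2 - c ^ 2 := by linarith
  have hAB : 0 ≤ A * B := mul_nonneg hA hB
  have e : A ^ 6 + 6 * (A ^ 4 * c) + 9 * (A ^ 4 * B ^ 2) +
      6 * (A ^ 2 * (2 * c ^ 2 - A ^ 2 * B ^ 2)) +
      (18 * (A ^ 2 * B ^ 2 * c) + 2 * (4 * c ^ 3 - 3 * (A ^ 2 * B ^ 2 * c))) +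
      15 * (A ^ 2 * B ^ 4) + 6 * (A * B ^ 5) + B ^ 6 - (A ^ 2 + B ^ 2 + 2 * c) ^ 3 =
      12 * B ^ 2 * ((A * B) ^ 2 - c ^ 2) + 6 * B ^ 4 * (A * B - c) := by ring
  have : 0 ≤ 12 * B ^ 2 * ((A * B) ^ 2 - c ^ 2) + 6 * B ^ 4 * (A * B - c) := by positivity
  linarith

/-- the pointwise inequality with exact third order terms -/
theorem point2 (a b : ℂ) :
    ‖a + b‖ ^ 6 ≤ ‖a‖ ^ 6 + 6 * (‖a‖ ^ 4 * ((starRingEnd ℂ) a * b).re) +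
      9 * (‖a‖ ^ 4 * ‖b‖ ^ 2) + 6 * (‖a‖ ^ 2 * ((starRingEnd ℂ) a * b * ((starRingEnd ℂ) a * b)).re) +
      (18 * (‖a‖ ^ 2 * (‖b‖ ^ 2 * ((starRingEnd ℂ) a * b).re)) +
        2 * (((starRingEnd ℂ) a * b) ^ 3).re) + 15 * (‖a‖ ^ 2 * ‖b‖ ^ 4) + 6 * (‖a‖ * ‖b‖ ^ 5) +
      ‖b‖ ^ 6 := by
  set z : ℂ := (starRingEnd ℂ) a * b with hz
  have hn : ‖z‖ = ‖a‖ * ‖b‖ := by rw [hz, norm_mul, Complex.norm_conj]
  have h1 : z.re ≤ ‖a‖ * ‖b‖ := by rw [← hn]; exact Complex.re_le_norm z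
  have h2 : z.re ^ 2 ≤ (‖a‖ * ‖b‖) ^ 2 := by
    rw [← hn]
    have := Complex.abs_re_le_norm z
    rw [← sq_abs]
    exact pow_le_pow_left₀ (abs_nonneg _) this 2
  have h4 : z.re ^ 2 + z.im ^ 2 = (‖a‖ * ‖b‖) ^ 2 := by
    rw [← hn, ← Complex.normSq_eq_norm_sq, Complex.normSq_apply]; ring
  have h3 : (z * z).re = 2 * z.re ^ 2 - ‖a‖ ^ 2 * ‖b‖ ^ 2 := by
    rw [Complex.mul_re]
    nlinarith
  have h33 : (z ^ 3).re = 4 * z.re ^ 3 - 3 * (‖a‖ ^ 2 * ‖b‖ ^ 2 * z.re) := by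
    have e1 : z ^ 3 = z * z * z := by ring
    have e2 : (‖a‖ * ‖b‖) ^ 2 = ‖a‖ ^ 2 * ‖b‖ ^ 2 := by ring
    rw [e1, Complex.mul_re (z * z) z, Complex.mul_re z z, Complex.mul_im z z, ← e2, ← h4]
    ring
  have h5 : ‖a + b‖ ^ 2 = ‖a‖ ^ 2 + ‖b‖ ^ 2 + 2 * z.re := by
    rw [← Complex.normSq_eq_norm_sq, ← Complex.normSq_eq_norm_sq, ← Complex.normSq_eq_norm_sq,
      Complex.normSq_add, hz]
    have : (a * (starRingEnd ℂ) b).re = ((starRingEnd ℂ) a * b).re := by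
      simp only [Complex.mul_re, Complex.conj_re, Complex.conj_im]
      ring
    rw [this]
  have h6 : ‖a + b‖ ^ 6 = (‖a‖ ^ 2 + ‖b‖ ^ 2 + 2 * z.re) ^ 3 := by
    rw [← h5]; ring
  rw [h6, h3, h33]
  have := real_ineq2 (norm_nonneg a) (norm_nonneg b) h1 h2
  have e : 18 * (‖a‖ ^ 2 * (‖b‖ ^ 2 * z.re)) = 18 * (‖a‖ ^ 2 * ‖b‖ ^ 2 * z.re) := by ring
  rw [e]
  exact this

section

variable {m : ℕ} [NeZero m] {g f : ℤ →₀ ℝ}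

theorem int4 (hg : ∀ n ∈ g.support, ((n : ℤ) : ZMod m) = 0) :
    ∫ x in (0:ℝ)..1, ‖F g x‖ ^ 2 * (‖F f x‖ ^ 2 * ((starRingEnd ℂ) (F g x) * F f x).re) ≤
      ∫ x in (0:ℝ)..1, ‖F g x‖ ^ 3 * ‖c0 f m x‖ := by
  classical
  set a : ℝ → ℂ := F g with ha
  have ca : Cl m 0 a := F_cl hg
  have ta : Tr a := F_tr g
  have tb : Tr (F f) := F_tr f
  set A0 : ℝ → ℂ := fun x => (a x * (starRingEnd ℂ) (a x)) * (starRingEnd ℂ) (a x) with hA0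
  have cA0 : Cl m 0 A0 := by
    have := ((ca.mul ca.conj).mul ca.conj)
    simpa using this
  have t0 : Tr A0 := ((ta.mul ta.conj).mul ta.conj)
  have k := keep (J := ZMod m × ZMod m × ZMod m) (fun τ x => t3 f m τ x)
    (fun τ => τ.1 + τ.2.1 + -τ.2.2)
    (fun τ => ((bb_cl f m τ.1).mul (bb_cl f m τ.2.1)).mul (bb_cl f m τ.2.2).conj)
    (fun τ => ((bb_tr f m τ.1).mul (bb_tr f m τ.2.1)).mul (bb_tr f m τ.2.2).conj) cA0 t0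
  have e2 : ∀ x, (∑ τ : ZMod m × ZMod m × ZMod m, t3 f m τ x) =
      F f x * F f x * (starRingEnd ℂ) (F f x) := by
    intro x
    unfold t3
    rw [triple (fun r => bb f m r x) (fun r => bb f m r x) (fun r => (starRingEnd ℂ) (bb f m r x)),
      ← map_sum, bb_sum]
  have l1 : ∀ x, A0 x * ∑ τ : ZMod m × ZMod m × ZMod m, t3 f m τ x =
      ((‖a x‖ ^ 2 : ℝ) : ℂ) * (((‖F f x‖ ^ 2 : ℝ) : ℂ) * ((starRingEnd ℂ) (a x) * F f x)) := by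
    intro x
    rw [e2]
    simp only [hA0]
    rw [cj, ← cj (F f x)]
    ring
  have l2 : ∀ x, (A0 x * ∑ τ : ZMod m × ZMod m × ZMod m, if τ.1 + τ.2.1 + -τ.2.2 = 0 then
      t3 f m τ x else 0) = A0 x * c0 f m x := fun x => rfl
  rw [intervalIntegral.integral_congr (g := fun x => ((‖a x‖ ^ 2 : ℝ) : ℂ) *
      (((‖F f x‖ ^ 2 : ℝ) : ℂ) * ((starRingEnd ℂ) (a x) * F f x)))
    (fun x _ => l1 x), intervalIntegral.integral_congr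
    (g := fun x => A0 x * c0 f m x) (fun x _ => l2 x)] at k
  have h := congrArg Complex.re k
  have cL : Continuous (fun x => ((‖a x‖ ^ 2 : ℝ) : ℂ) *
      (((‖F f x‖ ^ 2 : ℝ) : ℂ) * ((starRingEnd ℂ) (a x) * F f x))) :=
    (Complex.continuous_ofReal.comp (ta.1.norm.pow 2)).mul
      ((Complex.continuous_ofReal.comp (tb.1.norm.pow 2)).mul (ta.conj.1.mul tb.1))
  have cR : Continuous (fun x => A0 x * c0 f m x) := t0.1.mul (c0_cont f m)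
  rw [re_int cL, re_int cR] at h
  have l3 : ∫ x in (0:ℝ)..1, ‖a x‖ ^ 2 * (‖F f x‖ ^ 2 * ((starRingEnd ℂ) (a x) * F f x).re) =
      ∫ x in (0:ℝ)..1, (((‖a x‖ ^ 2 : ℝ) : ℂ) *
        (((‖F f x‖ ^ 2 : ℝ) : ℂ) * ((starRingEnd ℂ) (a x) * F f x))).re := by
    refine intervalIntegral.integral_congr fun x _ => ?_
    show _ = (((‖a x‖ ^ 2 : ℝ) : ℂ) *
        (((‖F f x‖ ^ 2 : ℝ) : ℂ) * ((starRingEnd ℂ) (a x) * F f x))).re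
    rw [Complex.re_ofReal_mul, Complex.re_ofReal_mul]
  rw [l3, h]
  refine intervalIntegral.integral_mono_on zero_le_one
    ((Complex.continuous_re.comp cR).intervalIntegrable _ _)
    (((ta.1.norm.pow 3).mul (c0_cont f m).norm).intervalIntegrable _ _) fun x _ => ?_
  have h1 := Complex.re_le_norm (A0 x * c0 f m x)
  have h2 : ‖A0 x‖ = ‖a x‖ ^ 3 := by
    simp only [hA0]
    rw [norm_mul, norm_mul, Complex.norm_conj]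
    ring
  calc _ ≤ ‖A0 x * c0 f m x‖ := h1
    _ = ‖a x‖ ^ 3 * ‖c0 f m x‖ := by rw [norm_mul, h2]

end

/-- pointwise bound for all the higher terms -/
theorem pt2 {A B s T L q u v : ℝ} (hA : 0 ≤ A) (hB : 0 ≤ B) (hs : 0 ≤ s) (hT : 0 ≤ T) (hTs : T ≤ s)
    (hL : s ^ 3 + 3 / 2 * (s * T ^ 2) ≤ L) (hu : 0 < u) (hv : 0 < v) :
    A ^ 4 * (9 * s + 6 * T) + 18 * (A ^ 3 * q) + 2 * (A ^ 3 * B ^ 3) + 15 * (A ^ 2 * B ^ 4) +
      6 * (A * B ^ 5) ≤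
      (1106 / 100 * (u ^ 4 * v ^ 2) * (2 / 3) + 22 * (u ^ 2 * v ^ 4) + 2 * (u ^ 3 * v ^ 3) / 2 +
        15 * (u ^ 2 * v ^ 4) / 3 + (u * v ^ 5)) * (A ^ 6 / u ^ 6) +
      (2 * (u ^ 3 * v ^ 3) / 2 + 15 * (u ^ 2 * v ^ 4) * (2 / 3) + 5 * (u * v ^ 5)) *
        (B ^ 6 / v ^ 6) +
      (1106 / 100 * (u ^ 4 * v ^ 2) / 3) * ((q ^ 2 + L) / v ^ 6) := by
  obtain ⟨p, hp⟩ : ∃ p : ℝ, p = A / u := ⟨_, rfl⟩
  obtain ⟨r, hr⟩ : ∃ r : ℝ, r = B / v := ⟨_, rfl⟩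
  obtain ⟨k, hk⟩ : ∃ k : ℝ, k = q / v ^ 3 := ⟨_, rfl⟩
  obtain ⟨w, hw⟩ : ∃ w : ℝ, w = (9 * s + 6 * T) / (1106 / 100 * v ^ 2) := ⟨_, rfl⟩
  have p0 : 0 ≤ p := by rw [hp]; positivity
  have r0 : 0 ≤ r := by rw [hr]; positivity
  have w0 : 0 ≤ w := by rw [hw]; positivity
  have eA : A = p * u := by rw [hp]; field_simp
  have eB : B = r * v := by rw [hr]; field_simp
  have eq : q = k * v ^ 3 := by rw [hk]; field_simp
  have eW : 9 * s + 6 * T = 1106 / 100 * v ^ 2 * w := by rw [hw]; field_simp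
  have e6A : A ^ 6 / u ^ 6 = p ^ 6 := by rw [hp, div_pow]
  have e6B : B ^ 6 / v ^ 6 = r ^ 6 := by rw [hr, div_pow]
  have eQ : (q ^ 2 + L) / v ^ 6 = k ^ 2 + L / v ^ 6 := by
    rw [eq, add_div]
    congr 1
    field_simp
  have hw3 : w ^ 3 ≤ L / v ^ 6 := by
    have h := second hs hT hTs (D := T ^ 2 / 2) (by linarith)
    rw [eW] at h
    have h2 : (1106 / 100 * v ^ 2 * w) ^ 3 = (1106 / 100) ^ 3 * (v ^ 6 * w ^ 3) := by ring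
    rw [h2] at h
    rw [le_div_iff₀ (by positivity)]
    have h3 : 0 ≤ w ^ 3 * v ^ 6 := by positivity
    norm_num at h ⊢
    nlinarith
  have h1 : A ^ 4 * (9 * s + 6 * T) ≤ 1106 / 100 * (u ^ 4 * v ^ 2) *
      ((L / v ^ 6 + 2 * p ^ 6) / 3) := by
    have a2 := am2 w0 (sq_nonneg p)
    have : A ^ 4 * (9 * s + 6 * T) = 1106 / 100 * (u ^ 4 * v ^ 2) * (w * (p ^ 2) ^ 2) := by
      rw [eW, eA]; ring
    rw [this]
    refine mul_le_mul_of_nonneg_left ?_ (by positivity)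
    have : (p ^ 2) ^ 3 = p ^ 6 := by ring
    rw [this] at a2
    linarith
  have h2 : A ^ 3 * B ^ 3 ≤ u ^ 3 * v ^ 3 * ((p ^ 6 + r ^ 6) / 2) := by
    have : A ^ 3 * B ^ 3 = u ^ 3 * v ^ 3 * (p ^ 3 * r ^ 3) := by rw [eA, eB]; ring
    rw [this]
    exact mul_le_mul_of_nonneg_left am3 (by positivity)
  have h3 : A ^ 2 * B ^ 4 ≤ u ^ 2 * v ^ 4 * ((p ^ 6 + 2 * r ^ 6) / 3) := by
    have : A ^ 2 * B ^ 4 = u ^ 2 * v ^ 4 * (p ^ 2 * (r ^ 2) ^ 2) := by rw [eA, eB]; ring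
    rw [this]
    refine mul_le_mul_of_nonneg_left ?_ (by positivity)
    have a2 := am2 (sq_nonneg p) (sq_nonneg r)
    have e1 : (p ^ 2) ^ 3 = p ^ 6 := by ring
    have e2 : (r ^ 2) ^ 3 = r ^ 6 := by ring
    rw [e1, e2] at a2
    exact a2
  have h4 : A * B ^ 5 ≤ u * v ^ 5 * ((p ^ 6 + 5 * r ^ 6) / 6) := by
    have : A * B ^ 5 = u * v ^ 5 * (p * r ^ 5) := by rw [eA, eB]; ring
    rw [this]
    exact mul_le_mul_of_nonneg_left (am5 p0 r0) (by positivity)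
  have h5 : 18 * (A ^ 3 * q) ≤ 22 * (u ^ 2 * v ^ 4) * p ^ 6 +
      1106 / 100 * (u ^ 4 * v ^ 2) / 3 * k ^ 2 := by
    have e1 : 18 * (A ^ 3 * q) = 18 * ((u * v ^ 2 * p ^ 3) * (u ^ 2 * v * k)) := by
      rw [eA, eq]; ring
    rw [e1]
    nlinarith [sq_nonneg (u * v ^ 2 * p ^ 3 * 2457 - u ^ 2 * v * k * 1000),
      sq_nonneg (u ^ 2 * v * k), sq_nonneg (u * v ^ 2 * p ^ 3),
      sq_nonneg (u * v ^ 2 * p ^ 3 * 22 - u ^ 2 * v * k * 9)]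
  rw [e6A, e6B, eQ]
  generalize L / v ^ 6 = L' at h1 ⊢
  generalize A ^ 4 * (9 * s + 6 * T) = x1 at h1 ⊢
  generalize A ^ 3 * B ^ 3 = x2 at h2 ⊢
  generalize A ^ 2 * B ^ 4 = x3 at h3 ⊢
  generalize A * B ^ 5 = x4 at h4 ⊢
  generalize A ^ 3 * q = x5 at h5 ⊢
  generalize p ^ 6 = y1 at *
  generalize r ^ 6 = y2 at *
  generalize k ^ 2 = y3 at *
  linarith

/-- the improved sixth moment inequality -/
theorem comb2 {m : ℕ} [NeZero m] {g f : ℤ →₀ ℝ} (hg : ∀ n ∈ g.support, ((n : ℤ) : ZMod m) = 0)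
    (hf0 : ∀ n, 0 ≤ f n) (hadm : ∀ n ∈ f.support, Adm ((n : ℤ) : ZMod m))
    {u v : ℝ} (hu : 0 < u) (hv : 0 < v) (hug : M 3 g ≤ u ^ 6) (hvf : M 3 f ≤ v ^ 6) :
    M 3 (g + f) ≤ u ^ 6 + 1106 / 100 * (u ^ 4 * v ^ 2) + 2 * (u ^ 3 * v ^ 3) +
      37 * (u ^ 2 * v ^ 4) + 6 * (u * v ^ 5) + v ^ 6 := by
  have hf : ∀ n ∈ f.support, ((n : ℤ) : ZMod m) ≠ 0 := fun n hn => (hadm n hn).1
  have ta : Tr (F g) := F_tr g
  have tb : Tr (F f) := F_tr f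
  have na := ta.1.norm
  have nb := tb.1.norm
  have cS := sS_cont f m
  have cT := sT_cont f m
  have cC := (c0_cont f m).norm
  have cL' := sL_cont f m
  have zc : Continuous (fun x => (starRingEnd ℂ) (F g x) * F f x) := ta.conj.1.mul tb.1
  set X1 : ℝ → ℝ := fun x => ‖F g x‖ ^ 4 * ((starRingEnd ℂ) (F g x) * F f x).re with hX1
  set X2 : ℝ → ℝ := fun x => ‖F g x‖ ^ 4 * ‖F f x‖ ^ 2 with hX2
  set X3 : ℝ → ℝ := fun x => ‖F g x‖ ^ 2 * ((starRingEnd ℂ) (F g x) * F f x *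
      ((starRingEnd ℂ) (F g x) * F f x)).re with hX3
  set X4 : ℝ → ℝ := fun x => ‖F g x‖ ^ 2 * (‖F f x‖ ^ 2 * ((starRingEnd ℂ) (F g x) * F f x).re)
    with hX4
  set Y2 : ℝ → ℝ := fun x => ‖F g x‖ ^ 4 * sS f m x with hY2
  set Y3 : ℝ → ℝ := fun x => ‖F g x‖ ^ 4 * sT f m x with hY3
  set Y4 : ℝ → ℝ := fun x => ‖F g x‖ ^ 3 * ‖c0 f m x‖ with hY4
  set Z : ℝ → ℝ := fun x => ‖F g x‖ ^ 6 + 2 * (‖F g x‖ ^ 3 * ‖F f x‖ ^ 3) +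
    15 * (‖F g x‖ ^ 2 * ‖F f x‖ ^ 4) + 6 * (‖F g x‖ * ‖F f x‖ ^ 5) + ‖F f x‖ ^ 6 with hZ
  set L : ℝ → ℝ := fun x => ‖c0 f m x‖ ^ 2 + sL f m x with hL
  have cX1 : Continuous X1 := (na.pow 4).mul (Complex.continuous_re.comp zc)
  have cX2 : Continuous X2 := (na.pow 4).mul (nb.pow 2)
  have cX3 : Continuous X3 := (na.pow 2).mul (Complex.continuous_re.comp (zc.mul zc))
  have cX4 : Continuous X4 := (na.pow 2).mul ((nb.pow 2).mul (Complex.continuous_re.comp zc))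
  have cY2 : Continuous Y2 := (na.pow 4).mul cS
  have cY3 : Continuous Y3 := (na.pow 4).mul cT
  have cY4 : Continuous Y4 := (na.pow 3).mul cC
  have cZ : Continuous Z := by
    refine ((((na.pow 6).add (continuous_const.mul ((na.pow 3).mul (nb.pow 3)))).add
      (continuous_const.mul ((na.pow 2).mul (nb.pow 4)))).add
      (continuous_const.mul (na.mul (nb.pow 5)))).add (nb.pow 6)
  have cL : Continuous L := (cC.pow 2).add cL'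
  have i1 : ∫ x in (0:ℝ)..1, X1 x = 0 := int1 hg hf
  have i2 : ∫ x in (0:ℝ)..1, X2 x = ∫ x in (0:ℝ)..1, Y2 x := int2 hg
  have i3 : ∫ x in (0:ℝ)..1, X3 x ≤ ∫ x in (0:ℝ)..1, Y3 x := int3 hg
  have i4 : ∫ x in (0:ℝ)..1, X4 x ≤ ∫ x in (0:ℝ)..1, Y4 x := int4 hg
  have iL : ∫ x in (0:ℝ)..1, L x ≤ M 3 f := low2 hf0 m hadm
  have I : ∀ {h : ℝ → ℝ}, Continuous h → IntervalIntegrable h MeasureTheory.volume 0 1 :=
    fun h => h.intervalIntegrable _ _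
  have cU : Continuous (fun x => 1 * Z x + 6 * X1 x) :=
    (continuous_const.mul cZ).add (continuous_const.mul cX1)
  have s1 : M 3 (g + f) ≤ ∫ x in (0:ℝ)..1, ((1 * Z x + 6 * X1 x) + (9 * X2 x + (6 * X3 x +
      18 * X4 x))) := by
    unfold M
    refine intervalIntegral.integral_mono_on zero_le_one ?_ ?_ fun x _ => ?_
    · exact I ((F_tr (g + f)).1.norm.pow _)
    · exact I (cU.add ((continuous_const.mul cX2).add ((continuous_const.mul cX3).add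
        (continuous_const.mul cX4))))
    · rw [F_add']
      have h := point2 (F g x) (F f x)
      have hz : (((starRingEnd ℂ) (F g x) * F f x) ^ 3).re ≤ ‖F g x‖ ^ 3 * ‖F f x‖ ^ 3 := by
        refine (Complex.re_le_norm _).trans (le_of_eq ?_)
        rw [norm_pow, norm_mul, Complex.norm_conj]
        ring
      simp only [hZ, hX1, hX2, hX3, hX4]
      norm_num at h ⊢
      linarith
  have s2 : ∫ x in (0:ℝ)..1, ((1 * Z x + 6 * X1 x) + (9 * X2 x + (6 * X3 x + 18 * X4 x))) =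
      (1 * (∫ x in (0:ℝ)..1, Z x) + 6 * (∫ x in (0:ℝ)..1, X1 x)) +
        (9 * (∫ x in (0:ℝ)..1, X2 x) + (6 * (∫ x in (0:ℝ)..1, X3 x) +
        18 * ∫ x in (0:ℝ)..1, X4 x)) := by
    rw [← lin2 cZ cX1]
    exact lin13 cU cX2 cX3 cX4 9 6 18
  have s3 : (∫ x in (0:ℝ)..1, Z x) + (9 * (∫ x in (0:ℝ)..1, Y2 x) +
        (6 * (∫ x in (0:ℝ)..1, Y3 x) + 18 * ∫ x in (0:ℝ)..1, Y4 x)) =
        ∫ x in (0:ℝ)..1, (Z x + (9 * Y2 x + (6 * Y3 x + 18 * Y4 x))) :=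
    (lin13 cZ cY2 cY3 cY4 9 6 18).symm
  obtain ⟨c1, hc1⟩ : ∃ c : ℝ, c = (1106 / 100 * (u ^ 4 * v ^ 2) * (2 / 3) +
    22 * (u ^ 2 * v ^ 4) + 2 * (u ^ 3 * v ^ 3) / 2 + 15 * (u ^ 2 * v ^ 4) / 3 + (u * v ^ 5)) :=
    ⟨_, rfl⟩
  obtain ⟨c2, hc2⟩ : ∃ c : ℝ, c = (2 * (u ^ 3 * v ^ 3) / 2 + 15 * (u ^ 2 * v ^ 4) * (2 / 3) +
    5 * (u * v ^ 5)) := ⟨_, rfl⟩
  obtain ⟨c3, hc3⟩ : ∃ c : ℝ, c = (1106 / 100 * (u ^ 4 * v ^ 2) / 3) := ⟨_, rfl⟩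
  have c10 : 0 ≤ c1 := by rw [hc1]; positivity
  have c20 : 0 ≤ c2 := by rw [hc2]; positivity
  have c30 : 0 ≤ c3 := by rw [hc3]; positivity
  have s4 : ∫ x in (0:ℝ)..1, (Z x + (9 * Y2 x + (6 * Y3 x + 18 * Y4 x))) ≤ ∫ x in (0:ℝ)..1,
      ((1 + c1 / u ^ 6) * ‖F g x‖ ^ 6 + ((1 + c2 / v ^ 6) * ‖F f x‖ ^ 6 + c3 / v ^ 6 * L x)) := by
    refine intervalIntegral.integral_mono_on zero_le_one ?_ ?_ fun x _ => ?_
    · exact I (cZ.add ((continuous_const.mul cY2).add ((continuous_const.mul cY3).add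
        (continuous_const.mul cY4))))
    · exact I ((continuous_const.mul (na.pow 6)).add ((continuous_const.mul (nb.pow 6)).add
        (continuous_const.mul cL)))
    · have h := pt2 (q := ‖c0 f m x‖) (norm_nonneg (F g x)) (norm_nonneg (F f x))
        (sS_nonneg f m x) (sT_nonneg f m x) (sT_le f m x) (sL_ge m hadm x) hu hv
      rw [← hc1, ← hc2, ← hc3] at h
      simp only [hZ, hY2, hY3, hY4, hL]
      have e1 : (1 + c1 / u ^ 6) * ‖F g x‖ ^ 6 = ‖F g x‖ ^ 6 + c1 * (‖F g x‖ ^ 6 / u ^ 6) := by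
        ring
      have e2 : (1 + c2 / v ^ 6) * ‖F f x‖ ^ 6 = ‖F f x‖ ^ 6 + c2 * (‖F f x‖ ^ 6 / v ^ 6) := by
        ring
      have e3 : c3 / v ^ 6 * (‖c0 f m x‖ ^ 2 + sL f m x) =
        c3 * ((‖c0 f m x‖ ^ 2 + sL f m x) / v ^ 6) := by ring
      rw [e1, e2, e3]
      linarith
  have s5 : ∫ x in (0:ℝ)..1,
      ((1 + c1 / u ^ 6) * ‖F g x‖ ^ 6 + ((1 + c2 / v ^ 6) * ‖F f x‖ ^ 6 + c3 / v ^ 6 * L x)) =
      (1 + c1 / u ^ 6) * M 3 g + ((1 + c2 / v ^ 6) * M 3 f + c3 / v ^ 6 * ∫ x in (0:ℝ)..1, L x) := by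
    exact lin3 (na.pow 6) (nb.pow 6) cL _ _ _
  have b1 : (1 + c1 / u ^ 6) * M 3 g ≤ (1 + c1 / u ^ 6) * u ^ 6 :=
    mul_le_mul_of_nonneg_left hug (by positivity)
  have b2 : (1 + c2 / v ^ 6) * M 3 f ≤ (1 + c2 / v ^ 6) * v ^ 6 :=
    mul_le_mul_of_nonneg_left hvf (by positivity)
  have b3 : c3 / v ^ 6 * ∫ x in (0:ℝ)..1, L x ≤ c3 / v ^ 6 * v ^ 6 :=
    mul_le_mul_of_nonneg_left (iL.trans hvf) (by positivity)
  have d1 : (1 + c1 / u ^ 6) * u ^ 6 = u ^ 6 + c1 := by field_simp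
  have d2 : (1 + c2 / v ^ 6) * v ^ 6 = v ^ 6 + c2 := by field_simp
  have d3 : c3 / v ^ 6 * v ^ 6 = c3 := by field_simp
  have f1 : c1 + c2 + c3 = 1106 / 100 * (u ^ 4 * v ^ 2) + 2 * (u ^ 3 * v ^ 3) +
      37 * (u ^ 2 * v ^ 4) + 6 * (u * v ^ 5) := by rw [hc1, hc2, hc3]; ring
  linarith

end Pool.Agent.Helper318SP3
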