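import Mathlib
import Pool.Agent.H384R3.SPk.TaskC

/-!
Trigonometric polynomials with nonnegative coefficients, and their behaviour under the shift by
`1 / m`.
-/

set_option autoImplicit false

namespace Pool.Agent.Helper318SP3

open Finset Pool.Agent.H384R3.SPk Pool.Agent.H384R3.SPk.C

/-- trigonometric polynomials with nonnegative coefficients -/
def Pos (Φ : ℝ → ℂ) : Prop :=
  ∃ (ι : Type) (_ : Fintype ι) (k : ι → ℤ) (w : ι → ℝ), (∀ i, 0 ≤ w i) ∧
    ∀ x, Φ x = ∑ i, (w i : ℂ) * e (k i) x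

theorem Pos.add {Φ Ψ : ℝ → ℂ} (h : Pos Φ) (h' : Pos Ψ) : Pos (fun x => Φ x + Ψ x) := by
  obtain ⟨ι, _, k, w, hw, hΦ⟩ := h
  obtain ⟨ι', _, k', w', hw', hΨ⟩ := h'
  refine ⟨ι ⊕ ι', inferInstance, Sum.elim k k', Sum.elim w w', ?_, ?_⟩
  · rintro (i | i)
    · exact hw i
    · exact hw' i
  · intro x
    show Φ x + Ψ x = _
    rw [hΦ, hΨ, Fintype.sum_sum_type]
    rfl

theorem Pos.mul {Φ Ψ : ℝ → ℂ} (h : Pos Φ) (h' : Pos Ψ) : Pos (fun x => Φ x * Ψ x) := by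
  obtain ⟨ι, _, k, w, hw, hΦ⟩ := h
  obtain ⟨ι', _, k', w', hw', hΨ⟩ := h'
  refine ⟨ι × ι', inferInstance, fun i => k i.1 + k' i.2, fun i => w i.1 * w' i.2, ?_, ?_⟩
  · intro i
    exact mul_nonneg (hw _) (hw' _)
  · intro x
    show Φ x * Ψ x = _
    rw [hΦ, hΨ, Finset.sum_mul_sum, Fintype.sum_prod_type]
    refine Finset.sum_congr rfl fun i _ => Finset.sum_congr rfl fun j _ => ?_
    rw [e_add]
    push_cast
    ring

theorem Pos.zero : Pos (fun _ => 0) :=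
  ⟨Empty, inferInstance, fun i => i.elim, fun i => i.elim, fun i => i.elim, fun x => by simp⟩

theorem Pos.nat (n : ℕ) : Pos (fun _ => (n : ℂ)) :=
  ⟨Unit, inferInstance, fun _ => 0, fun _ => n, fun _ => Nat.cast_nonneg n,
    fun x => by simp [e_zero]⟩

theorem Pos.sum {J : Type} {s : Finset J} {Φ : J → ℝ → ℂ} (h : ∀ j ∈ s, Pos (Φ j)) :
    Pos (fun x => ∑ j ∈ s, Φ j x) := by
  classical
  induction s using Finset.induction_on with
  | empty => simpa using Pos.zero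
  | insert a s ha ih =>
    have h1 := (h a (Finset.mem_insert_self _ _)).add
      (ih fun j hj => h j (Finset.mem_insert_of_mem hj))
    have e1 : (fun x => ∑ j ∈ insert a s, Φ j x) = fun x => Φ a x + ∑ j ∈ s, Φ j x := by
      funext x
      rw [Finset.sum_insert ha]
    rw [e1]
    exact h1

theorem Pos.conj {Φ : ℝ → ℂ} (h : Pos Φ) : Pos (fun x => (starRingEnd ℂ) (Φ x)) := by
  obtain ⟨ι, _, k, w, hw, hΦ⟩ := h
  refine ⟨ι, inferInstance, fun i => - k i, w, hw, fun x => ?_⟩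
  show (starRingEnd ℂ) (Φ x) = _
  rw [hΦ, map_sum]
  refine Finset.sum_congr rfl fun i _ => ?_
  rw [map_mul, Complex.conj_ofReal, e_conj]

theorem Pos.cont {Φ : ℝ → ℂ} (h : Pos Φ) : Continuous Φ := by
  obtain ⟨ι, _, k, w, hw, hΦ⟩ := h
  have : Φ = fun x => ∑ i, (w i : ℂ) * e (k i) x := funext hΦ
  rw [this]
  exact continuous_finsetSum _ fun i _ => (e_cont _).const_mul _

theorem Pos.integral {Φ : ℝ → ℂ} (h : Pos Φ) : 0 ≤ (∫ x in (0:ℝ)..1, Φ x).re := by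
  obtain ⟨ι, _, k, w, hw, hΦ⟩ := h
  simp_rw [hΦ]
  rw [intervalIntegral.integral_finsetSum]
  · rw [Complex.re_sum]
    apply Finset.sum_nonneg
    intro i _
    rw [intervalIntegral.integral_const_mul, ortho]
    split_ifs
    · simpa using hw i
    · simp
  · intro i _
    exact ((e_cont _).const_mul _ |>.intervalIntegrable _ _)

theorem F_pos {f : ℤ →₀ ℝ} (hf : ∀ n, 0 ≤ f n) : Pos (F f) := by
  refine ⟨f.support, inferInstance, fun i => i.1, fun i => f i.1, fun i => hf _, fun x => ?_⟩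
  unfold F Finsupp.sum
  rw [← Finset.sum_coe_sort]
  rfl

/-- `Φ` is multiplied by a character value under the shift by `1 / m` -/
def Cl (m : ℕ) [NeZero m] (r : ZMod m) (Φ : ℝ → ℂ) : Prop :=
  ∀ x, Φ (x + 1 / m) = ZMod.stdAddChar r * Φ x

theorem Cl.mul {m : ℕ} [NeZero m] {r t : ZMod m} {Φ Ψ : ℝ → ℂ} (h : Cl m r Φ) (h' : Cl m t Ψ) :
    Cl m (r + t) (fun x => Φ x * Ψ x) := by
  intro x
  show Φ (x + 1 / m) * Ψ (x + 1 / m) = _
  rw [h x, h' x, AddChar.map_add_eq_mul]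
  ring

theorem Cl.conj {m : ℕ} [NeZero m] {r : ZMod m} {Φ : ℝ → ℂ} (h : Cl m r Φ) :
    Cl m (-r) (fun x => (starRingEnd ℂ) (Φ x)) := by
  intro x
  show (starRingEnd ℂ) (Φ (x + 1 / m)) = _
  rw [h x, map_mul, AddChar.map_neg_eq_conj]

/-- continuous functions with period one -/
def Tr (Φ : ℝ → ℂ) : Prop := Continuous Φ ∧ Function.Periodic Φ 1

theorem Tr.mul {Φ Ψ : ℝ → ℂ} (h : Tr Φ) (h' : Tr Ψ) : Tr (fun x => Φ x * Ψ x) :=
  ⟨h.1.mul h'.1, fun x => by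
    show Φ (x + 1) * Ψ (x + 1) = _
    rw [h.2 x, h'.2 x]⟩

theorem Tr.conj {Φ : ℝ → ℂ} (h : Tr Φ) : Tr (fun x => (starRingEnd ℂ) (Φ x)) :=
  ⟨Complex.continuous_conj.comp h.1, fun x => by
    show (starRingEnd ℂ) (Φ (x + 1)) = _
    rw [h.2 x]⟩

theorem Cl.integral {m : ℕ} [NeZero m] {r : ZMod m} {Φ : ℝ → ℂ} (h : Cl m r Φ) (hT : Tr Φ)
    (hr : r ≠ 0) : ∫ x in (0:ℝ)..1, Φ x = 0 := by
  have h1 : ∫ x in (0:ℝ)..1, Φ (x + 1 / m) = ∫ x in (0:ℝ)..1, Φ x := by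
    rw [intervalIntegral.integral_comp_add_right]
    have := hT.2.intervalIntegral_add_eq (1 / (m:ℝ)) 0
    rw [zero_add] at this ⊢
    rw [← this]
    congr 1
    ring
  have h2 : ∫ x in (0:ℝ)..1, Φ (x + 1 / m) = ZMod.stdAddChar r * ∫ x in (0:ℝ)..1, Φ x := by
    rw [← intervalIntegral.integral_const_mul]
    exact intervalIntegral.integral_congr fun x _ => h x
  have h3 : (ZMod.stdAddChar r : ℂ) ≠ 1 := by
    intro h4
    apply hr
    apply ZMod.injective_stdAddChar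
    rw [h4, AddChar.map_zero_eq_one]
  rw [h1] at h2
  have h4 : (1 - (ZMod.stdAddChar r : ℂ)) * ∫ x in (0:ℝ)..1, Φ x = 0 := by
    rw [sub_mul, one_mul, ← h2, sub_self]
  rcases mul_eq_zero.1 h4 with h5 | h5
  · exact absurd (sub_eq_zero.1 h5).symm h3
  · exact h5

theorem e_tr (n : ℤ) : Tr (e n) := by
  refine ⟨e_cont n, fun x => ?_⟩
  unfold e
  have h : (2 * Real.pi * Complex.I * n * ((x + 1 : ℝ) : ℂ)) =
      2 * Real.pi * Complex.I * n * x + n * (2 * Real.pi * Complex.I) := by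
    push_cast; ring
  rw [h, Complex.exp_add, Complex.exp_int_mul_two_pi_mul_I, mul_one]

theorem F_eq (f : ℤ →₀ ℝ) (x : ℝ) : F f x = ∑ n ∈ f.support, (f n : ℂ) * e n x := rfl

theorem F_tr (f : ℤ →₀ ℝ) : Tr (F f) := by
  refine ⟨?_, fun x => ?_⟩
  · have : F f = fun x => ∑ n ∈ f.support, (f n : ℂ) * e n x := funext (F_eq f)
    rw [this]
    exact continuous_finsetSum _ fun i _ => (e_cont _).const_mul _
  · rw [F_eq, F_eq]
    refine Finset.sum_congr rfl fun n _ => ?_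
    rw [(e_tr n).2 x]

theorem F_cl {m : ℕ} [NeZero m] {f : ℤ →₀ ℝ} {r : ZMod m}
    (h : ∀ n ∈ f.support, ((n : ℤ) : ZMod m) = r) : Cl m r (F f) := by
  intro x
  rw [F_eq, F_eq, Finset.mul_sum]
  refine Finset.sum_congr rfl fun n hn => ?_
  have hm : (m : ℂ) ≠ 0 := by exact_mod_cast NeZero.ne m
  have : e n (x + 1 / m) = ZMod.stdAddChar r * e n x := by
    rw [← h n hn, ZMod.stdAddChar_coe]
    unfold e
    rw [← Complex.exp_add]
    congr 1
    push_cast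
    field_simp
    ring
  rw [this]
  ring

end Pool.Agent.Helper318SP3
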