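import Pool.Agent.Helper318SP3.Comb
import Pool.Agent.H384R3.SPk.Func
import Pool.Agent.H384R3.SPk.Final

/-!
The functional `R 3` and its combination inequality with the constant `9 / 40`.
-/

set_option autoImplicit false

namespace Pool.Agent.Helper318SP3

open Finset Pool.Agent.H384R3.SPk Pool.Agent.H384R3.SPk.C

theorem polyineq {q t : ℝ} (hq : 0 ≤ q) (ht : 0 ≤ t) :
    0 ≤ ((22 / 25 * q + t) ^ 2 + 227 / 1000 * q ^ 2) ^ 6 -
      ((22 / 25 * q + t) ^ 2 + 9 / 40 * q ^ 2) ^ 3 *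
      ((22 / 25 * q + t) ^ 6 + 1106 / 100 * ((22 / 25 * q + t) ^ 4 * (227 / 1000 * q) ^ 2) +
        20 * ((22 / 25 * q + t) ^ 3 * (227 / 1000 * q) ^ 3) +
        15 * ((22 / 25 * q + t) ^ 2 * (227 / 1000 * q) ^ 4) +
        6 * ((22 / 25 * q + t) * (227 / 1000 * q) ^ 5) + (227 / 1000 * q) ^ 6) := by
  ring_nf
  positivity

theorem polyineq' {p q : ℝ} (hq : 0 ≤ q) (h : 22 / 25 * q ≤ p) :
    (p ^ 2 + 9 / 40 * q ^ 2) ^ 3 * (p ^ 6 + 1106 / 100 * (p ^ 4 * (227 / 1000 * q) ^ 2) +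
        20 * (p ^ 3 * (227 / 1000 * q) ^ 3) + 15 * (p ^ 2 * (227 / 1000 * q) ^ 4) +
        6 * (p * (227 / 1000 * q) ^ 5) + (227 / 1000 * q) ^ 6) ≤
      (p ^ 2 + 227 / 1000 * q ^ 2) ^ 6 := by
  have := polyineq hq (sub_nonneg.2 h)
  have e : 22 / 25 * q + (p - 22 / 25 * q) = p := by ring
  rw [e] at this
  linarith

theorem M_smul (t : ℝ) (f : ℤ →₀ ℝ) : M 3 (t • f) = t ^ 6 * M 3 f := by
  rw [← N_pow 3 (by norm_num), N_smul 3 (by norm_num), mul_pow, N_pow 3 (by norm_num)]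
  ring

theorem G_comb3 {m : ℕ} [NeZero m] {A A0 A1 : Finset ℤ} (h0 : A0 ⊆ A) (h1 : A1 ⊆ A)
    (hm0 : ∀ n ∈ A0, ((n : ℤ) : ZMod m) ≠ 0)
    (hm00 : ∀ n ∈ A0, ((n : ℤ) : ZMod m) ≠ - ((n : ℤ) : ZMod m))
    (hm1 : ∀ n ∈ A1, ((n : ℤ) : ZMod m) = 0) {ρ σ : ℝ} (hρ0 : 0 < ρ) (hσ0 : 0 < σ)
    (hr : 31 / 40 * σ ≤ ρ) (hρ : G 3 A1 ρ) (hσ : G 3 A0 σ) : G 3 A (ρ + 9 / 40 * σ) := by
  obtain ⟨g, g1, g2, g3, g4⟩ := hρ
  obtain ⟨f, f1, f2, f3, f4⟩ := hσ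
  have sg : ∑ n ∈ A, g n = ρ := by
    rw [← g3]
    exact (Finset.sum_subset h1 fun n _ hn => by
      by_contra hne
      exact hn (g2 (Finsupp.mem_support_iff.2 hne))).symm
  have sf : ∑ n ∈ A, f n = σ := by
    rw [← f3]
    exact (Finset.sum_subset h0 fun n _ hn => by
      by_contra hne
      exact hn (f2 (Finsupp.mem_support_iff.2 hne))).symm
  obtain ⟨τ, hτ⟩ : ∃ τ : ℝ, τ = (ρ + 9 / 40 * σ) / (ρ + 227 / 1000 * σ) := ⟨_, rfl⟩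
  have hd : 0 < ρ + 227 / 1000 * σ := by positivity
  have hw : 0 < ρ + 9 / 40 * σ := by positivity
  have hτ0 : 0 < τ := by rw [hτ]; positivity
  have hτe : τ * (ρ + 227 / 1000 * σ) = ρ + 9 / 40 * σ := by rw [hτ]; field_simp
  refine ⟨τ • (g + (227 / 1000 : ℝ) • f), fun n => ?_, ?_, ?_, ?_⟩
  · rw [Finsupp.smul_apply, Finsupp.add_apply, Finsupp.smul_apply, smul_eq_mul, smul_eq_mul]
    have := g1 n
    have := f1 n
    positivity
  · intro n hn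
    rcases Finset.mem_union.1 (Finsupp.support_add (Finsupp.support_smul hn)) with h | h
    · exact h1 (g2 h)
    · exact h0 (f2 (Finsupp.support_smul h))
  · simp only [Finsupp.add_apply, Finsupp.smul_apply, smul_eq_mul]
    rw [← Finset.mul_sum, Finset.sum_add_distrib, ← Finset.mul_sum, sg, sf]
    exact hτe
  · rw [N_smul 3 (by norm_num)]
    obtain ⟨p, hp⟩ : ∃ p : ℝ, p = Real.sqrt ρ := ⟨_, rfl⟩
    obtain ⟨q, hq⟩ : ∃ q : ℝ, q = Real.sqrt σ := ⟨_, rfl⟩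
    have p0 : 0 < p := by rw [hp]; exact Real.sqrt_pos.2 hρ0
    have q0 : 0 < q := by rw [hq]; exact Real.sqrt_pos.2 hσ0
    have ep : p ^ 2 = ρ := by rw [hp]; exact Real.sq_sqrt hρ0.le
    have eq : q ^ 2 = σ := by rw [hq]; exact Real.sq_sqrt hσ0.le
    have hpq : 22 / 25 * q ≤ p := by
      by_contra hcon
      push Not at hcon
      have : p ^ 2 < (22 / 25 * q) ^ 2 := by gcongr
      rw [mul_pow, ep, eq] at this
      nlinarith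
    have hM : M 3 (g + (227 / 1000 : ℝ) • f) ≤ p ^ 6 + 1106 / 100 * (p ^ 4 * (227 / 1000 * q) ^ 2) +
        20 * (p ^ 3 * (227 / 1000 * q) ^ 3) + 15 * (p ^ 2 * (227 / 1000 * q) ^ 4) +
        6 * (p * (227 / 1000 * q) ^ 5) + (227 / 1000 * q) ^ 6 := by
      refine comb (m := m) (fun n hn => hm1 n (g2 hn)) (fun n => ?_)
        (fun n hn => hm0 n (f2 (Finsupp.support_smul hn)))
        (fun n hn => hm00 n (f2 (Finsupp.support_smul hn))) p0 (by positivity) ?_ ?_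
      · rw [Finsupp.smul_apply, smul_eq_mul]
        have := f1 n
        positivity
      · have h3 := pow_le_pow_left₀ (N_nonneg 3 g) g4 3
        rw [N_pow 3 (by norm_num), ← ep] at h3
        calc M 3 g ≤ _ := h3
          _ = p ^ 6 := by ring
      · have h3 := pow_le_pow_left₀ (N_nonneg 3 f) f4 3
        rw [N_pow 3 (by norm_num), ← eq] at h3
        rw [M_smul, mul_pow]
        refine mul_le_mul_of_nonneg_left ?_ (by positivity)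
        calc M 3 f ≤ _ := h3
          _ = q ^ 6 := by ring
    have hpoly := polyineq' q0.le hpq
    rw [ep, eq] at hpoly
    set Φ : ℝ := p ^ 6 + 1106 / 100 * (p ^ 4 * (227 / 1000 * q) ^ 2) +
        20 * (p ^ 3 * (227 / 1000 * q) ^ 3) + 15 * (ρ * (227 / 1000 * q) ^ 4) +
        6 * (p * (227 / 1000 * q) ^ 5) + (227 / 1000 * q) ^ 6 with hΦ
    rw [ep] at hM
    have key : (τ ^ 2 * N 3 (g + (227 / 1000 : ℝ) • f)) ^ 3 ≤ (ρ + 9 / 40 * σ) ^ 3 := by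
      rw [mul_pow, N_pow 3 (by norm_num)]
      have e1 : (τ ^ 2) ^ 3 * (ρ + 227 / 1000 * σ) ^ 6 = (ρ + 9 / 40 * σ) ^ 6 := by
        rw [← hτe]; ring
      have e2 : (τ ^ 2) ^ 3 * M 3 (g + (227 / 1000 : ℝ) • f) ≤ (τ ^ 2) ^ 3 * Φ :=
        mul_le_mul_of_nonneg_left hM (by positivity)
      have e3 : (τ ^ 2) ^ 3 * Φ * (ρ + 9 / 40 * σ) ^ 3 ≤ (ρ + 9 / 40 * σ) ^ 3 * (ρ + 9 / 40 * σ) ^ 3 := by
        have : (τ ^ 2) ^ 3 * ((ρ + 9 / 40 * σ) ^ 3 * Φ) ≤ (τ ^ 2) ^ 3 * (ρ + 227 / 1000 * σ) ^ 6 :=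
          mul_le_mul_of_nonneg_left hpoly (by positivity)
        rw [e1] at this
        calc _ = (τ ^ 2) ^ 3 * ((ρ + 9 / 40 * σ) ^ 3 * Φ) := by ring
          _ ≤ _ := this
          _ = _ := by ring
      exact e2.trans (le_of_mul_le_mul_right e3 (by positivity))
    exact le_of_pow_le_pow_left₀ (by norm_num) hw.le key

theorem R_comb3 {m : ℕ} [NeZero m] {A A0 A1 : Finset ℤ} (h0 : A0 ⊆ A) (h1 : A1 ⊆ A)
    (hm0 : ∀ n ∈ A0, ((n : ℤ) : ZMod m) ≠ 0)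
    (hm00 : ∀ n ∈ A0, ((n : ℤ) : ZMod m) ≠ - ((n : ℤ) : ZMod m))
    (hm1 : ∀ n ∈ A1, ((n : ℤ) : ZMod m) = 0) : R 3 A1 + 9 / 40 * R 3 A0 ≤ R 3 A := by
  have hk : 1 ≤ 3 := by norm_num
  have claim : ∀ ρ, G 3 A1 ρ → ∀ σ, G 3 A0 σ → ρ + 9 / 40 * σ ≤ R 3 A := by
    intro ρ hρ σ hσ
    have hρ0 := G_nonneg hρ
    have hσ0 := G_nonneg hσ
    have a1 : ρ ≤ R 3 A := le_csSup (bdd tC hk A) (G_sub h1 hρ)
    have a2 : σ ≤ R 3 A := le_csSup (bdd tC hk A) (G_sub h0 hσ)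
    rcases hσ0.eq_or_lt with hs | hs
    · rw [← hs]; linarith
    rcases le_or_gt (31 / 40 * σ) ρ with hr | hr
    · have hρ1 : 0 < ρ := by linarith
      exact le_csSup (bdd tC hk A) (G_comb3 h0 h1 hm0 hm00 hm1 hρ1 hs hr hρ hσ)
    · linarith
  have key : ∀ σ, G 3 A0 σ → R 3 A1 ≤ R 3 A - 9 / 40 * σ := by
    intro σ hσ
    apply csSup_le ⟨0, G_zero 3 hk A1⟩
    intro ρ hρ
    have := claim ρ hρ σ hσ
    linarith
  have h2 : R 3 A0 ≤ (R 3 A - R 3 A1) * (40 / 9) := by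
    apply csSup_le ⟨0, G_zero 3 hk A0⟩
    intro σ hσ
    have := key σ hσ
    linarith
  linarith

end Pool.Agent.Helper318SP3
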