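import Pool.Agent.Helper318SP3.Split

/-!
Reduction from finite sets of integers to good sets.
-/

set_option autoImplicit false

namespace Pool.Agent.Helper318SP3

open Finset Pool.Agent.H384R3.SPk Pool.Agent.H384R3.SPk.C

theorem pick (A : Finset ℤ) (h : ∃ a ∈ A, a ≠ 0) : ∃ (B : Finset ℤ) (ε : ℤ), ε ≠ 0 ∧ B.Nonempty ∧
    (∀ b ∈ B, 0 < b) ∧ (∀ b ∈ B, ε * b ∈ A) ∧ A.card ≤ 3 * B.card := by
  classical
  obtain ⟨U, hU⟩ : ∃ U : Finset ℤ, U = A.filter (fun a => 0 < a) := ⟨_, rfl⟩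
  obtain ⟨V, hV⟩ : ∃ V : Finset ℤ, V = (A.filter (fun a => a < 0)).image (fun a => -a) := ⟨_, rfl⟩
  have cV : V.card = (A.filter (fun a => a < 0)).card := by
    rw [hV]
    exact Finset.card_image_of_injective _ neg_injective
  have hcov : A ⊆ (U ∪ A.filter (fun a => a < 0)) ∪ {0} := by
    intro a ha
    rcases lt_trichotomy a 0 with h1 | h1 | h1
    · exact Finset.mem_union_left _ (Finset.mem_union_right _ (Finset.mem_filter.2 ⟨ha, h1⟩))
    · exact Finset.mem_union_right _ (Finset.mem_singleton.2 h1)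
    · exact Finset.mem_union_left _ (Finset.mem_union_left _ (by
        rw [hU]; exact Finset.mem_filter.2 ⟨ha, h1⟩))
  have hc : A.card ≤ U.card + V.card + 1 := by
    refine (Finset.card_le_card hcov).trans ((Finset.card_union_le _ _).trans ?_)
    rw [Finset.card_singleton, cV]
    exact Nat.add_le_add_right (Finset.card_union_le _ _) 1
  have hone : 1 ≤ U.card + V.card := by
    obtain ⟨a, ha, ha0⟩ := h
    rcases lt_or_gt_of_ne ha0 with h1 | h1
    · have : 0 < V.card := by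
        rw [cV]
        exact Finset.card_pos.2 ⟨a, Finset.mem_filter.2 ⟨ha, h1⟩⟩
      omega
    · have : 0 < U.card := by
        rw [hU]
        exact Finset.card_pos.2 ⟨a, Finset.mem_filter.2 ⟨ha, h1⟩⟩
      omega
  rcases le_total V.card U.card with h1 | h1
  · refine ⟨U, 1, one_ne_zero, Finset.card_pos.1 (by omega), fun b hb => ?_, fun b hb => ?_,
      by omega⟩
    · rw [hU] at hb; exact (Finset.mem_filter.1 hb).2
    · rw [hU] at hb; rw [one_mul]; exact (Finset.mem_filter.1 hb).1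
  · refine ⟨V, -1, by norm_num, Finset.card_pos.1 (by omega), fun b hb => ?_, fun b hb => ?_,
      by omega⟩
    · rw [hV, Finset.mem_image] at hb
      obtain ⟨a, ha, rfl⟩ := hb
      have := (Finset.mem_filter.1 ha).2
      omega
    · rw [hV, Finset.mem_image] at hb
      obtain ⟨a, ha, rfl⟩ := hb
      have := (Finset.mem_filter.1 ha).1
      rwa [neg_one_mul, neg_neg]

theorem pick2 (B : Finset ℤ) (hB : B.Nonempty) (hpos : ∀ b ∈ B, 0 < b) :
    ∃ C : Finset ℤ, C ⊆ B ∧ Good C ∧ C.Nonempty ∧ B.card ≤ 2 * C.card := by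
  classical
  obtain ⟨U, hU⟩ : ∃ U : Finset ℤ, U = B.filter (fun a => padicValInt 2 a % 2 = 0) := ⟨_, rfl⟩
  obtain ⟨V, hV⟩ : ∃ V : Finset ℤ, V = B.filter (fun a => ¬ padicValInt 2 a % 2 = 0) := ⟨_, rfl⟩
  have hc : U.card + V.card = B.card := by
    rw [hU, hV]; exact Finset.card_filter_add_card_filter_not _
  have hb := hB.card_pos
  have sU : U ⊆ B := by rw [hU]; exact Finset.filter_subset _ _
  have sV : V ⊆ B := by rw [hV]; exact Finset.filter_subset _ _
  rcases le_total V.card U.card with h1 | h1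
  · refine ⟨U, sU, ⟨fun a ha => hpos a (sU ha), fun a ha b hb => ?_⟩,
      Finset.card_pos.1 (by omega), by omega⟩
    rw [hU] at ha hb
    rw [(Finset.mem_filter.1 ha).2, (Finset.mem_filter.1 hb).2]
  · refine ⟨V, sV, ⟨fun a ha => hpos a (sV ha), fun a ha b hb => ?_⟩,
      Finset.card_pos.1 (by omega), by omega⟩
    rw [hV] at ha hb
    have := (Finset.mem_filter.1 ha).2
    have := (Finset.mem_filter.1 hb).2
    omega

/-- passage to a good set -/
theorem exists_good (A : Finset ℤ) (h : ∃ a ∈ A, a ≠ 0) : ∃ (B : Finset ℤ) (ε : ℤ), ε ≠ 0 ∧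
    B.Nonempty ∧ Good B ∧ (∀ b ∈ B, ε * b ∈ A) ∧ A.card ≤ 6 * B.card := by
  obtain ⟨B, ε, h1, h2, h3, h4, h5⟩ := pick A h
  obtain ⟨C, c1, c2, c3, c4⟩ := pick2 B h2 h3
  exact ⟨C, ε, h1, c3, c2, fun b hb => h4 b (c1 hb), by omega⟩

theorem card_sumset_le {A B : Finset ℤ} {ε : ℤ} (hε : ε ≠ 0) (h : ∀ b ∈ B, ε * b ∈ A) (k : ℕ) :
    (sumset k B).card ≤ (sumset k A).card := by
  classical
  refine Finset.card_le_card_of_injOn (fun x => ε * x) ?_ ?_
  · intro x hx
    have hx' : x ∈ sumset k B := hx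
    unfold sumset at hx' ⊢
    rw [Finset.mem_image] at hx'
    obtain ⟨f, hf, rfl⟩ := hx'
    refine Finset.mem_coe.2 (Finset.mem_image.2 ⟨fun i => ε * f i, ?_, ?_⟩)
    · rw [Fintype.mem_piFinset] at hf ⊢
      exact fun i => h _ (hf i)
    · show ∑ i, ε * f i = ε * ∑ i, f i
      rw [Finset.mul_sum]
  · intro x _ y _ hxy
    exact mul_left_cancel₀ hε hxy

theorem card_prodset_le {n : ℕ} {A B : Fin n → Finset ℤ} {ε : Fin n → ℤ} (hε : ∀ i, ε i ≠ 0)
    (h : ∀ i, ∀ b ∈ B i, ε i * b ∈ A i) : (prodset B).card ≤ (prodset A).card := by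
  classical
  refine Finset.card_le_card_of_injOn (fun x => (∏ i, ε i) * x) ?_ ?_
  · intro x hx
    have hx' : x ∈ prodset B := hx
    unfold prodset at hx' ⊢
    rw [Finset.mem_image] at hx'
    obtain ⟨f, hf, rfl⟩ := hx'
    refine Finset.mem_coe.2 (Finset.mem_image.2 ⟨fun i => ε i * f i, ?_, ?_⟩)
    · rw [Fintype.mem_piFinset] at hf ⊢
      exact fun i => h i _ (hf i)
    · show ∏ i, ε i * f i = (∏ i, ε i) * ∏ i, f i
      rw [Finset.prod_mul_distrib]
  · intro x _ y _ hxy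
    exact mul_left_cancel₀ (Finset.prod_ne_zero_iff.2 fun i _ => hε i) hxy

/-- the five set inequality for good sets -/
theorem five_good (A : Fin 5 → Finset ℤ) (hA : ∀ i, (A i).Nonempty) (hG : ∀ i, Good (A i)) :
    ∏ i, ((A i).card : ℝ) ^ 6 ≤
      (∏ i, ((sumset 3 (A i)).card : ℝ)) * ((prodset A).card : ℝ) ^ 15 := by
  have h := prod5 A hA hG
  have hR : ∀ i, 0 < R 3 (A i) := fun i =>
    lt_of_lt_of_le one_pos (one_le_R tC (by norm_num) (hA i))
  have hpt : ∀ i, 0 ≤ pt5 (A i).card (R 3 (A i)) := fun i =>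
    (pt5_pos (by exact_mod_cast (hA i).card_pos) (hR i)).le
  have h2 := pow_le_pow_left₀ (Finset.prod_nonneg fun i _ => hpt i) h 15
  have e1 : (∏ i, pt5 (A i).card (R 3 (A i))) ^ 15 =
      ∏ i, (((A i).card : ℝ) ^ 2 / R 3 (A i)) ^ 3 := by
    rw [← Finset.prod_pow]
    refine Finset.prod_congr rfl fun i _ => ?_
    rw [← pt5_pow (hR i), ← pow_mul]
  rw [e1] at h2
  have h3 : ∀ i, ((A i).card : ℝ) ^ 6 ≤
      ((sumset 3 (A i)).card : ℝ) * (((A i).card : ℝ) ^ 2 / R 3 (A i)) ^ 3 := by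
    intro i
    have hp := R_pow tC (k := 3) (by norm_num) (hA i)
    have hi := hR i
    have e : ((A i).card : ℝ) ^ 6 = R 3 (A i) ^ 3 * (((A i).card : ℝ) ^ 2 / R 3 (A i)) ^ 3 := by
      rw [div_pow]
      field_simp
    rw [e]
    exact mul_le_mul_of_nonneg_right hp (by positivity)
  calc ∏ i, ((A i).card : ℝ) ^ 6 ≤ ∏ i, (((sumset 3 (A i)).card : ℝ) *
        (((A i).card : ℝ) ^ 2 / R 3 (A i)) ^ 3) :=
        Finset.prod_le_prod (fun i _ => by positivity) fun i _ => h3 i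
    _ = (∏ i, ((sumset 3 (A i)).card : ℝ)) * ∏ i, (((A i).card : ℝ) ^ 2 / R 3 (A i)) ^ 3 := by
        rw [Finset.prod_mul_distrib]
    _ ≤ _ := mul_le_mul_of_nonneg_left h2 (Finset.prod_nonneg fun i _ => by positivity)

/-- the five set inequality -/
theorem five (A : Fin 5 → Finset ℤ) (hA : ∀ i, ∃ a ∈ A i, a ≠ 0) :
    ∏ i, ((A i).card : ℝ) ^ 6 ≤
      6 ^ 30 * (∏ i, ((sumset 3 (A i)).card : ℝ)) * ((prodset A).card : ℝ) ^ 15 := by
  choose B ε h1 h2 h3 h4 h5 using fun i => exists_good (A i) (hA i)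
  have h := five_good B h2 h3
  have hp : ((prodset B).card : ℝ) ≤ (prodset A).card := by
    exact_mod_cast card_prodset_le h1 h4
  have hs : ∏ i, ((sumset 3 (B i)).card : ℝ) ≤ ∏ i, ((sumset 3 (A i)).card : ℝ) :=
    Finset.prod_le_prod (fun i _ => by positivity) fun i _ => by
      exact_mod_cast card_sumset_le (h1 i) (h4 i) 3
  have hc : ∏ i, ((A i).card : ℝ) ^ 6 ≤ 6 ^ 30 * ∏ i, ((B i).card : ℝ) ^ 6 := by
    calc ∏ i, ((A i).card : ℝ) ^ 6 ≤ ∏ i, (6 ^ 6 * ((B i).card : ℝ) ^ 6) := by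
          refine Finset.prod_le_prod (fun i _ => by positivity) fun i _ => ?_
          rw [← mul_pow]
          exact pow_le_pow_left₀ (by positivity) (by exact_mod_cast h5 i) 6
      _ = _ := by
          rw [Finset.prod_mul_distrib, Finset.prod_const, Finset.card_univ, Fintype.card_fin,
            ← pow_mul]
  have hP0 : 0 ≤ ∏ i, ((sumset 3 (A i)).card : ℝ) := Finset.prod_nonneg fun i _ => by positivity
  calc ∏ i, ((A i).card : ℝ) ^ 6 ≤ 6 ^ 30 * ∏ i, ((B i).card : ℝ) ^ 6 := hc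
    _ ≤ 6 ^ 30 * ((∏ i, ((sumset 3 (A i)).card : ℝ)) * ((prodset A).card : ℝ) ^ 15) := by
        refine mul_le_mul_of_nonneg_left (h.trans ?_) (by positivity)
        exact mul_le_mul hs (pow_le_pow_left₀ (by positivity) hp 15) (by positivity) hP0
    _ = _ := by ring

/-- one good set -/
theorem one_good (A : Finset ℤ) (hA : A.Nonempty) (hG : Good A) :
    (A.card : ℝ) ^ 6 ≤ ((sumset 3 A).card : ℝ) * ((prodset fun _ : Fin 5 => A).card : ℝ) ^ 3 := by
  have h := five_good (fun _ => A) (fun _ => hA) (fun _ => hG)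
  rw [Finset.prod_const, Finset.prod_const, Finset.card_univ, Fintype.card_fin] at h
  have e : ((sumset 3 A).card : ℝ) ^ 5 * ((prodset fun _ : Fin 5 => A).card : ℝ) ^ 15 =
    (((sumset 3 A).card : ℝ) * ((prodset fun _ : Fin 5 => A).card : ℝ) ^ 3) ^ 5 := by ring
  rw [e] at h
  exact le_of_pow_le_pow_left₀ (by norm_num) (by positivity) h

/-- one set -/
theorem one (A : Finset ℤ) (hA : A.Nonempty) :
    (A.card : ℝ) ^ 6 ≤
      6 ^ 6 * (((sumset 3 A).card : ℝ) * ((prodset fun _ : Fin 5 => A).card : ℝ) ^ 3) := by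
  by_cases h0 : ∃ a ∈ A, a ≠ 0
  · obtain ⟨B, ε, h1, h2, h3, h4, h5⟩ := exists_good A h0
    have h := one_good B h2 h3
    have hs : ((sumset 3 B).card : ℝ) ≤ (sumset 3 A).card := by
      exact_mod_cast card_sumset_le h1 h4 3
    have hp : ((prodset fun _ : Fin 5 => B).card : ℝ) ≤ (prodset fun _ : Fin 5 => A).card := by
      exact_mod_cast card_prodset_le (ε := fun _ => ε) (fun _ => h1) (fun _ => h4)
    have hc : (A.card : ℝ) ≤ 6 * B.card := by exact_mod_cast h5
    calc (A.card : ℝ) ^ 6 ≤ (6 * B.card) ^ 6 := pow_le_pow_left₀ (by positivity) hc 6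
      _ = 6 ^ 6 * (B.card : ℝ) ^ 6 := by ring
      _ ≤ _ := mul_le_mul_of_nonneg_left (h.trans
          (mul_le_mul hs (pow_le_pow_left₀ (by positivity) hp 3) (by positivity) (by positivity)))
          (by positivity)
  · push Not at h0
    have hA0 : A = {0} := by
      obtain ⟨a, ha⟩ := hA
      refine Finset.eq_singleton_iff_unique_mem.2 ⟨h0 a ha ▸ ha, h0⟩
    have h1 : (1:ℝ) ≤ (sumset 3 A).card := by exact_mod_cast card_pos_sum 3 hA
    have h2 : (1:ℝ) ≤ (prodset fun _ : Fin 5 => A).card := by exact_mod_cast card_pos_prod 5 hA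
    have h3 : (1:ℝ) ≤ ((prodset fun _ : Fin 5 => A).card : ℝ) ^ 3 := one_le_pow₀ h2
    have h4 : (1:ℝ) ≤ ((sumset 3 A).card : ℝ) * ((prodset fun _ : Fin 5 => A).card : ℝ) ^ 3 :=
      one_le_mul_of_one_le_of_one_le h1 h3
    have h5 : (A.card : ℝ) = 1 := by rw [hA0, Finset.card_singleton, Nat.cast_one]
    rw [h5]
    linarith

end Pool.Agent.Helper318SP3
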