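import Pool.Agent.Helper318SP3.Comb2
import Pool.Agent.Helper318SP3.Reduce

/-!
The functional `R 3` and its combination inequality with the constant `133 / 500`.
-/

set_option autoImplicit false

namespace Pool.Agent.Helper318SP3

open Finset Pool.Agent.H384R3.SPk Pool.Agent.H384R3.SPk.C

theorem polyin' (p q : ℝ) :
    p ^ 6 + 1106 / 100 * (p ^ 4 * (133 / 500 * q) ^ 2) +
        2 * (p ^ 3 * (133 / 500 * q) ^ 3) + 37 * (p ^ 2 * (133 / 500 * q) ^ 4) +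
        6 * (p * (133 / 500 * q) ^ 5) + (133 / 500 * q) ^ 6 ≤
      (p ^ 2 + 133 / 500 * q ^ 2) ^ 3 := by
  have e : (p ^ 2 + 133 / 500 * q ^ 2) ^ 3 -
      (p ^ 6 + 1106 / 100 * (p ^ 4 * (133 / 500 * q) ^ 2) +
        2 * (p ^ 3 * (133 / 500 * q) ^ 3) + 37 * (p ^ 2 * (133 / 500 * q) ^ 4) +
        6 * (p * (133 / 500 * q) ^ 5) + (133 / 500 * q) ^ 6) =
      q ^ 2 * ((3 * (133 / 500) - 1106 / 100 * (133 / 500) ^ 2) * p ^ 4 -
        2 * (133 / 500) ^ 3 * (p ^ 3 * q) +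
        (3 * (133 / 500) ^ 2 - 37 * (133 / 500) ^ 4) * (p ^ 2 * q ^ 2) -
        6 * (133 / 500) ^ 5 * (p * q ^ 3) + ((133 / 500) ^ 3 - (133 / 500) ^ 6) * q ^ 4) := by ring
  have h : 0 ≤ (3 * (133 / 500) - 1106 / 100 * (133 / 500) ^ 2) * p ^ 4 -
        2 * (133 / 500) ^ 3 * (p ^ 3 * q) +
        (3 * (133 / 500) ^ 2 - 37 * (133 / 500) ^ 4) * (p ^ 2 * q ^ 2) -
        6 * (133 / 500) ^ 5 * (p * q ^ 3) + ((133 / 500) ^ 3 - (133 / 500) ^ 6) * q ^ 4 := by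
    norm_num
    nlinarith [sq_nonneg (p * (p - 1219 / 1000 * q)), sq_nonneg (q * (p - q)),
      sq_nonneg (q * q), sq_nonneg (p * q)]
  have h2 := mul_nonneg (sq_nonneg q) h
  linarith

theorem G_comb4 {m : ℕ} [NeZero m] {A A0 A1 : Finset ℤ} (h0 : A0 ⊆ A) (h1 : A1 ⊆ A)
    (hm0 : ∀ n ∈ A0, Adm ((n : ℤ) : ZMod m))
    (hm1 : ∀ n ∈ A1, ((n : ℤ) : ZMod m) = 0) {ρ σ : ℝ} (hρ0 : 0 < ρ) (hσ0 : 0 < σ)
    (hρ : G 3 A1 ρ) (hσ : G 3 A0 σ) : G 3 A (ρ + 133 / 500 * σ) := by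
  obtain ⟨g, g1, g2, g3, g4⟩ := hρ
  obtain ⟨f, f1, f2, f3, f4⟩ := hσ
  have sg : ∑ n ∈ A, g n = ρ := by
    rw [← g3]
    exact (Finset.sum_subset h1 fun n _ hn => by
      by_contra hne
      exact hn (g2 (Finsupp.mem_support_iff.2 hne))).symm
  have sf : ∑ n ∈ A, f n = σ := by
    rw [← f3]
    exact (Finset.sum_subset h0 fun n _ hn => by
      by_contra hne
      exact hn (f2 (Finsupp.mem_support_iff.2 hne))).symm
  have hw : 0 < ρ + 133 / 500 * σ := by positivity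
  refine ⟨g + (133 / 500 : ℝ) • f, fun n => ?_, ?_, ?_, ?_⟩
  · rw [Finsupp.add_apply, Finsupp.smul_apply, smul_eq_mul]
    have := g1 n
    have := f1 n
    positivity
  · intro n hn
    rcases Finset.mem_union.1 (Finsupp.support_add hn) with h | h
    · exact h1 (g2 h)
    · exact h0 (f2 (Finsupp.support_smul h))
  · simp only [Finsupp.add_apply, Finsupp.smul_apply, smul_eq_mul]
    rw [Finset.sum_add_distrib, ← Finset.mul_sum, sg, sf]
  · obtain ⟨p, hp⟩ : ∃ p : ℝ, p = Real.sqrt ρ := ⟨_, rfl⟩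
    obtain ⟨q, hq⟩ : ∃ q : ℝ, q = Real.sqrt σ := ⟨_, rfl⟩
    have p0 : 0 < p := by rw [hp]; exact Real.sqrt_pos.2 hρ0
    have q0 : 0 < q := by rw [hq]; exact Real.sqrt_pos.2 hσ0
    have ep : p ^ 2 = ρ := by rw [hp]; exact Real.sq_sqrt hρ0.le
    have eq : q ^ 2 = σ := by rw [hq]; exact Real.sq_sqrt hσ0.le
    have hM : M 3 (g + (133 / 500 : ℝ) • f) ≤ p ^ 6 + 1106 / 100 * (p ^ 4 * (133 / 500 * q) ^ 2) +
        2 * (p ^ 3 * (133 / 500 * q) ^ 3) + 37 * (p ^ 2 * (133 / 500 * q) ^ 4) +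
        6 * (p * (133 / 500 * q) ^ 5) + (133 / 500 * q) ^ 6 := by
      refine comb2 (m := m) (fun n hn => hm1 n (g2 hn)) (fun n => ?_)
        (fun n hn => hm0 n (f2 (Finsupp.support_smul hn))) p0 (by positivity) ?_ ?_
      · rw [Finsupp.smul_apply, smul_eq_mul]
        have := f1 n
        positivity
      · have h3 := pow_le_pow_left₀ (N_nonneg 3 g) g4 3
        rw [N_pow 3 (by norm_num), ← ep] at h3
        calc M 3 g ≤ _ := h3
          _ = p ^ 6 := by ring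
      · have h3 := pow_le_pow_left₀ (N_nonneg 3 f) f4 3
        rw [N_pow 3 (by norm_num), ← eq] at h3
        rw [M_smul, mul_pow]
        refine mul_le_mul_of_nonneg_left ?_ (by positivity)
        calc M 3 f ≤ _ := h3
          _ = q ^ 6 := by ring
    have hpoly := polyin' p q
    have key : (N 3 (g + (133 / 500 : ℝ) • f)) ^ 3 ≤ (ρ + 133 / 500 * σ) ^ 3 := by
      rw [N_pow 3 (by norm_num)]
      refine hM.trans (hpoly.trans (le_of_eq ?_))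
      rw [ep, eq]
    exact le_of_pow_le_pow_left₀ (by norm_num) hw.le key

theorem R_comb4 {m : ℕ} [NeZero m] {A A0 A1 : Finset ℤ} (h0 : A0 ⊆ A) (h1 : A1 ⊆ A)
    (hm0 : ∀ n ∈ A0, Adm ((n : ℤ) : ZMod m))
    (hm1 : ∀ n ∈ A1, ((n : ℤ) : ZMod m) = 0) : R 3 A1 + 133 / 500 * R 3 A0 ≤ R 3 A := by
  have hk : 1 ≤ 3 := by norm_num
  have claim : ∀ ρ, G 3 A1 ρ → ∀ σ, G 3 A0 σ → ρ + 133 / 500 * σ ≤ R 3 A := by
    intro ρ hρ σ hσ
    have hρ0 := G_nonneg hρ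
    have hσ0 := G_nonneg hσ
    have a1 : ρ ≤ R 3 A := le_csSup (bdd tC hk A) (G_sub h1 hρ)
    have a2 : σ ≤ R 3 A := le_csSup (bdd tC hk A) (G_sub h0 hσ)
    rcases hσ0.eq_or_lt with hs | hs
    · rw [← hs]; linarith
    rcases hρ0.eq_or_lt with hr | hr
    · rw [← hr]; linarith
    · exact le_csSup (bdd tC hk A) (G_comb4 h0 h1 hm0 hm1 hr hs hρ hσ)
  have key : ∀ σ, G 3 A0 σ → R 3 A1 ≤ R 3 A - 133 / 500 * σ := by
    intro σ hσ
    apply csSup_le ⟨0, G_zero 3 hk A1⟩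
    intro ρ hρ
    have := claim ρ hρ σ hσ
    linarith
  have h2 : R 3 A0 ≤ (R 3 A - R 3 A1) * (500 / 133) := by
    apply csSup_le ⟨0, G_zero 3 hk A0⟩
    intro σ hσ
    have := key σ hσ
    linarith
  linarith

/-- positive integers whose `2`-adic valuations have the same parity, and also the `3`-adic ones -/
def Good2 (A : Finset ℤ) : Prop :=
  Good A ∧ ∀ a ∈ A, ∀ b ∈ A, padicValInt 3 a % 2 = padicValInt 3 b % 2

theorem Good2.sub {A B : Finset ℤ} (h : Good2 A) (hB : B ⊆ A) : Good2 B :=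
  ⟨h.1.sub hB, fun a ha b hb => h.2 a (hB ha) b (hB hb)⟩

theorem adm_of {m : ℕ} {n : ℤ} (h1 : ¬ (m : ℤ) ∣ n) (h2 : ¬ (m : ℤ) ∣ 2 * n)
    (h3 : ¬ (m : ℤ) ∣ 3 * n) : Adm ((n : ℤ) : ZMod m) := by
  refine ⟨zmod_ne h1, zmod_ne_neg h2, fun h => h3 ?_⟩
  rw [← ZMod.intCast_zmod_eq_zero_iff_dvd]
  push_cast
  rw [← h]
  ring

theorem cancel_prime {p r k : ℕ} (hp : p.Prime) (hr : r.Prime) (hpr : p ≠ r) {n : ℤ}
    (h : ((p ^ k : ℕ) : ℤ) ∣ (r : ℤ) * n) : ((p ^ k : ℕ) : ℤ) ∣ n := by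
  have hcop : IsCoprime ((p ^ k : ℕ) : ℤ) ((r : ℕ) : ℤ) :=
    Nat.isCoprime_iff_coprime.2 (Nat.Coprime.pow_left _ ((Nat.coprime_primes hp hr).2 hpr))
  exact hcop.dvd_of_dvd_mul_left h

/-- the combination inequality for a split of a good set -/
theorem split4 {p : ℕ} (hp : p.Prime) {A A0 A1 : Finset ℤ} {j : ℕ} (hA : Good2 A)
    (hne : A0.Nonempty) (h0 : A0 ⊆ A) (h1 : A1 ⊆ A) (hv0 : ∀ a ∈ A0, padicValInt p a = j)
    (hv1 : ∀ a ∈ A1, j < padicValInt p a) : R 3 A1 + 133 / 500 * R 3 A0 ≤ R 3 A := by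
  have : Fact p.Prime := ⟨hp⟩
  have hnd : ∀ a ∈ A0, ¬ ((p ^ (j + 1) : ℕ) : ℤ) ∣ a := by
    intro n hn hdvd
    have hpos := hA.1.1 n (h0 hn)
    have hdvd' : ((p : ℤ) ^ (j + 1)) ∣ n := by exact_mod_cast hdvd
    rcases (padicValInt_dvd_iff (p := p) (j + 1) n).1 hdvd' with h | h
    · omega
    · rw [hv0 n hn] at h; omega
  have hnd2 : ∀ a ∈ A0, ¬ ((p ^ (j + 2) : ℕ) : ℤ) ∣ a := by
    intro n hn hdvd
    refine hnd n hn (dvd_trans ?_ hdvd)
    push_cast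
    exact pow_dvd_pow _ (by omega)
  have hself : ∀ a ∈ A0, ¬ ((p ^ (j + 2) : ℕ) : ℤ) ∣ (p : ℤ) * a := by
    intro n hn hdvd
    apply hnd n hn
    have e : ((p ^ (j + 2) : ℕ) : ℤ) = (p : ℤ) * ((p ^ (j + 1) : ℕ) : ℤ) := by
      push_cast
      ring
    rw [e] at hdvd
    exact (mul_dvd_mul_iff_left (by exact_mod_cast hp.ne_zero)).1 hdvd
  have hdv : ∀ e : ℕ, (∀ n ∈ A1, j + e ≤ padicValInt p n) → ∀ n ∈ A1,
      ((n : ℤ) : ZMod (p ^ (j + e))) = 0 := by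
    intro e he n hn
    rw [ZMod.intCast_zmod_eq_zero_iff_dvd]
    have := (padicValInt_dvd_iff (p := p) (j + e) n).2 (Or.inr (he n hn))
    exact_mod_cast this
  have hpar : (∀ a ∈ A, ∀ b ∈ A, padicValInt p a % 2 = padicValInt p b % 2) →
      ∀ n ∈ A1, j + 2 ≤ padicValInt p n := by
    intro hq n hn
    obtain ⟨b, hb⟩ := hne
    have e1 := hq n (h1 hn) b (h0 hb)
    rw [hv0 b hb] at e1
    have e2 := hv1 n hn
    omega
  by_cases h2 : p = 2
  · subst h2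
    have : NeZero (2 ^ (j + 2)) := ⟨by positivity⟩
    refine R_comb4 (m := 2 ^ (j + 2)) h0 h1 (fun n hn => adm_of (hnd2 n hn) ?_ ?_)
      (hdv 2 (hpar hA.1.2))
    · exact_mod_cast hself n hn
    · intro h
      exact hnd2 n hn (cancel_prime Nat.prime_two Nat.prime_three (by norm_num)
        (by exact_mod_cast h))
  · by_cases h3 : p = 3
    · subst h3
      have : NeZero (3 ^ (j + 2)) := ⟨by positivity⟩
      refine R_comb4 (m := 3 ^ (j + 2)) h0 h1 (fun n hn => adm_of (hnd2 n hn) ?_ ?_)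
        (hdv 2 (hpar hA.2))
      · intro h
        exact hnd2 n hn (cancel_prime Nat.prime_three Nat.prime_two (by norm_num)
          (by exact_mod_cast h))
      · exact_mod_cast hself n hn
    · have : NeZero (p ^ (j + 1)) := ⟨(pow_pos hp.pos _).ne'⟩
      refine R_comb4 (m := p ^ (j + 1)) h0 h1 (fun n hn => adm_of (hnd n hn) ?_ ?_)
        (hdv 1 fun n hn => hv1 n hn)
      · intro h
        exact hnd n hn (cancel_prime hp Nat.prime_two h2 (by exact_mod_cast h))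
      · intro h
        exact hnd n hn (cancel_prime hp Nat.prime_three h3 (by exact_mod_cast h))

theorem pick3 (B : Finset ℤ) (hB : B.Nonempty) (hG : Good B) :
    ∃ C : Finset ℤ, C ⊆ B ∧ Good2 C ∧ C.Nonempty ∧ B.card ≤ 2 * C.card := by
  classical
  obtain ⟨U, hU⟩ : ∃ U : Finset ℤ, U = B.filter (fun a => padicValInt 3 a % 2 = 0) := ⟨_, rfl⟩
  obtain ⟨V, hV⟩ : ∃ V : Finset ℤ, V = B.filter (fun a => ¬ padicValInt 3 a % 2 = 0) := ⟨_, rfl⟩
  have hc : U.card + V.card = B.card := by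
    rw [hU, hV]; exact Finset.card_filter_add_card_filter_not _
  have hb := hB.card_pos
  have sU : U ⊆ B := by rw [hU]; exact Finset.filter_subset _ _
  have sV : V ⊆ B := by rw [hV]; exact Finset.filter_subset _ _
  rcases le_total V.card U.card with h1 | h1
  · refine ⟨U, sU, ⟨hG.sub sU, fun a ha b hb => ?_⟩, Finset.card_pos.1 (by omega), by omega⟩
    rw [hU] at ha hb
    rw [(Finset.mem_filter.1 ha).2, (Finset.mem_filter.1 hb).2]
  · refine ⟨V, sV, ⟨hG.sub sV, fun a ha b hb => ?_⟩, Finset.card_pos.1 (by omega), by omega⟩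
    rw [hV] at ha hb
    have := (Finset.mem_filter.1 ha).2
    have := (Finset.mem_filter.1 hb).2
    omega

/-- passage to a good set -/
theorem exists_good2 (A : Finset ℤ) (h : ∃ a ∈ A, a ≠ 0) : ∃ (B : Finset ℤ) (ε : ℤ), ε ≠ 0 ∧
    B.Nonempty ∧ Good2 B ∧ (∀ b ∈ B, ε * b ∈ A) ∧ A.card ≤ 12 * B.card := by
  obtain ⟨B, ε, h1, h2, h3, h4, h5⟩ := exists_good A h
  obtain ⟨C, c1, c2, c3, c4⟩ := pick3 B h2 h3
  exact ⟨C, ε, h1, c3, c2, fun b hb => h4 b (c1 hb), by omega⟩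

end Pool.Agent.Helper318SP3
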