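import Pool.Agent.Helper318SP3.Reduce

/-!
Three sums against `n` products.
-/

set_option autoImplicit false

namespace Pool.Agent.Helper318SP3

open Finset Pool.Agent.H384R3.SPk Pool.Agent.H384R3.SPk.C

open Classical in
/-- the potential of a good set -/
noncomputable def Pn (n : ℕ) (β : ℝ) (A : Finset ℤ) : ℝ :=
  if Good A then q n β A.card (R 3 A) else 0

theorem Pn_nonneg (n : ℕ) (β : ℝ) (A : Finset ℤ) : 0 ≤ Pn n β A := by
  unfold Pn
  split_ifs
  · exact q_nonneg n β (Nat.cast_nonneg _) (R3_nonneg A)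
  · exact le_rfl

theorem prod_n {n : ℕ} (hn : 2 ≤ n) {β : ℝ} (hβ : 0 < β)
    (hcβ : ((n : ℝ) - (n - 1) * (9 / 40)) ^ β = 1 / (9 / 40))
    (A : Fin n → Finset ℤ) (hA : ∀ i, (A i).Nonempty) (hG : ∀ i, Good (A i)) :
    ∏ i, q n β (A i).card (R 3 (A i)) ≤ ((prodset A).card : ℝ) := by
  have h := taskD n (by omega) (Pn n β) (Pn_nonneg n β) ?_ ?_ A hA (fun i => (hG i).1)
  · refine le_trans (le_of_eq ?_) h
    refine Finset.prod_congr rfl fun i _ => ?_
    unfold Pn
    rw [if_pos (hG i)]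
  · intro p A A0 A1 j hp hpos hne0 hne1 hdisj hun hv0 hv1
    by_cases hGA : Good A
    · have s0 : A0 ⊆ A := by rw [← hun]; exact Finset.subset_union_left
      have s1 : A1 ⊆ A := by rw [← hun]; exact Finset.subset_union_right
      unfold Pn
      rw [if_pos hGA, if_pos (hGA.sub s0), if_pos (hGA.sub s1)]
      have hcard : (A.card : ℝ) = A0.card + A1.card := by
        rw [← hun, Finset.card_union_of_disjoint hdisj]; push_cast; ring
      have r0 := one_le_R tC (k := 3) (by norm_num) hne0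
      have r1 := one_le_R tC (k := 3) (by norm_num) hne1
      have := os taskE hn (c := 9 / 40) (by norm_num) (by norm_num) hβ hcβ (a₀ := (A0.card : ℝ))
        (a' := (A1.card : ℝ))
        (by exact_mod_cast hne0.card_pos) (by exact_mod_cast hne1.card_pos)
        (R₀ := R 3 A0) (R' := R 3 A1) (ρ := R 3 A)
        (by linarith) (by linarith) (R_sub tC (by norm_num) s0) (split hp hGA hne0 s0 s1 hv0 hv1)
      rw [← hcard] at this
      exact this
    · have : Pn n β A = 0 := by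
        unfold Pn
        rw [if_neg hGA]
      rw [this]
      have h0 := Pn_nonneg n β A0
      have h1 := Pn_nonneg n β A1
      rw [zero_pow (by omega), zero_pow (by omega)]
      positivity
  · intro a ha
    unfold Pn
    split_ifs
    · have h1 := one_le_R tC (k := 3) (by norm_num) (Finset.singleton_nonempty a)
      unfold q
      rw [Finset.card_singleton]
      refine Real.rpow_le_one (by positivity) ?_ (by positivity)
      rw [Nat.cast_one, Real.one_rpow, div_le_one (by linarith)]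
      exact h1
    · norm_num

theorem crit {n : ℕ} (hn : 2 ≤ n) {β : ℝ} (h : (40 / 9 : ℝ) ≤ ((n : ℝ) - (n - 1) * (9 / 40)) ^ β) :
    ∃ β₀ : ℝ, 0 < β₀ ∧ β₀ ≤ β ∧ ((n : ℝ) - (n - 1) * (9 / 40)) ^ β₀ = 1 / (9 / 40) := by
  have hn2 : (2:ℝ) ≤ n := by exact_mod_cast hn
  set n' : ℝ := (n : ℝ) - (n - 1) * (9 / 40) with hn'
  have hn'1 : 1 < n' := by rw [hn']; linarith
  have hlog : 0 < Real.log n' := Real.log_pos hn'1
  have hlk : 0 < Real.log (40 / 9) := Real.log_pos (by norm_num)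
  refine ⟨Real.log (40 / 9) / Real.log n', by positivity, ?_, ?_⟩
  · rw [div_le_iff₀ hlog, ← Real.log_rpow (by linarith)]
    exact Real.log_le_log (by norm_num) h
  · rw [Real.rpow_def_of_pos (by linarith), mul_div_cancel₀ _ hlog.ne', Real.exp_log (by norm_num)]
    norm_num

/-- one good set -/
theorem one_good_n {n : ℕ} (hn : 2 ≤ n) {β : ℝ}
    (h : (40 / 9 : ℝ) ≤ ((n : ℝ) - (n - 1) * (9 / 40)) ^ β)
    (A : Finset ℤ) (hA : A.Nonempty) (hG : Good A) :
    (A.card : ℝ) ^ (3 * (1 + β)) ≤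
      ((sumset 3 A).card : ℝ) * ((prodset fun _ : Fin n => A).card : ℝ) ^ (3 * β) := by
  obtain ⟨β₀, hβ₀, hle, hcrit⟩ := crit hn h
  have hn1 : 1 ≤ n := by omega
  have h := prod_n hn hβ₀ hcrit (fun _ => A) (fun _ => hA) (fun _ => hG)
  have hR := one_le_R tC (k := 3) (by norm_num) hA
  have hR0 : 0 < R 3 A := by linarith
  have hcard : (1:ℝ) ≤ A.card := by exact_mod_cast hA.card_pos
  have hcard0 : (0:ℝ) < A.card := by linarith
  rw [Finset.prod_const, Finset.card_univ, Fintype.card_fin, q_pow n hn1 hβ₀ hcard0 hR0] at h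
  have h2 := Real.rpow_le_rpow (by positivity) h hβ₀.le
  rw [← Real.rpow_mul (by positivity)] at h2
  have e : 1 / β₀ * β₀ = 1 := by field_simp
  rw [e, Real.rpow_one, div_le_iff₀ hR0] at h2
  have h3 := pow_le_pow_left₀ (by positivity) h2 3
  have h4 := R_pow tC (k := 3) (by norm_num) hA
  have hP : (A.card : ℝ) ≤ (prodset fun _ : Fin n => A).card := by
    exact_mod_cast card_le_prodset (by omega) (fun _ => A) (fun _ => hA) (fun _ => hG.1)
      ⟨0, by omega⟩
  obtain ⟨P, hPdef⟩ : ∃ P : ℝ, P = ((prodset fun _ : Fin n => A).card : ℝ) := ⟨_, rfl⟩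
  rw [← hPdef] at hP h3 ⊢
  have hP0 : 0 < P := by linarith
  have h5 : (A.card : ℝ) ^ (3 * (1 + β₀)) ≤ ((sumset 3 A).card : ℝ) * P ^ (3 * β₀) := by
    calc (A.card : ℝ) ^ (3 * (1 + β₀)) = ((A.card : ℝ) ^ (1 + β₀)) ^ 3 := by
          rw [← Real.rpow_natCast, ← Real.rpow_mul hcard0.le, mul_comm]
          norm_num
      _ ≤ _ := h3
      _ = R 3 A ^ 3 * P ^ (3 * β₀) := by
          rw [mul_pow, mul_comm, ← Real.rpow_natCast (P ^ β₀), ← Real.rpow_mul (by positivity),
            mul_comm β₀]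
          norm_num
      _ ≤ _ := mul_le_mul_of_nonneg_right h4 (by positivity)
  have e2 : (A.card : ℝ) ^ (3 * (1 + β)) =
      (A.card : ℝ) ^ (3 * (1 + β₀)) * (A.card : ℝ) ^ (3 * (β - β₀)) := by
    rw [← Real.rpow_add hcard0]; congr 1; ring
  have e3 : P ^ (3 * β) = P ^ (3 * β₀) * P ^ (3 * (β - β₀)) := by
    rw [← Real.rpow_add hP0]; congr 1; ring
  have h6 : (A.card : ℝ) ^ (3 * (β - β₀)) ≤ P ^ (3 * (β - β₀)) :=
    Real.rpow_le_rpow hcard0.le hP (by linarith)
  rw [e2, e3]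
  calc _ ≤ (((sumset 3 A).card : ℝ) * P ^ (3 * β₀)) * P ^ (3 * (β - β₀)) := by
        apply mul_le_mul h5 h6 (by positivity) (by positivity)
    _ = _ := by ring

/-- one set -/
theorem one_n {n : ℕ} (hn : 2 ≤ n) {β : ℝ} (hβ : 0 ≤ β)
    (h : (40 / 9 : ℝ) ≤ ((n : ℝ) - (n - 1) * (9 / 40)) ^ β)
    (A : Finset ℤ) (hA : A.Nonempty) :
    (A.card : ℝ) ^ (3 * (1 + β)) ≤ 6 ^ (3 * (1 + β)) *
      (((sumset 3 A).card : ℝ) * ((prodset fun _ : Fin n => A).card : ℝ) ^ (3 * β)) := by
  by_cases h0 : ∃ a ∈ A, a ≠ 0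
  · obtain ⟨B, ε, h1, h2, h3, h4, h5⟩ := exists_good A h0
    have h := one_good_n hn h B h2 h3
    have hs : ((sumset 3 B).card : ℝ) ≤ (sumset 3 A).card := by
      exact_mod_cast card_sumset_le h1 h4 3
    have hp : ((prodset fun _ : Fin n => B).card : ℝ) ≤ (prodset fun _ : Fin n => A).card := by
      exact_mod_cast card_prodset_le (ε := fun _ => ε) (fun _ => h1) (fun _ => h4)
    have hc : (A.card : ℝ) ≤ 6 * B.card := by exact_mod_cast h5
    have h7 : (A.card : ℝ) ^ (3 * (1 + β)) ≤ (6 * B.card) ^ (3 * (1 + β)) :=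
      Real.rpow_le_rpow (by positivity) hc (by positivity)
    rw [Real.mul_rpow (by norm_num) (by positivity)] at h7
    refine h7.trans (mul_le_mul_of_nonneg_left (h.trans ?_) (by positivity))
    exact mul_le_mul hs (Real.rpow_le_rpow (by positivity) hp (by positivity)) (by positivity)
      (by positivity)
  · push Not at h0
    have hA0 : A = {0} := by
      obtain ⟨a, ha⟩ := hA
      refine Finset.eq_singleton_iff_unique_mem.2 ⟨h0 a ha ▸ ha, h0⟩
    have h1 : (1:ℝ) ≤ (sumset 3 A).card := by exact_mod_cast card_pos_sum 3 hA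
    have h2 : (1:ℝ) ≤ (prodset fun _ : Fin n => A).card := by exact_mod_cast card_pos_prod n hA
    have h3 : (1:ℝ) ≤ ((prodset fun _ : Fin n => A).card : ℝ) ^ (3 * β) :=
      Real.one_le_rpow h2 (by positivity)
    have h4 : (1:ℝ) ≤ 6 ^ (3 * (1 + β)) := Real.one_le_rpow (by norm_num) (by positivity)
    have h5 : (A.card : ℝ) ^ (3 * (1 + β)) = 1 := by
      rw [hA0, Finset.card_singleton, Nat.cast_one, Real.one_rpow]
    rw [h5]
    exact one_le_mul_of_one_le_of_one_le h4 (one_le_mul_of_one_le_of_one_le h1 h3)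

end Pool.Agent.Helper318SP3
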