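import Pool.Agent.Helper318SP3.Third

/-!
The lower bound for the sixth moment.
-/

set_option autoImplicit false

namespace Pool.Agent.Helper318SP3

open Finset Pool.Agent.H384R3.SPk Pool.Agent.H384R3.SPk.C

theorem c0_cont (f : ℤ →₀ ℝ) (m : ℕ) [NeZero m] : Continuous (c0 f m) := by
  unfold c0
  refine continuous_finsetSum _ fun τ _ => ?_
  by_cases h : τ.1 + τ.2.1 + -τ.2.2 = 0
  · simp only [h, if_true]
    exact (((bb_tr f m _).mul (bb_tr f m _)).mul (bb_tr f m _).conj).1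
  · simp only [h, if_false]
    exact continuous_const

theorem sL_cont (f : ℤ →₀ ℝ) (m : ℕ) [NeZero m] : Continuous (sL f m) := by
  unfold sL
  refine Continuous.add (continuous_finsetSum _ fun p _ => ?_)
    (continuous_finsetSum _ fun r _ => ?_)
  · exact ((bb_tr f m p).1.norm.pow 2).mul
      (((continuous_const.mul (sS_cont f m)).sub ((bb_tr f m p).1.norm.pow 2)).pow 2)
  · exact (((bb_tr f m r).1.norm.pow 2).pow 2).mul ((bb_tr f m (-r)).1.norm.pow 2)

theorem low2 {f : ℤ →₀ ℝ} (hf : ∀ n, 0 ≤ f n) (m : ℕ) [NeZero m]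
    (hadm : ∀ n ∈ f.support, Adm ((n : ℤ) : ZMod m)) :
    ∫ x in (0:ℝ)..1, (‖c0 f m x‖ ^ 2 + sL f m x) ≤ M 3 f := by
  classical
  set b : ZMod m → ℝ → ℂ := bb f m with hb
  have pb : ∀ r, Pos (b r) := fun r => bb_pos hf m r
  set Vp : ZMod m → ℝ → ℂ := fun p x => b p x * ((∑ s, b s x * (starRingEnd ℂ) (b s x)) +
    ∑ s ∈ Finset.univ.erase p, b s x * (starRingEnd ℂ) (b s x)) with hVp
  set Es : ZMod m → ℝ → ℂ := fun s x => b s x * b s x * (starRingEnd ℂ) (b (-s) x) with hEs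
  set A : ℝ → ℂ := fun x => ∑ p, Vp p x with hA
  set B : ℝ → ℂ := fun x => ∑ p, Es p x with hB
  set Rs : ℝ → ℂ := fun x => ∑ τ : ZMod m × ZMod m × ZMod m, ((rc τ : ℝ) : ℂ) * t3 f m τ x with hRs
  have pVp : ∀ p, Pos (Vp p) := fun p => (pb p).mul ((Pos.sum fun s _ => (pb s).mul (pb s).conj).add
    (Pos.sum fun s _ => (pb s).mul (pb s).conj))
  have pEs : ∀ p, Pos (Es p) := fun p => ((pb p).mul (pb p)).mul (pb (-p)).conj
  have pA : Pos A := Pos.sum fun p _ => pVp p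
  have pB : Pos B := Pos.sum fun p _ => pEs p
  have pt3 : ∀ τ, Pos (t3 f m τ) := fun τ => ((pb _).mul (pb _)).mul (pb _).conj
  have pRs : Pos Rs := by
    refine Pos.sum fun τ _ => ?_
    by_cases h1 : Adm τ.1
    · by_cases h2 : Adm τ.2.1
      · exact (pt3 τ).smul (rc_nonneg τ.1 τ.2.1 τ.2.2 h1 h2)
      · have : (fun x => ((rc τ : ℝ) : ℂ) * t3 f m τ x) = fun _ => 0 := by
          funext x
          unfold t3
          rw [bb_adm hadm h2 x]
          ring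
        rw [this]
        exact Pos.zero
    · have : (fun x => ((rc τ : ℝ) : ℂ) * t3 f m τ x) = fun _ => 0 := by
        funext x
        unfold t3
        rw [bb_adm hadm h1 x]
        ring
      rw [this]
      exact Pos.zero
  have pc0 : Pos (c0 f m) := by
    unfold c0
    refine Pos.sum fun τ _ => ?_
    by_cases h : τ.1 + τ.2.1 + -τ.2.2 = 0
    · simp only [h, if_true]
      exact pt3 τ
    · simp only [h, if_false]
      exact Pos.zero
  have eP : ∀ x, F f x * F f x * (starRingEnd ℂ) (F f x) = c0 f m x + (A x + B x) + Rs x := by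
    intro x
    have h := decomp (m := m) (fun r => b r x) (fun r => (starRingEnd ℂ) (b r x))
    rw [← map_sum] at h
    have e1 : ∑ r, b r x = F f x := bb_sum f m x
    rw [e1] at h
    exact h
  set A2 : ℝ → ℂ := fun x => ∑ p, Vp p x * (starRingEnd ℂ) (∑ q ∈ Finset.univ.erase p, Vp q x)
    with hA2
  set B2 : ℝ → ℂ := fun x => ∑ p, Es p x * (starRingEnd ℂ) (∑ q ∈ Finset.univ.erase p, Es q x)
    with hB2
  have pA2 : Pos A2 := Pos.sum fun p _ => (pVp p).mul (Pos.sum fun q _ => pVp q).conj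
  have pB2 : Pos B2 := Pos.sum fun p _ => (pEs p).mul (Pos.sum fun q _ => pEs q).conj
  have split1 : ∀ (V : ZMod m → ℝ → ℂ) (x : ℝ), (∑ p, V p x) * (starRingEnd ℂ) (∑ p, V p x) =
      (∑ p, V p x * (starRingEnd ℂ) (V p x)) +
        ∑ p, V p x * (starRingEnd ℂ) (∑ q ∈ Finset.univ.erase p, V q x) := by
    intro V x
    rw [Finset.sum_mul, ← Finset.sum_add_distrib]
    refine Finset.sum_congr rfl fun p _ => ?_
    rw [← mul_add, ← map_add]
    congr 2
    exact (Finset.add_sum_erase _ (fun q => V q x) (Finset.mem_univ p)).symm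
  have eS : ∀ x, ∑ s, b s x * (starRingEnd ℂ) (b s x) = ((sS f m x : ℝ) : ℂ) := by
    intro x
    unfold sS
    push_cast
    refine Finset.sum_congr rfl fun r _ => ?_
    have c1 := cj (b r x)
    push_cast at c1
    exact c1
  have eD1 : ∀ x, ∑ p, Vp p x * (starRingEnd ℂ) (Vp p x) =
      ((∑ p : ZMod m, ‖bb f m p x‖ ^ 2 * (2 * sS f m x - ‖bb f m p x‖ ^ 2) ^ 2 : ℝ) : ℂ) := by
    intro x
    push_cast
    refine Finset.sum_congr rfl fun p _ => ?_
    have h1 : ∑ s ∈ Finset.univ.erase p, b s x * (starRingEnd ℂ) (b s x) =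
        ((sS f m x - ‖bb f m p x‖ ^ 2 : ℝ) : ℂ) := by
      have := Finset.add_sum_erase Finset.univ (fun s => b s x * (starRingEnd ℂ) (b s x))
        (Finset.mem_univ p)
      rw [eS x, cj] at this
      push_cast at this ⊢
      rw [← this, hb]
      ring
    have h2 : Vp p x = bb f m p x * ((2 * sS f m x - ‖bb f m p x‖ ^ 2 : ℝ) : ℂ) := by
      simp only [hVp]
      rw [h1, eS x, hb]
      push_cast
      ring
    rw [h2, map_mul, Complex.conj_ofReal]
    have c1 := cj (bb f m p x)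
    push_cast at c1 ⊢
    linear_combination ((2 * (sS f m x : ℂ) - (‖bb f m p x‖ : ℂ) ^ 2) ^ 2) * c1
  have eD2 : ∀ x, ∑ p, Es p x * (starRingEnd ℂ) (Es p x) =
      ((∑ r : ZMod m, (‖bb f m r x‖ ^ 2) ^ 2 * ‖bb f m (-r) x‖ ^ 2 : ℝ) : ℂ) := by
    intro x
    push_cast
    refine Finset.sum_congr rfl fun p _ => ?_
    have c1 := cj (bb f m p x)
    have c2 := cj (bb f m (-p) x)
    simp only [hEs, map_mul, Complex.conj_conj]
    push_cast at c1 c2 ⊢
    rw [← c1, ← c2, hb]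
    ring
  set W : ℝ → ℂ := fun x => (c0 f m x * (starRingEnd ℂ) ((A x + B x) + Rs x) +
    ((A x + B x) + Rs x) * (starRingEnd ℂ) (c0 f m x)) +
    (((A x + B x) * (starRingEnd ℂ) (Rs x) + Rs x * (starRingEnd ℂ) (A x + B x)) +
    Rs x * (starRingEnd ℂ) (Rs x)) + ((A x * (starRingEnd ℂ) (B x) + B x * (starRingEnd ℂ) (A x)) +
    (A2 x + B2 x)) with hW
  have pAB := pA.add pB
  have pABR := pAB.add pRs
  have pW : Pos W := by
    refine Pos.add (Pos.add ?_ ?_) (Pos.add ?_ ?_)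
    · exact (pc0.mul pABR.conj).add (pABR.mul pc0.conj)
    · exact ((pAB.mul pRs.conj).add (pRs.mul pAB.conj)).add (pRs.mul pRs.conj)
    · exact (pA.mul pB.conj).add (pB.mul pA.conj)
    · exact pA2.add pB2
  have e6 : ∀ x, ((‖F f x‖ ^ (2 * 3) : ℝ) : ℂ) =
      ((‖c0 f m x‖ ^ 2 + sL f m x : ℝ) : ℂ) + W x := by
    intro x
    have h1 : ((‖F f x‖ ^ (2 * 3) : ℝ) : ℂ) = (F f x * F f x * (starRingEnd ℂ) (F f x)) *
        (starRingEnd ℂ) (F f x * F f x * (starRingEnd ℂ) (F f x)) := by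
      rw [cj, norm_mul, norm_mul, Complex.norm_conj]
      push_cast
      ring
    rw [h1, eP]
    have h2 : ((‖c0 f m x‖ ^ 2 + sL f m x : ℝ) : ℂ) = c0 f m x * (starRingEnd ℂ) (c0 f m x) +
        ((∑ p, Vp p x * (starRingEnd ℂ) (Vp p x)) + ∑ p, Es p x * (starRingEnd ℂ) (Es p x)) := by
      rw [eD1, eD2, cj]
      unfold sL
      push_cast
      ring
    rw [h2]
    have s1 := split1 Vp x
    have s2 := split1 Es x
    have s1' : A x * (starRingEnd ℂ) (A x) = (∑ p, Vp p x * (starRingEnd ℂ) (Vp p x)) + A2 x := s1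
    have s2' : B x * (starRingEnd ℂ) (B x) = (∑ p, Es p x * (starRingEnd ℂ) (Es p x)) + B2 x := s2
    simp only [hW, map_add]
    linear_combination s1' + s2'
  have cW := pW.cont
  have hint : ((M 3 f : ℝ) : ℂ) =
      ((∫ x in (0:ℝ)..1, (‖c0 f m x‖ ^ 2 + sL f m x) : ℝ) : ℂ) + ∫ x in (0:ℝ)..1, W x := by
    unfold M
    rw [← intervalIntegral.integral_ofReal, ← intervalIntegral.integral_ofReal,
      ← intervalIntegral.integral_add]
    · exact intervalIntegral.integral_congr fun x _ => e6 x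
    · refine Continuous.intervalIntegrable ?_ _ _
      exact Complex.continuous_ofReal.comp (((c0_cont f m).norm.pow 2).add (sL_cont f m))
    · exact cW.intervalIntegrable _ _
  have hre := congrArg Complex.re hint
  rw [Complex.add_re, Complex.ofReal_re, Complex.ofReal_re] at hre
  have := pW.integral
  linarith

/-- the comparison of `sL` with the sums over opposite classes -/
theorem sL_ge {f : ℤ →₀ ℝ} (m : ℕ) [NeZero m]
    (hadm : ∀ n ∈ f.support, Adm ((n : ℤ) : ZMod m)) (x : ℝ) :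
    sS f m x ^ 3 + 3 / 2 * (sS f m x * sT f m x ^ 2) ≤ sL f m x := by
  obtain ⟨y, hy⟩ : ∃ y : ZMod m → ℝ, y = fun r => ‖bb f m r x‖ := ⟨_, rfl⟩
  have y0 : ∀ r, 0 ≤ y r := fun r => by rw [hy]; exact norm_nonneg _
  have yz : ∀ r : ZMod m, r = -r → y r = 0 := by
    intro r hr
    rw [hy]
    show ‖bb f m r x‖ = 0
    rw [bb_adm hadm (fun h => h.2.1 hr) x, norm_zero]
  obtain ⟨S, hS⟩ : ∃ S : ℝ, S = sS f m x := ⟨_, rfl⟩
  obtain ⟨T, hT⟩ : ∃ T : ℝ, T = sT f m x := ⟨_, rfl⟩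
  have eS : S = ∑ r, y r ^ 2 := by rw [hS, hy]; rfl
  have eT : T = ∑ r, y r * y (-r) := by rw [hT, hy]; rfl
  have eL : sL f m x = (∑ p, y p ^ 2 * (2 * S - y p ^ 2) ^ 2) +
      ∑ r, (y r ^ 2) ^ 2 * y (-r) ^ 2 := by rw [hS, hy]; rfl
  obtain ⟨O, hO⟩ : ∃ O : ℝ, O = ∑ r, y r ^ 2 * (S - y r ^ 2 - y (-r) ^ 2) := ⟨_, rfl⟩
  obtain ⟨Q, hQ⟩ : ∃ Q : ℝ, Q = ∑ r, y r ^ 2 * y (-r) ^ 2 := ⟨_, rfl⟩
  have hS0 : 0 ≤ S := by rw [eS]; exact Finset.sum_nonneg fun _ _ => sq_nonneg _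
  have sle : ∀ r, y r ^ 2 ≤ S := by
    intro r
    rw [eS]
    exact Finset.single_le_sum (f := fun r => y r ^ 2) (fun _ _ => sq_nonneg _)
      (Finset.mem_univ r)
  have sum_off : ∀ r, y r ^ 2 * (S - y r ^ 2 - y (-r) ^ 2) =
      ∑ s, if s ≠ r ∧ s ≠ -r then y r ^ 2 * y s ^ 2 else 0 := by
    intro r
    by_cases hr : r = -r
    · rw [yz r hr]
      simp
    · have h1 : S = ∑ s, ((if s ≠ r ∧ s ≠ -r then y s ^ 2 else 0) + (if s = r then y s ^ 2 else 0) +
          (if s = -r then y s ^ 2 else 0)) := by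
        rw [eS]
        refine Finset.sum_congr rfl fun s _ => ?_
        by_cases h2 : s = r
        · subst h2
          simp [hr]
        · by_cases h3 : s = -r
          · have h4 : -r ≠ r := fun h => hr h.symm
            subst h3
            simp [h4]
          · simp [h2, h3]
      rw [Finset.sum_add_distrib, Finset.sum_add_distrib, Finset.sum_ite_eq', Finset.sum_ite_eq',
        if_pos (Finset.mem_univ _), if_pos (Finset.mem_univ _)] at h1
      have h5 : ∑ s, (if s ≠ r ∧ s ≠ -r then y r ^ 2 * y s ^ 2 else 0) =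
          y r ^ 2 * ∑ s, (if s ≠ r ∧ s ≠ -r then y s ^ 2 else 0) := by
        rw [Finset.mul_sum]
        refine Finset.sum_congr rfl fun s _ => ?_
        split_ifs <;> ring
      rw [h5]
      congr 1
      linarith
  have hO2 : O = ∑ p : ZMod m × ZMod m, if p.2 ≠ p.1 ∧ p.2 ≠ -p.1 then y p.1 ^ 2 * y p.2 ^ 2
      else 0 := by
    rw [hO, Fintype.sum_prod_type]
    exact Finset.sum_congr rfl fun r _ => sum_off r
  have hO3 : O = ∑ p : ZMod m × ZMod m, if p.2 ≠ p.1 ∧ p.2 ≠ -p.1 then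
      y (-p.1) ^ 2 * y (-p.2) ^ 2 else 0 := by
    rw [hO2]
    refine Fintype.sum_equiv ((Equiv.neg (ZMod m)).prodCongr (Equiv.neg (ZMod m))) _ _ ?_
    intro p
    simp [neg_eq_iff_eq_neg]
  have hO0 : 0 ≤ O := by
    rw [hO2]
    refine Finset.sum_nonneg fun p _ => ?_
    split_ifs
    · positivity
    · exact le_rfl
  have hT2 : T ^ 2 ≤ 2 * Q + O := by
    have e1 : T ^ 2 = ∑ p : ZMod m × ZMod m, (y p.1 * y (-p.1)) * (y p.2 * y (-p.2)) := by
      rw [eT, sq, Finset.sum_mul_sum, Fintype.sum_prod_type]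
    have q1 : Q = ∑ p : ZMod m × ZMod m, if p.2 = p.1 then y p.1 ^ 2 * y (-p.1) ^ 2 else 0 := by
      rw [hQ, Fintype.sum_prod_type]
      refine Finset.sum_congr rfl fun r _ => ?_
      simp
    have q2 : Q = ∑ p : ZMod m × ZMod m, if p.2 = -p.1 then y p.1 ^ 2 * y (-p.1) ^ 2 else 0 := by
      rw [hQ, Fintype.sum_prod_type]
      refine Finset.sum_congr rfl fun r _ => ?_
      simp
    have key : T ^ 2 ≤ ∑ p : ZMod m × ZMod m,
        ((if p.2 = p.1 then y p.1 ^ 2 * y (-p.1) ^ 2 else 0) +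
        (if p.2 = -p.1 then y p.1 ^ 2 * y (-p.1) ^ 2 else 0) +
        ((if p.2 ≠ p.1 ∧ p.2 ≠ -p.1 then y p.1 ^ 2 * y p.2 ^ 2 else 0) / 2 +
        (if p.2 ≠ p.1 ∧ p.2 ≠ -p.1 then y (-p.1) ^ 2 * y (-p.2) ^ 2 else 0) / 2)) := by
      rw [e1]
      refine Finset.sum_le_sum fun p _ => ?_
      by_cases h1 : p.2 = p.1
      · have a0 : 0 ≤ (if p.2 = -p.1 then y p.1 ^ 2 * y (-p.1) ^ 2 else 0) := by
          split_ifs
          · positivity
          · exact le_rfl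
        have a1 : ¬ (p.2 ≠ p.1 ∧ p.2 ≠ -p.1) := fun h => h.1 h1
        rw [if_pos h1, if_neg a1, if_neg a1, h1] at *
        nlinarith
      · by_cases h2 : p.2 = -p.1
        · have a1 : ¬ (p.2 ≠ p.1 ∧ p.2 ≠ -p.1) := fun h => h.2 h2
          rw [if_neg h1, if_pos h2, if_neg a1, if_neg a1, h2, neg_neg]
          nlinarith
        · have a1 : (p.2 ≠ p.1 ∧ p.2 ≠ -p.1) := ⟨h1, h2⟩
          rw [if_neg h1, if_neg h2, if_pos a1, if_pos a1]
          nlinarith [sq_nonneg (y p.1 * y p.2 - y (-p.1) * y (-p.2))]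
    rw [Finset.sum_add_distrib, Finset.sum_add_distrib, Finset.sum_add_distrib, ← Finset.sum_div,
      ← Finset.sum_div, ← q1, ← q2, ← hO2, ← hO3] at key
    linarith
  -- the cubic comparison
  obtain ⟨Y2, hY2⟩ : ∃ Y : ℝ, Y = ∑ r, (y r ^ 2) ^ 2 := ⟨_, rfl⟩
  have hSq : S ^ 2 = Y2 + Q + O := by
    rw [hY2, hQ, hO, ← Finset.sum_add_distrib, ← Finset.sum_add_distrib]
    have : S ^ 2 = ∑ r, y r ^ 2 * S := by
      rw [← Finset.sum_mul, ← eS]; ring
    rw [this]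
    refine Finset.sum_congr rfl fun r _ => ?_
    ring
  have hL : sL f m x = 4 * S ^ 3 - 4 * S * Y2 + (∑ r, (y r ^ 2) ^ 3) +
      ∑ r, (y r ^ 2) ^ 2 * y (-r) ^ 2 := by
    rw [eL]
    congr 1
    have : 4 * S ^ 3 - 4 * S * Y2 + (∑ r, (y r ^ 2) ^ 3) =
        ∑ r, (4 * S ^ 2 * y r ^ 2 - 4 * S * (y r ^ 2) ^ 2 + (y r ^ 2) ^ 3) := by
      rw [Finset.sum_add_distrib, Finset.sum_sub_distrib, ← Finset.mul_sum, ← Finset.mul_sum,
        ← eS, ← hY2]
      ring
    rw [this]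
    refine Finset.sum_congr rfl fun r _ => ?_
    ring
  have hSO : ∑ r, (y r ^ 2) ^ 2 * (S - y r ^ 2 - y (-r) ^ 2) ≤ S * O := by
    rw [hO, Finset.mul_sum]
    refine Finset.sum_le_sum fun r _ => ?_
    have h1 : 0 ≤ y r ^ 2 * (S - y r ^ 2 - y (-r) ^ 2) := by
      rw [sum_off r]
      refine Finset.sum_nonneg fun s _ => ?_
      split_ifs
      · positivity
      · exact le_rfl
    have h2 := sle r
    calc (y r ^ 2) ^ 2 * (S - y r ^ 2 - y (-r) ^ 2) =
        y r ^ 2 * (y r ^ 2 * (S - y r ^ 2 - y (-r) ^ 2)) := by ring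
      _ ≤ S * (y r ^ 2 * (S - y r ^ 2 - y (-r) ^ 2)) := mul_le_mul_of_nonneg_right h2 h1
  have hSY : S * Y2 = (∑ r, (y r ^ 2) ^ 3) + (∑ r, (y r ^ 2) ^ 2 * y (-r) ^ 2) +
      ∑ r, (y r ^ 2) ^ 2 * (S - y r ^ 2 - y (-r) ^ 2) := by
    rw [hY2, Finset.mul_sum, ← Finset.sum_add_distrib, ← Finset.sum_add_distrib]
    refine Finset.sum_congr rfl fun r _ => ?_
    ring
  rw [← hS, ← hT, hL]
  have h1 : S * T ^ 2 ≤ S * (2 * Q + O) := mul_le_mul_of_nonneg_left hT2 hS0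
  have h2 : S ^ 3 = S * (Y2 + Q + O) := by rw [← hSq]; ring
  have h3 : 0 ≤ S * O := mul_nonneg hS0 hO0
  nlinarith

end Pool.Agent.Helper318SP3
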