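import Pool.Agent.Helper318SP3.OneSet4

/-!
Three sums against `n` products.
-/

set_option autoImplicit false

namespace Pool.Agent.Helper318SP3

open Finset Pool.Agent.H384R3.SPk Pool.Agent.H384R3.SPk.C

open Classical in
/-- the potential of a good set -/
noncomputable def Pq (n : ℕ) (β : ℝ) (A : Finset ℤ) : ℝ :=
  if Good2 A then q n β A.card (R 3 A) else 0

theorem Pq_nonneg (n : ℕ) (β : ℝ) (A : Finset ℤ) : 0 ≤ Pq n β A := by
  unfold Pq
  split_ifs
  · exact q_nonneg n β (Nat.cast_nonneg _) (R3_nonneg A)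
  · exact le_rfl

theorem prod_c {n : ℕ} (hn : 2 ≤ n) {β : ℝ} (hβ : 0 < β) (hK : Crit n β)
    (A : Fin n → Finset ℤ) (hA : ∀ i, (A i).Nonempty) (hG : ∀ i, Good2 (A i)) :
    ∏ i, q n β (A i).card (R 3 (A i)) ≤ ((prodset A).card : ℝ) := by
  have h := taskD n (by omega) (Pq n β) (Pq_nonneg n β) ?_ ?_ A hA (fun i => (hG i).1.1)
  · refine le_trans (le_of_eq ?_) h
    refine Finset.prod_congr rfl fun i _ => ?_
    unfold Pq
    rw [if_pos (hG i)]
  · intro p A A0 A1 j hp hpos hne0 hne1 hdisj hun hv0 hv1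
    by_cases hGA : Good2 A
    · have s0 : A0 ⊆ A := by rw [← hun]; exact Finset.subset_union_left
      have s1 : A1 ⊆ A := by rw [← hun]; exact Finset.subset_union_right
      unfold Pq
      rw [if_pos hGA, if_pos (hGA.sub s0), if_pos (hGA.sub s1)]
      have hcard : (A.card : ℝ) = A0.card + A1.card := by
        rw [← hun, Finset.card_union_of_disjoint hdisj]; push_cast; ring
      have r0 := one_le_R tC (k := 3) (by norm_num) hne0
      have r1 := one_le_R tC (k := 3) (by norm_num) hne1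
      have := os4 hn hβ hK (a₀ := (A0.card : ℝ)) (a' := (A1.card : ℝ))
        (by exact_mod_cast hne0.card_pos) (by exact_mod_cast hne1.card_pos)
        (R₀ := R 3 A0) (R' := R 3 A1) (ρ := R 3 A)
        (by linarith) (by linarith) (R_sub tC (by norm_num) s0)
        (split4 hp hGA hne0 s0 s1 hv0 hv1)
      rw [← hcard] at this
      exact this
    · have : Pq n β A = 0 := by
        unfold Pq
        rw [if_neg hGA]
      rw [this]
      have h0 := Pq_nonneg n β A0
      have h1 := Pq_nonneg n β A1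
      rw [zero_pow (by omega), zero_pow (by omega)]
      positivity
  · intro a ha
    unfold Pq
    split_ifs
    · have h1 := one_le_R tC (k := 3) (by norm_num) (Finset.singleton_nonempty a)
      unfold q
      rw [Finset.card_singleton]
      refine Real.rpow_le_one (by positivity) ?_ (by positivity)
      rw [Nat.cast_one, Real.one_rpow, div_le_one (by linarith)]
      exact h1
    · norm_num

theorem n_good {n : ℕ} (hn : 2 ≤ n) {β₀ β : ℝ} (hβ₀ : 0 < β₀) (hle : β₀ ≤ β) (hK : Crit n β₀)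
    (A : Fin n → Finset ℤ) (hA : ∀ i, (A i).Nonempty) (hG : ∀ i, Good2 (A i)) :
    ∏ i, ((A i).card : ℝ) ^ (3 * (1 + β)) ≤
      (∏ i, ((sumset 3 (A i)).card : ℝ)) * ((prodset A).card : ℝ) ^ (3 * n * β) := by
  have hn1 : 1 ≤ n := by omega
  have hm := prod_c hn hβ₀ hK A hA hG
  have hR : ∀ i, 1 ≤ R 3 (A i) := fun i => one_le_R tC (by norm_num) (hA i)
  have hR0 : ∀ i, 0 < R 3 (A i) := fun i => by have := hR i; linarith
  have hcard : ∀ i, (1:ℝ) ≤ (A i).card := fun i => by exact_mod_cast (hA i).card_pos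
  have hcard0 : ∀ i, (0:ℝ) < (A i).card := fun i => by have := hcard i; linarith
  have hAp : ∀ i, ∀ a ∈ A i, 0 < a := fun i => (hG i).1.1
  have hle1 : ∀ i, ((A i).card : ℝ) ≤ (prodset A).card := fun i => by
    exact_mod_cast card_le_prodset hn1 A hA hAp i
  have hP0 : (0:ℝ) < (prodset A).card := lt_of_lt_of_le (hcard0 ⟨0, by omega⟩) (hle1 _)
  obtain ⟨P, hP⟩ : ∃ P : ℝ, P = ((prodset A).card : ℝ) := ⟨_, rfl⟩
  rw [← hP] at hm hle1 hP0 ⊢
  have hq0 : ∀ i, 0 ≤ q n β₀ (A i).card (R 3 (A i)) := fun i =>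
    q_nonneg n β₀ (hcard0 i).le (hR0 i).le
  have h2 := Real.rpow_le_rpow (Finset.prod_nonneg fun i _ => hq0 i) hm
    (show 0 ≤ (n:ℝ) * β₀ by positivity)
  rw [← Real.finsetProd_rpow _ _ (fun i _ => hq0 i)] at h2
  have e1 : ∀ i ∈ (Finset.univ : Finset (Fin n)),
      (q n β₀ (A i).card (R 3 (A i))) ^ ((n:ℝ) * β₀) = ((A i).card : ℝ) ^ (1 + β₀) / R 3 (A i) :=
    fun i _ => q_rpow n hn1 hβ₀ (hcard0 i) (hR0 i)
  rw [Finset.prod_congr rfl e1] at h2
  have h3 := pow_le_pow_left₀ (Finset.prod_nonneg fun i _ => by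
    have := hR0 i; positivity) h2 3
  rw [← Finset.prod_pow] at h3
  have h4 : ∀ i, ((A i).card : ℝ) ^ (3 * (1 + β₀)) ≤
      ((sumset 3 (A i)).card : ℝ) * (((A i).card : ℝ) ^ (1 + β₀) / R 3 (A i)) ^ 3 := by
    intro i
    have hp := R_pow tC (k := 3) (by norm_num) (hA i)
    have hi := hR0 i
    have e : ((A i).card : ℝ) ^ (3 * (1 + β₀)) =
        R 3 (A i) ^ 3 * (((A i).card : ℝ) ^ (1 + β₀) / R 3 (A i)) ^ 3 := by
      have e2 : ((A i).card : ℝ) ^ (3 * (1 + β₀)) = (((A i).card : ℝ) ^ (1 + β₀)) ^ 3 := by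
        rw [← Real.rpow_natCast, ← Real.rpow_mul (hcard0 i).le, mul_comm]
        norm_num
      rw [e2, div_pow]
      field_simp
    rw [e]
    exact mul_le_mul_of_nonneg_right hp (by positivity)
  have e5 : (P ^ ((n:ℝ) * β₀)) ^ 3 = P ^ (3 * n * β₀) := by
    rw [← Real.rpow_natCast, ← Real.rpow_mul hP0.le]
    congr 1
    push_cast
    ring
  rw [e5] at h3
  have h6 : ∏ i, ((A i).card : ℝ) ^ (3 * (1 + β₀)) ≤
      (∏ i, ((sumset 3 (A i)).card : ℝ)) * P ^ (3 * n * β₀) := by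
    calc _ ≤ ∏ i, (((sumset 3 (A i)).card : ℝ) *
          (((A i).card : ℝ) ^ (1 + β₀) / R 3 (A i)) ^ 3) :=
          Finset.prod_le_prod (fun i _ => by positivity) fun i _ => h4 i
      _ = (∏ i, ((sumset 3 (A i)).card : ℝ)) *
          ∏ i, (((A i).card : ℝ) ^ (1 + β₀) / R 3 (A i)) ^ 3 := by rw [Finset.prod_mul_distrib]
      _ ≤ _ := mul_le_mul_of_nonneg_left h3 (Finset.prod_nonneg fun i _ => by positivity)
  have h7 : ∏ i, ((A i).card : ℝ) ^ (3 * (β - β₀)) ≤ P ^ (3 * n * (β - β₀)) := by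
    calc ∏ i, ((A i).card : ℝ) ^ (3 * (β - β₀)) ≤ ∏ _i : Fin n, P ^ (3 * (β - β₀)) := by
          refine Finset.prod_le_prod (fun i _ => by have := hcard i; positivity) fun i _ => ?_
          exact Real.rpow_le_rpow (by positivity) (hle1 i) (by linarith)
      _ = _ := by
          rw [Finset.prod_const, Finset.card_univ, Fintype.card_fin, ← Real.rpow_natCast,
            ← Real.rpow_mul hP0.le]
          congr 1
          ring
  have e8 : ∏ i, ((A i).card : ℝ) ^ (3 * (1 + β)) =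
      (∏ i, ((A i).card : ℝ) ^ (3 * (1 + β₀))) * ∏ i, ((A i).card : ℝ) ^ (3 * (β - β₀)) := by
    rw [← Finset.prod_mul_distrib]
    refine Finset.prod_congr rfl fun i _ => ?_
    rw [← Real.rpow_add (hcard0 i)]
    congr 1
    ring
  have e9 : P ^ (3 * n * β) = P ^ (3 * n * β₀) * P ^ (3 * n * (β - β₀)) := by
    rw [← Real.rpow_add hP0]
    congr 1
    ring
  rw [e8, e9]
  calc _ ≤ ((∏ i, ((sumset 3 (A i)).card : ℝ)) * P ^ (3 * n * β₀)) * P ^ (3 * n * (β - β₀)) := by
        refine mul_le_mul h6 h7 (Finset.prod_nonneg fun i _ => by positivity) ?_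
        have : 0 ≤ ∏ i, ((sumset 3 (A i)).card : ℝ) := Finset.prod_nonneg fun i _ => by positivity
        positivity
    _ = _ := by ring

/-- the exponents we can treat -/
theorem exists_crit4 {n : ℕ} (hn : 2 ≤ n) {β : ℝ} (h : n = 4 ∧ 19 / 18 ≤ β ∨ n = 5 ∧ 9 / 10 ≤ β ∨
    500 / 133 ≤ ((n : ℝ) - (n - 1) * (133 / 500)) ^ β) : ∃ β₀ : ℝ, 0 < β₀ ∧ β₀ ≤ β ∧ Crit n β₀ := by
  rcases h with h | h | h
  · obtain ⟨h1, h2⟩ := h
    subst h1
    exact ⟨19 / 18, by norm_num, h2, crit4⟩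
  · obtain ⟨h1, h2⟩ := h
    subst h1
    exact ⟨9 / 10, by norm_num, h2, crit5⟩
  · have hn2 : (2:ℝ) ≤ n := by exact_mod_cast hn
    set n' : ℝ := (n : ℝ) - (n - 1) * (133 / 500) with hn'
    have hn'1 : 1 < n' := by rw [hn']; linarith
    have hlog : 0 < Real.log n' := Real.log_pos hn'1
    have hlk : 0 < Real.log (500 / 133) := Real.log_pos (by norm_num)
    refine ⟨Real.log (500 / 133) / Real.log n', by positivity, ?_, ?_⟩
    · rw [div_le_iff₀ hlog, ← Real.log_rpow (by linarith)]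
      exact Real.log_le_log (by norm_num) h
    · refine crit_gen hn (by positivity) ?_
      rw [← hn', Real.rpow_def_of_pos (by linarith), mul_div_cancel₀ _ hlog.ne',
        Real.exp_log (by norm_num)]
      norm_num

/-- several sets -/
theorem n_sets {n : ℕ} (hn : 2 ≤ n) {β : ℝ} (h : n = 4 ∧ 19 / 18 ≤ β ∨ n = 5 ∧ 9 / 10 ≤ β ∨
    500 / 133 ≤ ((n : ℝ) - (n - 1) * (133 / 500)) ^ β)
    (A : Fin n → Finset ℤ) (hA : ∀ i, ∃ a ∈ A i, a ≠ 0) :
    ∏ i, ((A i).card : ℝ) ^ (3 * (1 + β)) ≤ 12 ^ (3 * n * (1 + β)) *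
      ((∏ i, ((sumset 3 (A i)).card : ℝ)) * ((prodset A).card : ℝ) ^ (3 * n * β)) := by
  obtain ⟨β₀, hβ₀, hle, hK⟩ := exists_crit4 hn h
  have hβ : 0 < β := by linarith
  choose B ε h1 h2 h3 h4 h5 using fun i => exists_good2 (A i) (hA i)
  have h := n_good hn hβ₀ hle hK B h2 h3
  have hp : ((prodset B).card : ℝ) ≤ (prodset A).card := by
    exact_mod_cast card_prodset_le h1 h4
  have hs : ∏ i, ((sumset 3 (B i)).card : ℝ) ≤ ∏ i, ((sumset 3 (A i)).card : ℝ) :=
    Finset.prod_le_prod (fun i _ => by positivity) fun i _ => by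
      exact_mod_cast card_sumset_le (h1 i) (h4 i) 3
  have hc : ∏ i, ((A i).card : ℝ) ^ (3 * (1 + β)) ≤
      12 ^ (3 * n * (1 + β)) * ∏ i, ((B i).card : ℝ) ^ (3 * (1 + β)) := by
    calc ∏ i, ((A i).card : ℝ) ^ (3 * (1 + β)) ≤
          ∏ i, (12 ^ (3 * (1 + β)) * ((B i).card : ℝ) ^ (3 * (1 + β))) := by
          refine Finset.prod_le_prod (fun i _ => by positivity) fun i _ => ?_
          rw [← Real.mul_rpow (by norm_num) (by positivity)]
          exact Real.rpow_le_rpow (by positivity) (by exact_mod_cast h5 i) (by positivity)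
      _ = _ := by
          rw [Finset.prod_mul_distrib, Finset.prod_const, Finset.card_univ, Fintype.card_fin,
            ← Real.rpow_natCast, ← Real.rpow_mul (by norm_num)]
          congr 2
          ring
  have hP0 : 0 ≤ ∏ i, ((sumset 3 (A i)).card : ℝ) := Finset.prod_nonneg fun i _ => by positivity
  calc _ ≤ 12 ^ (3 * n * (1 + β)) * ∏ i, ((B i).card : ℝ) ^ (3 * (1 + β)) := hc
    _ ≤ _ := by
        refine mul_le_mul_of_nonneg_left (h.trans ?_) (by positivity)
        exact mul_le_mul hs (Real.rpow_le_rpow (by positivity) hp (by positivity)) (by positivity) hP0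

/-- one set -/
theorem n_one {n : ℕ} (hn : 2 ≤ n) {β : ℝ} (h : n = 4 ∧ 19 / 18 ≤ β ∨ n = 5 ∧ 9 / 10 ≤ β ∨
    500 / 133 ≤ ((n : ℝ) - (n - 1) * (133 / 500)) ^ β)
    (A : Finset ℤ) (hA : A.Nonempty) :
    (A.card : ℝ) ^ (3 * (1 + β)) ≤ 12 ^ (3 * (1 + β)) *
      (((sumset 3 A).card : ℝ) * ((prodset fun _ : Fin n => A).card : ℝ) ^ (3 * β)) := by
  obtain ⟨β₀, hβ₀, hle, hK⟩ := exists_crit4 hn h
  have hβ : 0 < β := by linarith
  by_cases h0 : ∃ a ∈ A, a ≠ 0
  · have hm := n_sets hn h (fun _ => A) (fun _ => h0)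
    rw [Finset.prod_const, Finset.prod_const, Finset.card_univ, Fintype.card_fin] at hm
    have e1 : (12:ℝ) ^ (3 * n * (1 + β)) = ((12:ℝ) ^ (3 * (1 + β))) ^ n := by
      rw [← Real.rpow_natCast, ← Real.rpow_mul (by norm_num)]
      congr 1
      ring
    have e2 : ((prodset fun _ : Fin n => A).card : ℝ) ^ (3 * n * β) =
        (((prodset fun _ : Fin n => A).card : ℝ) ^ (3 * β)) ^ n := by
      rw [← Real.rpow_natCast, ← Real.rpow_mul (by positivity)]
      congr 1
      ring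
    rw [e1, e2, ← mul_pow, ← mul_pow] at hm
    exact le_of_pow_le_pow_left₀ (by omega) (by positivity) hm
  · push Not at h0
    have hA0 : A = {0} := by
      obtain ⟨a, ha⟩ := hA
      refine Finset.eq_singleton_iff_unique_mem.2 ⟨h0 a ha ▸ ha, h0⟩
    have h1 : (1:ℝ) ≤ (sumset 3 A).card := by exact_mod_cast card_pos_sum 3 hA
    have h2 : (1:ℝ) ≤ (prodset fun _ : Fin n => A).card := by exact_mod_cast card_pos_prod n hA
    have h3 : (1:ℝ) ≤ ((prodset fun _ : Fin n => A).card : ℝ) ^ (3 * β) :=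
      Real.one_le_rpow h2 (by positivity)
    have h4 : (1:ℝ) ≤ 12 ^ (3 * (1 + β)) := Real.one_le_rpow (by norm_num) (by positivity)
    have h5 : (A.card : ℝ) ^ (3 * (1 + β)) = 1 := by
      rw [hA0, Finset.card_singleton, Nat.cast_one, Real.one_rpow]
    rw [h5]
    exact one_le_mul_of_one_le_of_one_le h4 (one_le_mul_of_one_le_of_one_le h1 h3)

end Pool.Agent.Helper318SP3
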