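import Mathlib

/-!
The one set inequality for `P = (a ^ 2 / R) ^ (1 / 5)` with the constant `9 / 40`.
-/

set_option autoImplicit false

namespace Pool.Agent.Helper318SP3

theorem oct {m : ℝ} (h0 : 0 ≤ m) (h1 : m ≤ 1) : 31 / 10 * m ^ 3 ≤ (1 + 31 / 40 * m ^ 4) ^ 2 := by
  have e : (1 + 31 / 40 * m ^ 4) ^ 2 - 31 / 10 * m ^ 3 = (m - 15 / 16) ^ 2 *
      (1212155583 / 1073741824 + 405349769 / 167772160 * m + 81156481 / 20971520 * m ^ 2 +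
        129735 / 65536 * m ^ 3 + 25947 / 16384 * m ^ 4 + 2883 / 2560 * m ^ 5 + 961 / 1600 * m ^ 6) +
      (2142900769 / 274877906944 - 14601465 / 2147483648 * m) := by ring
  have p1 : 0 ≤ (m - 15 / 16) ^ 2 *
      (1212155583 / 1073741824 + 405349769 / 167772160 * m + 81156481 / 20971520 * m ^ 2 +
        129735 / 65536 * m ^ 3 + 25947 / 16384 * m ^ 4 + 2883 / 2560 * m ^ 5 +
        961 / 1600 * m ^ 6) := by positivity
  have p2 : 0 ≤ 2142900769 / 274877906944 - 14601465 / 2147483648 * m := by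
    nlinarith
  linarith

theorem exists_t {m : ℝ} (h0 : 0 < m) (h1 : m < 1) : ∃ t : ℝ, 0 < t ∧ t ≤ 1 ∧
    m ^ 5 * (1 - 31 / 40 * t) + (1 - m) * t ≤ t * (1 - 31 / 40 * t) := by
  rcases le_or_gt m (95 / 100) with hm | hm
  · refine ⟨20 / 31 * m + m ^ 5 / 2, by positivity, ?_, ?_⟩
    · have h5 : m ^ 5 ≤ (95 / 100) ^ 5 := pow_le_pow_left₀ h0.le hm 5
      norm_num at h5
      linarith
    · have h := oct h0.le h1.le
      have e : (20 / 31 * m + m ^ 5 / 2) * (1 - 31 / 40 * (20 / 31 * m + m ^ 5 / 2)) -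
          (m ^ 5 * (1 - 31 / 40 * (20 / 31 * m + m ^ 5 / 2)) +
            (1 - m) * (20 / 31 * m + m ^ 5 / 2)) =
          10 / 31 * m ^ 2 * ((1 + 31 / 40 * m ^ 4) ^ 2 - 31 / 10 * m ^ 3) := by ring
      have : 0 ≤ 10 / 31 * m ^ 2 * ((1 + 31 / 40 * m ^ 4) ^ 2 - 31 / 10 * m ^ 3) :=
        mul_nonneg (by positivity) (by linarith)
      linarith
  · refine ⟨1, one_pos, le_rfl, ?_⟩
    have e : 1 * (1 - 31 / 40 * (1:ℝ)) - (m ^ 5 * (1 - 31 / 40 * 1) + (1 - m) * 1) =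
        (1 - m) * (9 / 40 * (1 + m + m ^ 2 + m ^ 3 + m ^ 4) - 1) := by ring
    have h2 : (95 / 100 : ℝ) ^ 2 ≤ m ^ 2 := pow_le_pow_left₀ (by norm_num) hm.le 2
    have h3 : (95 / 100 : ℝ) ^ 3 ≤ m ^ 3 := pow_le_pow_left₀ (by norm_num) hm.le 3
    have h4 : (95 / 100 : ℝ) ^ 4 ≤ m ^ 4 := pow_le_pow_left₀ (by norm_num) hm.le 4
    have : 0 ≤ (1 - m) * (9 / 40 * (1 + m + m ^ 2 + m ^ 3 + m ^ 4) - 1) := by
      refine mul_nonneg (by linarith) ?_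
      norm_num at h2 h3 h4
      linarith
    linarith

theorem core {x0 x1 X Y m μ : ℝ} (hx : x0 + x1 = 1) (hx0 : 0 ≤ x0) (hx1 : 0 ≤ x1)
    (hX : 0 ≤ X) (hY : 0 ≤ Y) (hY1 : Y ≤ 1) (hXY : X + 9 / 40 * Y ≤ 1) (hm : 0 < m)
    (hμ : 0 ≤ μ) (h1 : x1 ^ 2 = m ^ 5 * X) (h0 : x0 ^ 2 = μ * Y) : 1 ≤ μ + m := by
  by_contra hcon
  push Not at hcon
  have hm1 : m < 1 := by linarith
  obtain ⟨t, t0, t1, ht⟩ := exists_t hm hm1
  obtain ⟨d, hd⟩ : ∃ d : ℝ, d = 1 - 31 / 40 * t := ⟨_, rfl⟩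
  rw [← hd] at ht
  have d0 : 0 < d := by rw [hd]; linarith
  have hlin : t * X + d * Y ≤ 1 := by
    have a1 : t * (X + 9 / 40 * Y) ≤ t * 1 := mul_le_mul_of_nonneg_left hXY t0.le
    have a2 : (1 - t) * Y ≤ (1 - t) * 1 := mul_le_mul_of_nonneg_left hY1 (by linarith)
    rw [hd]
    linarith
  have m5 : 0 < m ^ 5 := by positivity
  have hA : 0 ≤ m ^ 5 * d ^ 2 * Y := by positivity
  have hB : 0 ≤ μ * t ^ 2 * X := by positivity
  have hAB : (m ^ 5 * d ^ 2 * Y) * (μ * t ^ 2 * X) = (t * d * (x1 * x0)) ^ 2 := by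
    have : (t * d * (x1 * x0)) ^ 2 = t ^ 2 * d ^ 2 * (x1 ^ 2 * x0 ^ 2) := by ring
    rw [this, h1, h0]
    ring
  have hc : 2 * (t * d * (x1 * x0)) ≤ m ^ 5 * d ^ 2 * Y + μ * t ^ 2 * X := by
    have : (2 * (t * d * (x1 * x0))) ^ 2 ≤ (m ^ 5 * d ^ 2 * Y + μ * t ^ 2 * X) ^ 2 := by
      rw [mul_pow, ← hAB]
      nlinarith [sq_nonneg (m ^ 5 * d ^ 2 * Y - μ * t ^ 2 * X)]
    exact le_of_sq_le_sq this (by positivity)
  have hfin : t * d * (x0 + x1) ^ 2 ≤ (m ^ 5 * d + μ * t) * (t * X + d * Y) := by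
    have e1 : t * d * (x0 + x1) ^ 2 = t * d * x1 ^ 2 + t * d * x0 ^ 2 +
        2 * (t * d * (x1 * x0)) := by ring
    have e2 : (m ^ 5 * d + μ * t) * (t * X + d * Y) = t * d * (m ^ 5 * X) + t * d * (μ * Y) +
        (m ^ 5 * d ^ 2 * Y + μ * t ^ 2 * X) := by ring
    rw [e1, e2, h1, h0]
    linarith
  rw [hx, one_pow, mul_one] at hfin
  have h2 : (m ^ 5 * d + μ * t) * (t * X + d * Y) ≤ (m ^ 5 * d + μ * t) * 1 :=
    mul_le_mul_of_nonneg_left hlin (by positivity)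
  have h3 : μ * t < (1 - m) * t := mul_lt_mul_of_pos_right (by linarith) t0
  linarith

/-- the potential -/
noncomputable def pt5 (a r : ℝ) : ℝ := (a ^ 2 / r) ^ ((1:ℝ) / 5)

theorem pt5_pow {a r : ℝ} (hr : 0 < r) : pt5 a r ^ 5 = a ^ 2 / r := by
  unfold pt5
  rw [← Real.rpow_natCast, ← Real.rpow_mul (by positivity)]
  norm_num

theorem pt5_pos {a r : ℝ} (ha : 0 < a) (hr : 0 < r) : 0 < pt5 a r := by
  unfold pt5
  positivity

theorem os5 {a0 a1 R0 R1 ρ : ℝ} (ha0 : 0 < a0) (ha1 : 0 < a1) (hR0 : 0 < R0) (hR1 : 0 < R1)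
    (h1 : R0 ≤ ρ) (h2 : R1 + 9 / 40 * R0 ≤ ρ) :
    pt5 (a0 + a1) ρ ^ 5 ≤ pt5 a0 R0 ^ 5 + pt5 a1 R1 * pt5 (a0 + a1) ρ ^ 4 := by
  have hρ : 0 < ρ := lt_of_lt_of_le hR0 h1
  obtain ⟨a, ha⟩ : ∃ a : ℝ, a = a0 + a1 := ⟨_, rfl⟩
  have hapos : 0 < a := by rw [ha]; linarith
  rw [← ha]
  obtain ⟨p, hp⟩ : ∃ p : ℝ, p = pt5 a ρ := ⟨_, rfl⟩
  obtain ⟨p1, hp1⟩ : ∃ p : ℝ, p = pt5 a1 R1 := ⟨_, rfl⟩
  have p0 : 0 < p := by rw [hp]; exact pt5_pos hapos hρ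
  have p10 : 0 < p1 := by rw [hp1]; exact pt5_pos ha1 hR1
  have hp5 : p ^ 5 = a ^ 2 / ρ := by rw [hp]; exact pt5_pow hρ
  have hp15 : p1 ^ 5 = a1 ^ 2 / R1 := by rw [hp1]; exact pt5_pow hR1
  rw [← hp, ← hp1, pt5_pow hR0]
  have key := core (x0 := a0 / a) (x1 := a1 / a) (X := R1 / ρ) (Y := R0 / ρ) (m := p1 / p)
    (μ := (a0 ^ 2 / R0) / p ^ 5) (by rw [← add_div, ← ha]; field_simp) (by positivity)
    (by positivity) (by positivity) (by positivity) (by rw [div_le_one hρ]; exact h1)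
    (by
      have : R1 / ρ + 9 / 40 * (R0 / ρ) = (R1 + 9 / 40 * R0) / ρ := by ring
      rw [this, div_le_one hρ]; exact h2) (by positivity) (by positivity)
    (by rw [div_pow, div_pow, hp5, hp15]; field_simp)
    (by rw [div_pow, hp5]; field_simp)
  have h5 : 0 < p ^ 5 := by positivity
  have h6 := mul_le_mul_of_nonneg_right key h5.le
  have e : ((a0 ^ 2 / R0) / p ^ 5 + p1 / p) * p ^ 5 = a0 ^ 2 / R0 + p1 * p ^ 4 := by
    field_simp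
  rw [e, one_mul] at h6
  exact h6

end Pool.Agent.Helper318SP3
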