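import Pool.Agent.Helper318SP3.Func4

/-!
The one set inequality for the constant `133 / 500`.
-/

set_option autoImplicit false

namespace Pool.Agent.Helper318SP3

open Finset Pool.Agent.H384R3.SPk Pool.Agent.H384R3.SPk.C

/-- the numerical criterion -/
def Crit (n : ℕ) (β : ℝ) : Prop := ∀ Q u : ℝ, 0 ≤ Q → Q ≤ 1 → 0 ≤ u → u ≤ 1 →
  (1 - 133 / 500 * Q) * (1 - u) ^ ((n : ℝ) * β) ≤ (1 - (Q * u ^ β) ^ (1 / (1 + β))) ^ (1 + β)

theorem os4 {n : ℕ} (hn : 2 ≤ n) {β : ℝ} (hβ : 0 < β) (hK : Crit n β)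
    {a₀ a' R₀ R' ρ : ℝ} (ha₀ : 0 < a₀) (ha' : 0 < a') (hR₀ : 0 < R₀) (hR' : 0 < R')
    (h1 : R₀ ≤ ρ) (h2 : R' + 133 / 500 * R₀ ≤ ρ) :
    q n β (a₀ + a') ρ ^ n ≤ q n β a₀ R₀ ^ n + q n β a' R' * q n β (a₀ + a') ρ ^ (n - 1) := by
  have hρ : 0 < ρ := lt_of_lt_of_le hR₀ h1
  have ha : 0 < a₀ + a' := by linarith
  have hn1 : 1 ≤ n := by omega
  have hn0 : (0:ℝ) < n := by exact_mod_cast (show 0 < n by omega)
  set a := a₀ + a' with hadef
  set p := q n β a ρ with hp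
  have hp0 : 0 < p := q_pos n β ha hρ
  set x := a₀ / a with hx
  have hx0 : 0 < x := by positivity
  have hx1 : 1 - x = a' / a := by rw [hx]; field_simp; rw [hadef]; ring
  have hx1' : 0 < 1 - x := by rw [hx1]; positivity
  set Q := R₀ / ρ with hQ
  have hQ0 : 0 < Q := by positivity
  have hQ1 : Q ≤ 1 := by rw [hQ, div_le_one hρ]; exact h1
  set u := (x ^ (1 + β) / Q) ^ (1 / β) with hu
  have hu0 : 0 < u := by positivity
  have hp₀ : q n β a₀ R₀ ^ n = u * p ^ n := by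
    rw [q_pow n hn1 hβ ha₀ hR₀, hp, q_pow n hn1 hβ ha hρ, hu, ← Real.mul_rpow (by positivity) (by positivity)]
    congr 1
    rw [hx, hQ, Real.div_rpow ha₀.le ha.le]
    field_simp
  set v := q n β a' R' / p with hv
  have hv0 : 0 < v := div_pos (q_pos n β ha' hR') hp0
  have hcQ : 0 < 1 - 133 / 500 * Q := by nlinarith
  have hvp : (1 - x) ^ (1 + β) / (1 - 133 / 500 * Q) ≤ v ^ ((n:ℝ) * β) := by
    rw [hv, Real.div_rpow (q_nonneg n β ha'.le hR'.le) hp0.le, q_rpow n hn1 hβ ha' hR', hp,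
      q_rpow n hn1 hβ ha hρ, hx1, Real.div_rpow ha'.le ha.le]
    have e : a' ^ (1 + β) / R' / (a ^ (1 + β) / ρ) = a' ^ (1 + β) / a ^ (1 + β) / (R' / ρ) := by
      field_simp
    rw [e]
    apply div_le_div_of_nonneg_left (by positivity) (by positivity)
    rw [div_le_iff₀ hρ, hQ]
    have : (1 - 133 / 500 * (R₀ / ρ)) * ρ = ρ - 133 / 500 * R₀ := by field_simp
    rw [this]
    linarith
  have key : 1 ≤ u + v := by
    rcases le_or_gt 1 u with hu1 | hu1
    · linarith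
    · have hK := hK Q u hQ0.le hQ1 hu0.le hu1.le
      have hxu : (Q * u ^ β) ^ (1 / (1 + β)) = x := by
        rw [hu, ← Real.rpow_mul (by positivity)]
        have : 1 / β * β = 1 := by field_simp
        rw [this, Real.rpow_one]
        have : Q * (x ^ (1 + β) / Q) = x ^ (1 + β) := by field_simp
        rw [this, ← Real.rpow_mul hx0.le]
        have : (1 + β) * (1 / (1 + β)) = 1 := by field_simp
        rw [this, Real.rpow_one]
      rw [hxu] at hK
      have h3 : (1 - u) ^ ((n:ℝ) * β) ≤ (1 - x) ^ (1 + β) / (1 - 133 / 500 * Q) := by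
        rw [le_div_iff₀ hcQ]; linarith
      have h4 : (1 - u) ^ ((n:ℝ) * β) ≤ v ^ ((n:ℝ) * β) := h3.trans hvp
      have h5 : 1 - u ≤ v := by
        by_contra hcon
        push Not at hcon
        have := Real.rpow_lt_rpow hv0.le hcon (show 0 < (n:ℝ) * β by positivity)
        linarith
      linarith
  rw [hp₀]
  have e : q n β a' R' * p ^ (n - 1) = v * p ^ n := by
    rw [hv]
    have : p ^ n = p * p ^ (n - 1) := by
      rw [← pow_succ']; congr 1; omega
    rw [this]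
    field_simp
  rw [e]
  nlinarith [pow_pos hp0 n]

theorem crit_gen {n : ℕ} (hn : 2 ≤ n) {β : ℝ} (hβ : 0 < β)
    (hcβ : ((n : ℝ) - (n - 1) * (133 / 500)) ^ β = 1 / (133 / 500)) : Crit n β :=
  fun Q u h0 h1 h2 h3 => taskE n hn (133 / 500) β Q u (by norm_num) (by norm_num) hβ hcβ h0 h1 h2 h3

/-- pointwise certificate -/
def Pt (n : ℕ) (β u : ℝ) : Prop := ∃ t α γ : ℝ, 0 < t ∧ t ≤ 1 ∧ 0 < α ∧ 0 < γ ∧ 1 ≤ α ^ β * t ∧
  1 ≤ γ ^ β * (1 - 367 / 500 * t) ∧ (1 - u) ^ n * α + u * γ ≤ 1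

theorem amgm {β P Q α t : ℝ} (hβ : 0 < β) (hP : 0 ≤ P) (hQ : 0 ≤ Q) (hα : 0 < α) (ht : 0 < t)
    (h : 1 ≤ α ^ β * t) :
    (P ^ β * Q) ^ (1 / (1 + β)) ≤ β / (1 + β) * (P * α) + 1 / (1 + β) * (t * Q) := by
  have h1 : P ^ β * Q ≤ (P * α) ^ β * (t * Q) := by
    rw [Real.mul_rpow hP hα.le]
    have h2 : 0 ≤ P ^ β * Q := by positivity
    calc P ^ β * Q = P ^ β * Q * 1 := by ring
      _ ≤ P ^ β * Q * (α ^ β * t) := mul_le_mul_of_nonneg_left h h2
      _ = _ := by ring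
  have h2 := Real.rpow_le_rpow (by positivity) h1 (show 0 ≤ 1 / (1 + β) by positivity)
  refine h2.trans ?_
  rw [Real.mul_rpow (by positivity) (by positivity), ← Real.rpow_mul (by positivity)]
  have e : β * (1 / (1 + β)) = β / (1 + β) := by ring
  rw [e]
  exact Real.geom_mean_le_arith_mean2_weighted (by positivity) (by positivity) (by positivity)
    (by positivity) (by field_simp; ring)

theorem crit_of_pt {n : ℕ} {β : ℝ} (hβ : 0 < β) {Q u : ℝ} (hQ0 : 0 ≤ Q) (hQ1 : Q ≤ 1)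
    (hu0 : 0 ≤ u) (hu1 : u ≤ 1) (h : Pt n β u) :
    (1 - 133 / 500 * Q) * (1 - u) ^ ((n : ℝ) * β) ≤
      (1 - (Q * u ^ β) ^ (1 / (1 + β))) ^ (1 + β) := by
  obtain ⟨t, α, γ, ht0, ht1, hα, hγ, c1, c2, c3⟩ := h
  have hd : 0 < 1 - 367 / 500 * t := by linarith
  have hm : 0 ≤ 1 - u := by linarith
  have hX : 0 ≤ 1 - 133 / 500 * Q := by linarith
  have a1 := amgm hβ (P := (1 - u) ^ n) (Q := 1 - 133 / 500 * Q) (by positivity) hX hα ht0 c1
  have a2 := amgm hβ (P := u) (Q := Q) hu0 hQ0 hγ hd c2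
  have e1 : ((1 - u) ^ n) ^ β = (1 - u) ^ ((n : ℝ) * β) := by
    rw [← Real.rpow_natCast, ← Real.rpow_mul hm]
  rw [e1] at a1
  rw [mul_comm (u ^ β) Q] at a2
  have w1 : 0 < β / (1 + β) := by positivity
  have w2 : 0 < 1 / (1 + β) := by positivity
  have w12 : β / (1 + β) + 1 / (1 + β) = 1 := by field_simp; ring
  have b1 : β / (1 + β) * ((1 - u) ^ n * α + u * γ) ≤ β / (1 + β) * 1 :=
    mul_le_mul_of_nonneg_left c3 w1.le
  have b2 : 1 / (1 + β) * (t * (1 - 133 / 500 * Q) + (1 - 367 / 500 * t) * Q) ≤ 1 / (1 + β) * 1 := by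
    refine mul_le_mul_of_nonneg_left ?_ w2.le
    nlinarith [mul_nonneg (sub_nonneg.2 ht1) (sub_nonneg.2 hQ1)]
  have hsum : ((1 - u) ^ ((n : ℝ) * β) * (1 - 133 / 500 * Q)) ^ (1 / (1 + β)) ≤
      1 - (Q * u ^ β) ^ (1 / (1 + β)) := by
    linarith
  have h0 : 0 ≤ (1 - u) ^ ((n : ℝ) * β) * (1 - 133 / 500 * Q) := by positivity
  have h3 := Real.rpow_le_rpow (by positivity) hsum (show 0 ≤ 1 + β by positivity)
  rw [← Real.rpow_mul h0] at h3
  have e : 1 / (1 + β) * (1 + β) = 1 := by field_simp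
  rw [e, Real.rpow_one] at h3
  linarith

theorem numchk {p k : ℕ} (hk : 0 < k) {α t : ℝ} (hα : 0 < α) (ht : 0 < t)
    (h : 1 ≤ α ^ p * t ^ k) : 1 ≤ α ^ ((p : ℝ) / k) * t := by
  have hk' : (k : ℝ) ≠ 0 := by exact_mod_cast hk.ne'
  have e : (α ^ ((p : ℝ) / k) * t) ^ k = α ^ p * t ^ k := by
    rw [mul_pow, ← Real.rpow_natCast (α ^ ((p : ℝ) / k)), ← Real.rpow_mul hα.le,
      div_mul_cancel₀ _ hk', Real.rpow_natCast]
  by_contra hcon
  push Not at hcon
  have h0 : 0 ≤ α ^ ((p : ℝ) / k) * t := by positivity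
  have := pow_lt_one₀ h0 hcon hk.ne'
  rw [e] at this
  linarith

theorem mk {n p k : ℕ} {a b t α γ β u : ℝ} (hk : 0 < k) (hβ : (p : ℝ) / k = β) (ht0 : 0 < t)
    (ht1 : t ≤ 1) (hα : 0 < α) (hγ : 0 < γ) (hab : a < b) (h0 : a ≤ u) (h1 : u ≤ b) (hb : b ≤ 1)
    (c1 : 1 ≤ α ^ p * t ^ k) (c2 : 1 ≤ γ ^ p * (1 - 367 / 500 * t) ^ k)
    (g0 : (1 - a) ^ n * α + a * γ ≤ 1) (g1 : (1 - b) ^ n * α + b * γ ≤ 1) : Pt n β u := by
  refine ⟨t, α, γ, ht0, ht1, hα, hγ, ?_, ?_, ?_⟩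
  · rw [← hβ]; exact numchk hk hα ht0 c1
  · rw [← hβ]; exact numchk hk hγ (by linarith) c2
  · have hd : 0 < b - a := by linarith
    obtain ⟨x, hx⟩ : ∃ x : ℝ, x = (b - u) / (b - a) := ⟨_, rfl⟩
    obtain ⟨y, hy⟩ : ∃ y : ℝ, y = (u - a) / (b - a) := ⟨_, rfl⟩
    have x0 : 0 ≤ x := by rw [hx]; exact div_nonneg (by linarith) hd.le
    have y0 : 0 ≤ y := by rw [hy]; exact div_nonneg (by linarith) hd.le
    have hxy : x + y = 1 := by rw [hx, hy]; field_simp; ring
    have hu : u = x * a + y * b := by rw [hx, hy]; field_simp; ring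
    have hc := (convexOn_pow n).2 (show (1 - a) ∈ Set.Ici (0:ℝ) from by
      show (0:ℝ) ≤ 1 - a
      linarith) (show (1 - b) ∈ Set.Ici (0:ℝ) from by
      show (0:ℝ) ≤ 1 - b
      linarith) x0 y0 hxy
    simp only [smul_eq_mul] at hc
    have e : x * (1 - a) + y * (1 - b) = 1 - u := by rw [hu]; linarith
    rw [e] at hc
    have h3 := mul_le_mul_of_nonneg_right hc hα.le
    have h4 := mul_le_mul_of_nonneg_left g0 x0
    have h5 := mul_le_mul_of_nonneg_left g1 y0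
    have e2 : u * γ = x * (a * γ) + y * (b * γ) := by rw [hu]; ring
    rw [e2]
    linarith

/-- the tail -/
theorem tail {n : ℕ} {β : ℝ} (hβ : 0 < β) (hn : 0 ≤ (n : ℝ) * β - (1 + β))
    (hnum : ((1:ℝ) / 2) ^ ((n : ℝ) * β - (1 + β)) ≤ (β / (1 + β)) ^ (1 + β)) {Q u : ℝ}
    (hQ0 : 0 ≤ Q) (hQ1 : Q ≤ 1) (hu0 : 1 / 2 ≤ u) (hu1 : u ≤ 1) :
    (1 - 133 / 500 * Q) * (1 - u) ^ ((n : ℝ) * β) ≤
      (1 - (Q * u ^ β) ^ (1 / (1 + β))) ^ (1 + β) := by
  have hm : 0 ≤ 1 - u := by linarith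
  have hw : 0 < β / (1 + β) := by positivity
  have hub : 0 ≤ u ^ β := Real.rpow_nonneg (by linarith) _
  have hL : (1 - 133 / 500 * Q) * (1 - u) ^ ((n : ℝ) * β) ≤ (1 - u) ^ ((n : ℝ) * β) := by
    have : 0 ≤ (1 - u) ^ ((n : ℝ) * β) := Real.rpow_nonneg hm _
    nlinarith
  -- lower bound for the right hand side
  have h1 : (Q * u ^ β) ^ (1 / (1 + β)) ≤ 1 - β / (1 + β) * (1 - u) := by
    have h2 : (Q * u ^ β) ^ (1 / (1 + β)) ≤ (u ^ β) ^ (1 / (1 + β)) := by
      refine Real.rpow_le_rpow (by positivity) ?_ (by positivity)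
      nlinarith
    have h3 : (u ^ β) ^ (1 / (1 + β)) = u ^ (β / (1 + β)) := by
      rw [← Real.rpow_mul (by linarith)]
      congr 1
      ring
    have h4 : u ^ (β / (1 + β)) ≤ 1 + β / (1 + β) * (u - 1) := by
      have h5 := rpow_one_add_le_one_add_mul_self (s := u - 1) (by linarith) (p := β / (1 + β))
        hw.le (by rw [div_le_one (by positivity)]; linarith)
      have e : 1 + (u - 1) = u := by ring
      rw [e] at h5
      linarith
    linarith
  have h2 : β / (1 + β) * (1 - u) ≤ 1 - (Q * u ^ β) ^ (1 / (1 + β)) := by linarith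
  have h3 := Real.rpow_le_rpow (by positivity) h2 (show 0 ≤ 1 + β by positivity)
  refine hL.trans (le_trans ?_ h3)
  rcases hm.eq_or_lt with h0 | h0
  · rw [← h0, mul_zero, Real.zero_rpow (x := 1 + β) (by positivity),
      Real.zero_rpow (ne_of_gt (show 0 < (n : ℝ) * β by linarith))]
  · rw [Real.mul_rpow hw.le hm]
    have e : (1 - u) ^ ((n : ℝ) * β) = (1 - u) ^ ((n : ℝ) * β - (1 + β)) * (1 - u) ^ (1 + β) := by
      rw [← Real.rpow_add h0]
      congr 1
      ring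
    rw [e]
    refine mul_le_mul_of_nonneg_right ?_ (by positivity)
    exact (Real.rpow_le_rpow hm (by linarith) hn).trans hnum

theorem ex4 (u : ℝ) (h0 : 0 ≤ u) (h1 : u ≤ 1 / 2) : Pt 4 (19 / 18) u := by
  rcases le_total u (87 / 1000) with h | h
  · exact mk (p := 19) (k := 18) (a := 0) (b := 87 / 1000) (t := 1) (α := 1) (γ := 35063 / 10000) (by norm_num) (by norm_num) (by norm_num) (by norm_num) (by norm_num) (by norm_num) (by norm_num) h0 h (by norm_num) (by norm_num) (by norm_num) (by norm_num) (by norm_num)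
  rename' h => k0
  rcases le_total u (29 / 250) with h | h
  · exact mk (p := 19) (k := 18) (a := 87 / 1000) (b := 29 / 250) (t := 1889 / 2000) (α := 2639 / 2500) (γ := 61271 / 20000) (by norm_num) (by norm_num) (by norm_num) (by norm_num) (by norm_num) (by norm_num) (by norm_num) k0 h (by norm_num) (by norm_num) (by norm_num) (by norm_num) (by norm_num)
  rename' h => k1
  rcases le_total u (53 / 250) with h | h
  · exact mk (p := 19) (k := 18) (a := 29 / 250) (b := 53 / 250) (t := 1753 / 2000) (α := 22661 / 20000) (γ := 13279 / 5000) (by norm_num) (by norm_num) (by norm_num) (by norm_num) (by norm_num) (by norm_num) (by norm_num) k1 h (by norm_num) (by norm_num) (by norm_num) (by norm_num) (by norm_num)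
  rename' h => k2
  exact mk (p := 19) (k := 18) (a := 53 / 250) (b := 543 / 1000) (t := 1177 / 2000) (α := 661 / 400) (γ := 34177 / 20000) (by norm_num) (by norm_num) (by norm_num) (by norm_num) (by norm_num) (by norm_num) (by norm_num) k2 (by linarith) (by norm_num) (by norm_num) (by norm_num) (by norm_num) (by norm_num)

theorem ex5 (u : ℝ) (h0 : 0 ≤ u) (h1 : u ≤ 1 / 2) : Pt 5 (9 / 10) u := by
  rcases le_total u (69 / 1000) with h | h
  · exact mk (p := 9) (k := 10) (a := 0) (b := 69 / 1000) (t := 1) (α := 1) (γ := 87107 / 20000) (by norm_num) (by norm_num) (by norm_num) (by norm_num) (by norm_num) (by norm_num) (by norm_num) h0 h (by norm_num) (by norm_num) (by norm_num) (by norm_num) (by norm_num)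
  rename' h => k0
  rcases le_total u (83 / 1000) with h | h
  · exact mk (p := 9) (k := 10) (a := 69 / 1000) (b := 83 / 1000) (t := 1913 / 2000) (α := 10507 / 10000) (γ := 38399 / 10000) (by norm_num) (by norm_num) (by norm_num) (by norm_num) (by norm_num) (by norm_num) (by norm_num) k0 h (by norm_num) (by norm_num) (by norm_num) (by norm_num) (by norm_num)
  rename' h => k1
  rcases le_total u (23 / 200) with h | h
  · exact mk (p := 9) (k := 10) (a := 83 / 1000) (b := 23 / 200) (t := 1859 / 2000) (α := 21693 / 20000) (γ := 14299 / 4000) (by norm_num) (by norm_num) (by norm_num) (by norm_num) (by norm_num) (by norm_num) (by norm_num) k1 h (by norm_num) (by norm_num) (by norm_num) (by norm_num) (by norm_num)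
  rename' h => k2
  rcases le_total u (34 / 125) with h | h
  · exact mk (p := 9) (k := 10) (a := 23 / 200) (b := 34 / 125) (t := 1619 / 2000) (α := 12647 / 10000) (γ := 54477 / 20000) (by norm_num) (by norm_num) (by norm_num) (by norm_num) (by norm_num) (by norm_num) (by norm_num) k2 h (by norm_num) (by norm_num) (by norm_num) (by norm_num) (by norm_num)
  rename' h => k3
  exact mk (p := 9) (k := 10) (a := 34 / 125) (b := 139 / 200) (t := 373 / 1000) (α := 59829 / 20000) (γ := 28537 / 20000) (by norm_num) (by norm_num) (by norm_num) (by norm_num) (by norm_num) (by norm_num) (by norm_num) k3 (by linarith) (by norm_num) (by norm_num) (by norm_num) (by norm_num) (by norm_num)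

theorem num_tail {i j k : ℕ} (hk : 0 < k) {w : ℝ} (hw : 0 < w)
    (h : ((1:ℝ) / 2) ^ i ≤ w ^ j) : ((1:ℝ) / 2) ^ ((i : ℝ) / k) ≤ w ^ ((j : ℝ) / k) := by
  have hk' : (k : ℝ) ≠ 0 := by exact_mod_cast hk.ne'
  have e1 : ((1:ℝ) / 2) ^ ((i : ℝ) / k) = (((1:ℝ) / 2) ^ i) ^ ((1:ℝ) / k) := by
    rw [← Real.rpow_natCast, ← Real.rpow_mul (by norm_num)]
    congr 1
    ring
  have e2 : w ^ ((j : ℝ) / k) = (w ^ j) ^ ((1:ℝ) / k) := by
    rw [← Real.rpow_natCast, ← Real.rpow_mul hw.le]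
    congr 1
    ring
  rw [e1, e2]
  exact Real.rpow_le_rpow (by positivity) h (by positivity)

theorem crit4 : Crit 4 (19 / 18) := by
  intro Q u hQ0 hQ1 hu0 hu1
  rcases le_total u (1 / 2) with h | h
  · exact crit_of_pt (by norm_num) hQ0 hQ1 hu0 hu1 (ex4 u hu0 h)
  · refine tail (by norm_num) (by norm_num) ?_ hQ0 hQ1 h hu1
    have h1 := num_tail (i := 39) (j := 37) (k := 18) (by norm_num) (w := 19 / 37) (by norm_num)
      (by norm_num)
    have e1 : ((4 : ℕ) : ℝ) * (19 / 18) - (1 + 19 / 18) = ((39 : ℕ) : ℝ) / ((18 : ℕ) : ℝ) := by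
      norm_num
    have e2 : (1 + 19 / 18 : ℝ) = ((37 : ℕ) : ℝ) / ((18 : ℕ) : ℝ) := by norm_num
    have e3 : (19 / 18 : ℝ) / (1 + 19 / 18) = 19 / 37 := by norm_num
    rw [e1, e3, e2]
    exact h1

theorem crit5 : Crit 5 (9 / 10) := by
  intro Q u hQ0 hQ1 hu0 hu1
  rcases le_total u (1 / 2) with h | h
  · exact crit_of_pt (by norm_num) hQ0 hQ1 hu0 hu1 (ex5 u hu0 h)
  · refine tail (by norm_num) (by norm_num) ?_ hQ0 hQ1 h hu1
    have h1 := num_tail (i := 26) (j := 19) (k := 10) (by norm_num) (w := 9 / 19) (by norm_num)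
      (by norm_num)
    have e1 : ((5 : ℕ) : ℝ) * (9 / 10) - (1 + 9 / 10) = ((26 : ℕ) : ℝ) / ((10 : ℕ) : ℝ) := by
      norm_num
    have e2 : (1 + 9 / 10 : ℝ) = ((19 : ℕ) : ℝ) / ((10 : ℕ) : ℝ) := by norm_num
    have e3 : (9 / 10 : ℝ) / (1 + 9 / 10) = 9 / 19 := by norm_num
    rw [e1, e3, e2]
    exact h1

end Pool.Agent.Helper318SP3
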