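import Pool.Agent.Helper318SP3.Class

/-!
The sixth moment inequality for a set of multiples of `m` and a set of non-multiples.
-/

set_option autoImplicit false

namespace Pool.Agent.Helper318SP3

open Finset Pool.Agent.H384R3.SPk Pool.Agent.H384R3.SPk.C

theorem cj (z : ℂ) : z * (starRingEnd ℂ) z = ((‖z‖ ^ 2 : ℝ) : ℂ) := by
  rw [Complex.mul_conj']
  push_cast
  rfl

/-- lower bound for the sixth moment by the square function -/
theorem low {f : ℤ →₀ ℝ} (hf : ∀ n, 0 ≤ f n) (m : ℕ) [NeZero m] :
    ∫ x in (0:ℝ)..1, (sS f m x ^ 3 + 3 * (sS f m x * sD f m x)) ≤ M 3 f := by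
  classical
  set b : ZMod m → ℝ → ℂ := bb f m with hb
  set S : ℝ → ℂ := fun x => ∑ r, b r x * (starRingEnd ℂ) (b r x) with hS
  set Y : ZMod m × ZMod m → ℝ → ℂ := fun p x =>
    if p.1 ≠ p.2 then b p.1 x * (starRingEnd ℂ) (b p.2 x) else 0 with hY
  have pb : ∀ r, Pos (b r) := fun r => bb_pos hf m r
  have pS : Pos S := Pos.sum fun r _ => (pb r).mul (pb r).conj
  have pY : ∀ p, Pos (Y p) := by
    intro p
    by_cases h : p.1 ≠ p.2
    · simp only [hY, if_pos h]
      exact (pb _).mul (pb _).conj
    · simp only [hY, if_neg h]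
      exact Pos.zero
  set X : ℝ → ℂ := fun x => ∑ p, Y p x with hX
  have pX : Pos X := Pos.sum fun p _ => pY p
  set Z : ℝ → ℂ := fun x => ∑ p, Y p x * ∑ q ∈ Finset.univ.erase p.swap, Y q x with hZ
  have pZ : Pos Z := Pos.sum fun p _ => (pY p).mul (Pos.sum fun q _ => pY q)
  have eF : ∀ x, F f x * (starRingEnd ℂ) (F f x) = S x + X x := by
    intro x
    rw [← bb_sum f m x, map_sum, Finset.sum_mul_sum, ← Fintype.sum_prod_type']
    have h1 : ∀ p : ZMod m × ZMod m, b p.1 x * (starRingEnd ℂ) (b p.2 x) =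
        (if p.1 = p.2 then b p.1 x * (starRingEnd ℂ) (b p.1 x) else 0) + Y p x := by
      intro p
      by_cases h : p.1 = p.2
      · simp only [hY, h, if_true, ne_eq, not_true, if_false, add_zero]
      · simp only [hY, h, if_false, ne_eq, not_false_iff, if_true, zero_add]
    have h2 : ∑ p : ZMod m × ZMod m, b p.1 x * (starRingEnd ℂ) (b p.2 x) =
        ∑ p : ZMod m × ZMod m, ((if p.1 = p.2 then b p.1 x * (starRingEnd ℂ) (b p.1 x) else 0) +
          Y p x) := Finset.sum_congr rfl fun p _ => h1 p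
    refine h2.trans ?_
    rw [Finset.sum_add_distrib]
    congr 1
    rw [Fintype.sum_prod_type]
    refine Finset.sum_congr rfl fun r _ => ?_
    simp
  have eD : ∀ x, X x * X x = ((sD f m x : ℝ) : ℂ) + Z x := by
    intro x
    have h1 : ∀ p, Y p x * X x = Y p x * Y p.swap x +
        Y p x * ∑ q ∈ Finset.univ.erase p.swap, Y q x := by
      intro p
      rw [← mul_add]
      congr 1
      exact (Finset.add_sum_erase _ (fun q => Y q x) (Finset.mem_univ _)).symm
    have h2 : X x * X x = ∑ p, Y p x * X x := by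
      simp only [hX]
      rw [Finset.sum_mul]
    rw [h2, Finset.sum_congr rfl fun p _ => h1 p, Finset.sum_add_distrib]
    congr 1
    unfold sD
    push_cast
    refine Finset.sum_congr rfl fun p _ => ?_
    by_cases h : p.1 = p.2
    · simp [hY, h]
    · have h' : p.2 ≠ p.1 := fun h3 => h h3.symm
      simp only [hY, Prod.fst_swap, Prod.snd_swap, ne_eq, h, h', not_false_iff, if_true]
      have c1 := cj (bb f m p.1 x)
      have c2 := cj (bb f m p.2 x)
      push_cast at c1 c2 ⊢
      rw [← c1, ← c2, hb]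
      ring
  have eS : ∀ x, S x = ((sS f m x : ℝ) : ℂ) := by
    intro x
    simp only [hS]
    unfold sS
    push_cast
    refine Finset.sum_congr rfl fun r _ => ?_
    have c1 := cj (b r x)
    push_cast at c1
    exact c1
  set W : ℝ → ℂ := fun x => (3 : ℕ) * (S x * S x * X x) + (3 : ℕ) * (S x * Z x) + X x * (X x * X x)
    with hW
  have pW : Pos W := by
    refine Pos.add (Pos.add ?_ ?_) ?_
    · exact (Pos.nat 3).mul ((pS.mul pS).mul pX)
    · exact (Pos.nat 3).mul (pS.mul pZ)
    · exact pX.mul (pX.mul pX)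
  have e6 : ∀ x, ((‖F f x‖ ^ (2 * 3) : ℝ) : ℂ) =
      ((sS f m x ^ 3 + 3 * (sS f m x * sD f m x) : ℝ) : ℂ) + W x := by
    intro x
    have h1 : ((‖F f x‖ ^ (2 * 3) : ℝ) : ℂ) = (F f x * (starRingEnd ℂ) (F f x)) ^ 3 := by
      rw [cj]
      push_cast
      ring
    rw [h1, eF]
    simp only [hW]
    push_cast
    rw [← eS]
    have h2 : (S x + X x) ^ 3 = S x ^ 3 + 3 * (S x * S x * X x) + 3 * (S x * (X x * X x)) +
        X x * (X x * X x) := by ring
    rw [h2, eD x]
    ring
  have cW := pW.cont
  have cS : Continuous (sS f m) := by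
    unfold sS
    exact continuous_finsetSum _ fun r _ => ((bb_tr f m r).1.norm.pow 2)
  have cD : Continuous (sD f m) := by
    unfold sD
    refine continuous_finsetSum _ fun p _ => ?_
    by_cases h : p.1 ≠ p.2
    · simp only [if_pos h]
      exact ((bb_tr f m _).1.norm.pow 2).mul ((bb_tr f m _).1.norm.pow 2)
    · simp only [if_neg h]
      exact continuous_const
  have hint : ((M 3 f : ℝ) : ℂ) =
      ((∫ x in (0:ℝ)..1, (sS f m x ^ 3 + 3 * (sS f m x * sD f m x)) : ℝ) : ℂ) +
        ∫ x in (0:ℝ)..1, W x := by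
    unfold M
    rw [← intervalIntegral.integral_ofReal, ← intervalIntegral.integral_ofReal,
      ← intervalIntegral.integral_add]
    · exact intervalIntegral.integral_congr fun x _ => e6 x
    · refine Continuous.intervalIntegrable ?_ _ _
      exact Complex.continuous_ofReal.comp ((cS.pow 3).add (continuous_const.mul (cS.mul cD)))
    · exact cW.intervalIntegrable _ _
  have hre := congrArg Complex.re hint
  rw [Complex.add_re, Complex.ofReal_re, Complex.ofReal_re] at hre
  have := pW.integral
  linarith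

end Pool.Agent.Helper318SP3
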