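import Pool.Agent.Helper318SP3.Func3
import Pool.Agent.Helper318SP3.OneSet
import Pool.Agent.H318R3.SPk.TaskD

/-!
Splitting a set of integers whose `2`-adic valuations have the same parity.
-/

set_option autoImplicit false

namespace Pool.Agent.Helper318SP3

open Finset Pool.Agent.H384R3.SPk Pool.Agent.H384R3.SPk.C

/-- positive integers whose `2`-adic valuations have the same parity -/
def Good (A : Finset ℤ) : Prop :=
  (∀ a ∈ A, 0 < a) ∧ ∀ a ∈ A, ∀ b ∈ A, padicValInt 2 a % 2 = padicValInt 2 b % 2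

theorem Good.sub {A B : Finset ℤ} (h : Good A) (hB : B ⊆ A) : Good B :=
  ⟨fun a ha => h.1 a (hB ha), fun a ha b hb => h.2 a (hB ha) b (hB hb)⟩

theorem zmod_ne {m : ℕ} {n : ℤ} (h : ¬ (m : ℤ) ∣ n) : ((n : ℤ) : ZMod m) ≠ 0 := by
  intro h'
  exact h ((ZMod.intCast_zmod_eq_zero_iff_dvd n m).1 h')

theorem zmod_ne_neg {m : ℕ} {n : ℤ} (h : ¬ (m : ℤ) ∣ 2 * n) :
    ((n : ℤ) : ZMod m) ≠ - ((n : ℤ) : ZMod m) := by
  intro h'
  apply h
  rw [← ZMod.intCast_zmod_eq_zero_iff_dvd]
  push_cast
  have : (n : ZMod m) + n = 0 := by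
    nth_rewrite 1 [h']
    ring
  rw [two_mul]
  exact this

/-- the combination inequality for a split of a good set -/
theorem split {p : ℕ} (hp : p.Prime) {A A0 A1 : Finset ℤ} {j : ℕ} (hA : Good A)
    (hne : A0.Nonempty) (h0 : A0 ⊆ A) (h1 : A1 ⊆ A) (hv0 : ∀ a ∈ A0, padicValInt p a = j)
    (hv1 : ∀ a ∈ A1, j < padicValInt p a) : R 3 A1 + 9 / 40 * R 3 A0 ≤ R 3 A := by
  have : Fact p.Prime := ⟨hp⟩
  have hnd : ∀ a ∈ A0, ¬ ((p : ℤ) ^ (j + 1)) ∣ a := by
    intro n hn hdvd
    have hpos := hA.1 n (h0 hn)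
    rcases (padicValInt_dvd_iff (p := p) (j + 1) n).1 hdvd with h | h
    · omega
    · rw [hv0 n hn] at h; omega
  rcases hp.eq_two_or_odd' with h2 | hodd
  · -- `p = 2`
    subst h2
    have : NeZero (2 ^ (j + 2)) := ⟨by positivity⟩
    refine R_comb3 (m := 2 ^ (j + 2)) h0 h1 (fun n hn => zmod_ne ?_) (fun n hn => zmod_ne_neg ?_)
      (fun n hn => ?_)
    · intro hdvd
      apply hnd n hn
      refine dvd_trans ?_ hdvd
      push_cast
      exact pow_dvd_pow _ (by omega)
    · intro hdvd
      apply hnd n hn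
      have e : ((2 ^ (j + 2) : ℕ) : ℤ) = 2 * ((2 : ℕ) : ℤ) ^ (j + 1) := by
        push_cast
        ring
      rw [e] at hdvd
      exact (mul_dvd_mul_iff_left (by norm_num)).1 hdvd
    · rw [ZMod.intCast_zmod_eq_zero_iff_dvd]
      obtain ⟨b, hb⟩ := hne
      have e1 := hA.2 n (h1 hn) b (h0 hb)
      rw [hv0 b hb] at e1
      have e2 := hv1 n hn
      have e3 : j + 2 ≤ padicValInt 2 n := by omega
      have := (padicValInt_dvd_iff (p := 2) (j + 2) n).2 (Or.inr e3)
      exact_mod_cast this
  · have : NeZero (p ^ (j + 1)) := ⟨(pow_pos hp.pos _).ne'⟩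
    refine R_comb3 (m := p ^ (j + 1)) h0 h1 (fun n hn => zmod_ne ?_) (fun n hn => zmod_ne_neg ?_)
      (fun n hn => ?_)
    · intro hdvd
      exact hnd n hn (by exact_mod_cast hdvd)
    · intro hdvd
      apply hnd n hn
      have hcop : IsCoprime ((p ^ (j + 1) : ℕ) : ℤ) 2 := by
        have : Nat.Coprime (p ^ (j + 1)) 2 := Nat.Coprime.pow_left _ (Nat.Coprime.symm
          (Nat.coprime_two_left.2 hodd))
        exact_mod_cast Nat.isCoprime_iff_coprime.2 this
      have := hcop.dvd_of_dvd_mul_left hdvd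
      exact_mod_cast this
    · rw [ZMod.intCast_zmod_eq_zero_iff_dvd]
      have := (padicValInt_dvd_iff (p := p) (j + 1) n).2 (Or.inr (hv1 n hn))
      exact_mod_cast this

open Classical in
/-- the potential of a good set -/
noncomputable def P5 (A : Finset ℤ) : ℝ := if Good A then pt5 A.card (R 3 A) else 0

theorem R3_nonneg (A : Finset ℤ) : 0 ≤ R 3 A :=
  le_csSup (bdd tC (by norm_num) A) (G_zero 3 (by norm_num) A)

theorem P5_nonneg (A : Finset ℤ) : 0 ≤ P5 A := by
  unfold P5
  split_ifs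
  · unfold pt5
    have := R3_nonneg A
    positivity
  · exact le_rfl

/-- the five set inequality for good sets -/
theorem prod5 (A : Fin 5 → Finset ℤ) (hA : ∀ i, (A i).Nonempty) (hG : ∀ i, Good (A i)) :
    ∏ i, pt5 (A i).card (R 3 (A i)) ≤ ((prodset A).card : ℝ) := by
  have h := taskD 5 (by norm_num) P5 P5_nonneg ?_ ?_ A hA (fun i => (hG i).1)
  · refine le_trans (le_of_eq ?_) h
    refine Finset.prod_congr rfl fun i _ => ?_
    unfold P5
    rw [if_pos (hG i)]
  · intro p A A0 A1 j hp hpos hne0 hne1 hdisj hun hv0 hv1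
    by_cases hGA : Good A
    · have s0 : A0 ⊆ A := by rw [← hun]; exact Finset.subset_union_left
      have s1 : A1 ⊆ A := by rw [← hun]; exact Finset.subset_union_right
      unfold P5
      rw [if_pos hGA, if_pos (hGA.sub s0), if_pos (hGA.sub s1)]
      have hcard : (A.card : ℝ) = A0.card + A1.card := by
        rw [← hun, Finset.card_union_of_disjoint hdisj]; push_cast; ring
      have r0 := one_le_R tC (k := 3) (by norm_num) hne0
      have r1 := one_le_R tC (k := 3) (by norm_num) hne1
      have := os5 (a0 := (A0.card : ℝ)) (a1 := (A1.card : ℝ))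
        (by exact_mod_cast hne0.card_pos) (by exact_mod_cast hne1.card_pos)
        (R0 := R 3 A0) (R1 := R 3 A1) (ρ := R 3 A)
        (by linarith) (by linarith) (R_sub tC (by norm_num) s0) (split hp hGA hne0 s0 s1 hv0 hv1)
      rw [← hcard] at this
      exact this
    · have : P5 A = 0 := by
        unfold P5
        rw [if_neg hGA]
      rw [this]
      have h0 := P5_nonneg A0
      norm_num
      positivity
  · intro a ha
    unfold P5
    split_ifs
    · have h1 := one_le_R tC (k := 3) (by norm_num) (Finset.singleton_nonempty a)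
      unfold pt5
      rw [Finset.card_singleton]
      refine Real.rpow_le_one (by positivity) ?_ (by norm_num)
      rw [Nat.cast_one, one_pow, div_le_one (by linarith)]
      exact h1
    · norm_num

end Pool.Agent.Helper318SP3
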