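import Pool.Agent.Helper318SP3.Comb

/-!
A lower bound for the sixth moment which keeps the class zero part of `b |b|^2`.
-/

set_option autoImplicit false

namespace Pool.Agent.Helper318SP3

open Finset Pool.Agent.H384R3.SPk Pool.Agent.H384R3.SPk.C

theorem Pos.smul {Φ : ℝ → ℂ} (h : Pos Φ) {c : ℝ} (hc : 0 ≤ c) : Pos (fun x => (c : ℂ) * Φ x) := by
  obtain ⟨ι, _, k, w, hw, hΦ⟩ := h
  refine ⟨ι, inferInstance, k, fun i => c * w i, fun i => mul_nonneg hc (hw i), fun x => ?_⟩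
  show (c : ℂ) * Φ x = _
  rw [hΦ, Finset.mul_sum]
  refine Finset.sum_congr rfl fun i _ => ?_
  push_cast
  ring

/-- admissible classes -/
def Adm {m : ℕ} (r : ZMod m) : Prop := r ≠ 0 ∧ r ≠ -r ∧ r + r + r ≠ 0

/-- triples -/
noncomputable def t3 (f : ℤ →₀ ℝ) (m : ℕ) (τ : ZMod m × ZMod m × ZMod m) (x : ℝ) : ℂ :=
  bb f m τ.1 x * bb f m τ.2.1 x * (starRingEnd ℂ) (bb f m τ.2.2 x)

/-- the class zero part of `F |F|^2` -/
noncomputable def c0 (f : ℤ →₀ ℝ) (m : ℕ) [NeZero m] (x : ℝ) : ℂ :=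
  ∑ τ : ZMod m × ZMod m × ZMod m, if τ.1 + τ.2.1 + -τ.2.2 = 0 then t3 f m τ x else 0

/-- the lower bound function -/
noncomputable def sL (f : ℤ →₀ ℝ) (m : ℕ) [NeZero m] (x : ℝ) : ℝ :=
  (∑ p : ZMod m, ‖bb f m p x‖ ^ 2 * (2 * sS f m x - ‖bb f m p x‖ ^ 2) ^ 2) +
    ∑ r : ZMod m, (‖bb f m r x‖ ^ 2) ^ 2 * ‖bb f m (-r) x‖ ^ 2

theorem triple {m : ℕ} [NeZero m] (a b c : ZMod m → ℂ) :
    ∑ τ : ZMod m × ZMod m × ZMod m, a τ.1 * b τ.2.1 * c τ.2.2 =
      (∑ r, a r) * (∑ s, b s) * (∑ t, c t) := by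
  rw [Fintype.sum_prod_type]
  simp_rw [Fintype.sum_prod_type]
  simp only [← Finset.mul_sum, ← Finset.sum_mul]

section

variable {m : ℕ} [NeZero m] {f : ℤ →₀ ℝ}

theorem ind1 (b c : ZMod m → ℂ) :
    ∑ τ : ZMod m × ZMod m × ZMod m, (if τ.2.1 = τ.2.2 then b τ.1 * b τ.2.1 * c τ.2.2 else 0) =
      (∑ r, b r) * ∑ s, b s * c s := by
  rw [Fintype.sum_prod_type]
  simp_rw [Fintype.sum_prod_type]
  simp only [Finset.sum_ite_eq, Finset.mem_univ, if_true]
  rw [Finset.sum_mul_sum]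
  refine Finset.sum_congr rfl fun r _ => Finset.sum_congr rfl fun s _ => ?_
  ring

theorem ind2 (b c : ZMod m → ℂ) :
    ∑ τ : ZMod m × ZMod m × ZMod m, (if τ.1 = τ.2.2 then b τ.1 * b τ.2.1 * c τ.2.2 else 0) =
      (∑ r, b r) * ∑ s, b s * c s := by
  rw [Fintype.sum_prod_type]
  simp_rw [Fintype.sum_prod_type]
  simp only [Finset.sum_ite_eq, Finset.mem_univ, if_true]
  rw [Finset.sum_mul_sum, Finset.sum_comm]
  refine Finset.sum_congr rfl fun r _ => Finset.sum_congr rfl fun s _ => ?_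
  ring

theorem ind3 (b c : ZMod m → ℂ) :
    ∑ τ : ZMod m × ZMod m × ZMod m,
      (if τ.1 = τ.2.2 then (if τ.2.1 = τ.2.2 then b τ.1 * b τ.2.1 * c τ.2.2 else 0) else 0) =
      ∑ s, b s * b s * c s := by
  rw [Fintype.sum_prod_type]
  simp_rw [Fintype.sum_prod_type]
  simp only [Finset.sum_ite_eq, Finset.sum_ite_eq', Finset.mem_univ, if_true]

theorem ind4 (b c : ZMod m → ℂ) :
    ∑ τ : ZMod m × ZMod m × ZMod m,
      (if τ.2.1 = τ.1 then (if τ.2.2 = -τ.1 then b τ.1 * b τ.2.1 * c τ.2.2 else 0) else 0) =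
      ∑ s, b s * b s * c (-s) := by
  rw [Fintype.sum_prod_type]
  simp_rw [Fintype.sum_prod_type]
  refine Finset.sum_congr rfl fun r _ => ?_
  rw [Finset.sum_eq_single r]
  · simp only [if_true, Finset.sum_ite_eq', Finset.mem_univ]
  · intro s _ hs
    simp only [if_neg hs, Finset.sum_const_zero]
  · intro h
    exact absurd (Finset.mem_univ _) h

theorem bb_adm (hf : ∀ n ∈ f.support, Adm ((n : ℤ) : ZMod m)) {r : ZMod m} (hr : ¬ Adm r) (x : ℝ) :
    bb f m r x = 0 :=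
  bb_zero (fun n hn h => hr (by rw [← h]; exact hf n hn)) x

/-- coefficient of the remaining triples -/
noncomputable def rc (τ : ZMod m × ZMod m × ZMod m) : ℝ :=
  1 - (if τ.1 + τ.2.1 + -τ.2.2 = 0 then 1 else 0) - (if τ.2.1 = τ.2.2 then 1 else 0) -
    (if τ.1 = τ.2.2 then 1 else 0) +
    (if τ.1 = τ.2.2 then (if τ.2.1 = τ.2.2 then 1 else 0) else 0) -
    (if τ.2.1 = τ.1 then (if τ.2.2 = -τ.1 then 1 else 0) else 0)

theorem rc_nonneg (r s t : ZMod m) (hr : Adm r) (hs : Adm s) : 0 ≤ rc (r, s, t) := by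
  unfold rc
  by_cases h1 : s = t
  · subst h1
    have e1 : r + s + -s ≠ 0 := by
      rw [add_assoc, add_neg_cancel, add_zero]; exact hr.1
    by_cases h2 : r = s
    · subst h2
      have e2 : r ≠ -r := hr.2.1
      simp [e2, hr.1]
    · have h3 : s ≠ r := fun h => h2 h.symm
      simp [h2, h3, hr.1]
  · by_cases h2 : r = t
    · subst h2
      have e1 : r + s + -r ≠ 0 := by
        have : r + s + -r = s := by ring
        rw [this]; exact hs.1
      have h3 : s ≠ r := h1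
      simp [h3, hs.1]
    · by_cases h3 : s = r
      · subst h3
        by_cases h4 : t = -s
        · subst h4
          simp [h1, hs.2.2]
        · simp only [h1, h4, if_true, if_false]
          split_ifs <;> norm_num
      · simp only [h1, h2, h3, if_false]
        split_ifs <;> norm_num

/-- the decomposition -/
theorem decomp (b c : ZMod m → ℂ) :
    (∑ r, b r) * (∑ r, b r) * (∑ r, c r) =
      (∑ τ : ZMod m × ZMod m × ZMod m, if τ.1 + τ.2.1 + -τ.2.2 = 0 then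
        b τ.1 * b τ.2.1 * c τ.2.2 else 0) +
      ((∑ p, b p * ((∑ s, b s * c s) + ∑ s ∈ Finset.univ.erase p, b s * c s)) +
        ∑ s, b s * b s * c (-s)) +
      ∑ τ : ZMod m × ZMod m × ZMod m, ((rc τ : ℝ) : ℂ) * (b τ.1 * b τ.2.1 * c τ.2.2) := by
  have h1 : ∑ τ : ZMod m × ZMod m × ZMod m, ((rc τ : ℝ) : ℂ) * (b τ.1 * b τ.2.1 * c τ.2.2) =
      (∑ τ : ZMod m × ZMod m × ZMod m, b τ.1 * b τ.2.1 * c τ.2.2) -
      (∑ τ : ZMod m × ZMod m × ZMod m, if τ.1 + τ.2.1 + -τ.2.2 = 0 then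
        b τ.1 * b τ.2.1 * c τ.2.2 else 0) -
      (∑ τ : ZMod m × ZMod m × ZMod m, if τ.2.1 = τ.2.2 then b τ.1 * b τ.2.1 * c τ.2.2 else 0) -
      (∑ τ : ZMod m × ZMod m × ZMod m, if τ.1 = τ.2.2 then b τ.1 * b τ.2.1 * c τ.2.2 else 0) +
      (∑ τ : ZMod m × ZMod m × ZMod m,
        if τ.1 = τ.2.2 then (if τ.2.1 = τ.2.2 then b τ.1 * b τ.2.1 * c τ.2.2 else 0) else 0) -
      (∑ τ : ZMod m × ZMod m × ZMod m,
        if τ.2.1 = τ.1 then (if τ.2.2 = -τ.1 then b τ.1 * b τ.2.1 * c τ.2.2 else 0) else 0) := by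
    rw [← Finset.sum_sub_distrib, ← Finset.sum_sub_distrib, ← Finset.sum_sub_distrib,
      ← Finset.sum_add_distrib, ← Finset.sum_sub_distrib]
    refine Finset.sum_congr rfl fun τ _ => ?_
    unfold rc
    split_ifs <;> push_cast <;> ring
  have h2 : ∑ p, b p * ((∑ s, b s * c s) + ∑ s ∈ Finset.univ.erase p, b s * c s) =
      (∑ p, b p) * (∑ s, b s * c s) + (∑ p, b p) * (∑ s, b s * c s) - ∑ s, b s * b s * c s := by
    rw [← add_mul, ← Finset.sum_add_distrib, Finset.sum_mul, ← Finset.sum_sub_distrib]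
    refine Finset.sum_congr rfl fun p _ => ?_
    have := Finset.add_sum_erase Finset.univ (fun s => b s * c s) (Finset.mem_univ p)
    rw [← this]
    ring
  rw [h1, h2, triple b b c, ind1, ind2, ind3, ind4]
  ring

end

end Pool.Agent.Helper318SP3
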